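import Pool.Agent.TH661.LPY.Base
import Pool.Agent.TH661.LPX.ProgDef

/-!
The model: tuples of different elements.
-/

set_option autoImplicit false

namespace Pool.Agent.TH661.LPY

open Finset Pool.Agent.TH661.LPX

/-- The ordered `k`-tuples of different elements. -/
abbrev Tup (n k : ℕ) := {a : Fin k → Fin n // Function.Injective a}

/-- The set of the elements of a tuple. -/
def im {n k : ℕ} (a : Tup n k) : Finset (Fin n) := univ.image a.1

/-- The clauses with `k` literals in different variables: the variables and the signs. -/
abbrev Cl (n k : ℕ) := Tup n k × (Fin k → Bool)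

/-- The formula. -/
def frm {n k M : ℕ} (ω : Fin M → Cl n k) : CNF n :=
  List.ofFn fun i => List.ofFn fun j => ((ω i).1.1 j, (ω i).2 j)

/-- The clause is false at `x`. -/
noncomputable def fa {n k : ℕ} (c : Cl n k) (x : Fin n → Bool) : ℝ :=
  ind (∀ j, x (c.1.1 j) ≠ c.2 j)

/-- The sign of the parity constraint implied by the clause. -/
def par {k : ℕ} (s : Fin k → Bool) : Bool :=
  decide (Even (univ.filter fun j => s j = false).card)

end Pool.Agent.TH661.LPY
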