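import Pool.Agent.TH661.LPX.Sel

/-!
Random set systems: characters, signed sets, Fourier weights.
-/

set_option autoImplicit false

namespace Pool.Agent.TH661.LPY

open Finset Pool.Agent.TH661.LPX

section base

variable {V : Type*}

/-- The character. -/
def ch (T : Finset V) (x : V → Bool) : ℝ := ∏ v ∈ T, sg (x v)

theorem ch_cases (T : Finset V) (x : V → Bool) : ch T x = 1 ∨ ch T x = -1 := by
  classical
  unfold ch
  induction T using Finset.induction_on with
  | empty => left; simp
  | insert v T hv ih =>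
    rw [prod_insert hv]
    rcases sg_cases (x v) with h | h <;> rcases ih with h' | h' <;> rw [h, h'] <;> norm_num

theorem ch_mul_self (T : Finset V) (x : V → Bool) : ch T x * ch T x = 1 := by
  rcases ch_cases T x with h | h <;> rw [h] <;> norm_num

theorem ch_symmDiff [DecidableEq V] (S T : Finset V) (x : V → Bool) :
    ch (symmDiff S T) x = ch S x * ch T x := by
  have h1 : ch S x = ch (S \ T) x * ch (S ∩ T) x := by
    unfold ch
    rw [← prod_union (disjoint_sdiff_inter S T), sdiff_union_inter]
  have h2 : ch T x = ch (T \ S) x * ch (S ∩ T) x := by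
    unfold ch
    rw [inter_comm, ← prod_union (disjoint_sdiff_inter T S), sdiff_union_inter]
  have h3 : ch (symmDiff S T) x = ch (S \ T) x * ch (T \ S) x := by
    unfold ch
    rw [symmDiff_def, sup_eq_union, prod_union disjoint_sdiff_sdiff]
  rw [h3, h1, h2]
  have h4 := ch_mul_self (S ∩ T) x
  calc ch (S \ T) x * ch (T \ S) x
      = ch (S \ T) x * ch (T \ S) x * (ch (S ∩ T) x * ch (S ∩ T) x) := by rw [h4, mul_one]
    _ = _ := by ring

variable {A : Type*}

/-- The sign of a constraint. -/
def ye (e : A → Finset V) (a : A × Bool) (x : V → Bool) : ℝ := sg a.2 * ch (e a.1) x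

theorem ye_cases (e : A → Finset V) (a : A × Bool) (x : V → Bool) :
    ye e a x = 1 ∨ ye e a x = -1 := by
  unfold ye
  rcases sg_cases a.2 with h | h <;> rcases ch_cases (e a.1) x with h' | h' <;> rw [h, h'] <;>
    norm_num

theorem abs_ye (e : A → Finset V) (a : A × Bool) (x : V → Bool) : |ye e a x| = 1 := by
  rcases ye_cases e a x with h | h <;> rw [h] <;> norm_num

/-- The signed system. -/
def prs {J : Type*} (H : J → A) (σ : J → Bool) : J → A × Bool := fun i => (H i, σ i)

theorem prs_congr {J : Type*} {H H' : J → A} {i : J} (σ : J → Bool) (hH : H i = H' i) :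
    prs H σ i = prs H' σ i := by
  unfold prs; rw [hH]

end base

section so

variable {V A J : Type*} [Fintype V] [DecidableEq V]

/-- The elements of odd degree. -/
def so (e : A → Finset V) (H : J → A) (E : Finset J) : Finset V :=
  univ.filter fun v => Odd (E.filter fun i => v ∈ e (H i)).card

theorem so_empty (e : A → Finset V) (H : J → A) : so e H ∅ = ∅ := by simp [so]

theorem so_insert [DecidableEq J] (e : A → Finset V) (H : J → A) {E : Finset J} {i : J}
    (hi : i ∉ E) : so e H (insert i E) = symmDiff (so e H E) (e (H i)) := by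
  ext v
  rw [mem_symmDiff]
  unfold so
  rw [mem_filter, mem_filter]
  by_cases hv : v ∈ e (H i)
  · rw [filter_insert, if_pos hv, card_insert_of_notMem (fun h => hi (mem_filter.mp h).1)]
    simp [Nat.odd_add_one, hv]
  · rw [filter_insert, if_neg hv]
    simp [hv]

theorem so_congr (e : A → Finset V) {H H' : J → A} {E : Finset J} (hH : ∀ i ∈ E, H i = H' i) :
    so e H E = so e H' E := by
  unfold so
  congr 1
  funext v
  congr 1
  congr 1
  refine filter_congr fun i hi => ?_
  rw [hH i hi]

theorem ch_so [DecidableEq J] (e : A → Finset V) (H : J → A) (E : Finset J) (x : V → Bool) :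
    ch (so e H E) x = ∏ i ∈ E, ch (e (H i)) x := by
  induction E using Finset.induction_on with
  | empty => rw [so_empty, prod_empty]; simp [ch]
  | insert i E hi ih => rw [so_insert e H hi, prod_insert hi, ch_symmDiff, ih, mul_comm]

theorem card_so_le [DecidableEq J] (e : A → Finset V) {k : ℕ} (he : ∀ a, (e a).card ≤ k)
    (H : J → A) (E : Finset J) : (so e H E).card ≤ k * E.card := by
  induction E using Finset.induction_on with
  | empty => rw [so_empty]; simp
  | insert i E hi ih =>
    rw [so_insert e H hi, card_insert_of_notMem hi]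
    have h1 : (symmDiff (so e H E) (e (H i))).card ≤ (so e H E).card + (e (H i)).card := by
      refine (card_le_card ?_).trans (card_union_le _ _)
      intro v hv
      rw [mem_symmDiff] at hv
      rw [mem_union]
      tauto
    have h2 := he (H i)
    calc (symmDiff (so e H E) (e (H i))).card ≤ k * E.card + k := by omega
      _ = k * (E.card + 1) := by ring

theorem Y_prs [DecidableEq J] (e : A → Finset V) (H : J → A) (σ : J → Bool) (E : Finset J)
    (x : V → Bool) : Y (ye e) (prs H σ) E x = (∏ i ∈ E, sg (σ i)) * ch (so e H E) x := by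
  rw [ch_so, ← prod_mul_distrib]
  rfl

theorem co_prs [DecidableEq J] (e : A → Finset V) (H : J → A) (σ : J → Bool)
    (g : (V → Bool) → ℝ) (E : Finset J) :
    co (ye e) (prs H σ) g E = (∏ i ∈ E, sg (σ i)) * fI g (so e H E) := by
  unfold co fI
  rw [← av_mul_left]
  refine av_congr fun x => ?_
  rw [Y_prs]; unfold ch; ring

theorem up_bs' [DecidableEq J] (e : A → Finset V) (H : J → A) (σ : J → Bool) (F : Finset J)
    (h : (V → Bool) → ℝ) :
    up (ye e) (prs H (bs (F.filter fun i => σ i = true))) F h = up (ye e) (prs H σ) F h := by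
  refine up_congr (fun i hi => ?_) h
  unfold prs bs
  refine Prod.ext rfl ?_
  simp only [mem_filter, hi, true_and]
  cases σ i <;> simp

end so

section weight

variable {V : Type*} [Fintype V] [DecidableEq V]

/-- The Fourier weight of a bounded density. -/
theorem fI_weight_density {ρ : ℝ} (h0 : 0 ≤ ρ) (h1 : ρ ≤ 1) {g : (V → Bool) → ℝ}
    (hg : ∀ x, 0 ≤ g x) {G : ℝ} (hg1 : ∀ x, g x ≤ G) (hav : av g = 1) :
    ∑ S : Finset V, ρ ^ S.card * fI g S ^ 2 ≤ G ^ (2 * ρ) := by
  refine (fI_abs_weight_le h0 h1 g).trans ?_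
  have hG1 : 1 ≤ G := by rw [← hav]; exact av_le_const hg1
  have hG0 : 0 < G := by linarith
  have h2 : av (fun x => |g x| ^ (1 + ρ)) ≤ G ^ ρ := by
    have h3 : ∀ x, |g x| ^ (1 + ρ) ≤ G ^ ρ * g x := by
      intro x
      rw [abs_of_nonneg (hg x), Real.rpow_add_of_nonneg (hg x) (by norm_num) h0, Real.rpow_one,
        mul_comm]
      exact mul_le_mul_of_nonneg_right (Real.rpow_le_rpow (hg x) (hg1 x) h0) (hg x)
    refine (av_mono h3).trans (le_of_eq ?_)
    rw [av_mul_left, hav, mul_one]
  calc (av fun x => |g x| ^ (1 + ρ)) ^ (2 / (1 + ρ)) ≤ (G ^ ρ) ^ (2 / (1 + ρ)) :=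
        Real.rpow_le_rpow (av_nonneg fun x => Real.rpow_nonneg (abs_nonneg _) _) h2
          (by positivity)
    _ = G ^ (ρ * (2 / (1 + ρ))) := by rw [← Real.rpow_mul hG0.le]
    _ ≤ G ^ (2 * ρ) := by
        refine Real.rpow_le_rpow_of_exponent_le hG1 ?_
        rw [mul_div_assoc', div_le_iff₀ (by linarith)]
        nlinarith

/-- The Fourier weight of a function with values in the unit interval. -/
theorem fI_weight_le_one {ρ : ℝ} (h0 : 0 ≤ ρ) (h1 : ρ ≤ 1) {g : (V → Bool) → ℝ}
    (hg : ∀ x, 0 ≤ g x) (hg1 : ∀ x, g x ≤ 1) :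
    ∑ S : Finset V, ρ ^ S.card * fI g S ^ 2 ≤ 1 := by
  refine (fI_abs_weight_le h0 h1 g).trans ?_
  refine Real.rpow_le_one (av_nonneg fun x => Real.rpow_nonneg (abs_nonneg _) _) ?_
    (by positivity)
  exact av_le_const fun x => Real.rpow_le_one (abs_nonneg _)
    (by rw [abs_of_nonneg (hg x)]; exact hg1 x) (by linarith)

theorem fI_sum {ι : Type*} (s : Finset ι) (c : ι → ℝ) (b : ι → (V → Bool) → ℝ)
    (S : Finset V) : fI (∑ i ∈ s, c i • b i) S = ∑ i ∈ s, c i * fI (b i) S := by
  unfold fI
  simp_rw [← av_mul_left]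
  rw [← av_sum]
  refine av_congr fun x => ?_
  rw [Finset.sum_apply, sum_mul]
  exact sum_congr rfl fun i _ => by rw [Pi.smul_apply, smul_eq_mul]; ring

theorem fI_smul (c : ℝ) (b : (V → Bool) → ℝ) (S : Finset V) :
    fI (c • b) S = c * fI b S := by
  unfold fI
  rw [← av_mul_left]
  exact av_congr fun x => by rw [Pi.smul_apply, smul_eq_mul]; ring

end weight

end Pool.Agent.TH661.LPY
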