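import Pool.Agent.TH661.LPY.Mod

/-!
The probability that the set of the elements of odd degree is given.
-/

set_option autoImplicit false

namespace Pool.Agent.TH661.LPY

open Finset Pool.Agent.TH661.LPX

private lemma desc_bound (n : ℕ) : ∀ j : ℕ, j ≤ n →
    (n : ℝ) ^ j * (2 * n - j * (j - 1)) ≤ 2 * n * (n.descFactorial j : ℝ) := by
  intro j
  induction j with
  | zero => intro _; simp
  | succ j ih =>
    intro hj
    have h1 := ih (by omega)
    have h2 : ((n.descFactorial (j + 1) : ℕ) : ℝ) = ((n : ℝ) - j) * (n.descFactorial j : ℝ) := by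
      rw [Nat.descFactorial_succ, Nat.cast_mul, Nat.cast_sub (by omega)]
    have h3 : (0 : ℝ) ≤ (n : ℝ) - j := by
      have : (j : ℝ) ≤ n := by exact_mod_cast (by omega : j ≤ n)
      linarith
    have h4 : (0 : ℝ) ≤ (j : ℝ) ^ 2 * (j - 1) := by
      rcases Nat.eq_zero_or_pos j with h | h
      · subst h; simp
      · have : (1 : ℝ) ≤ j := by exact_mod_cast h
        have h5 : (0 : ℝ) ≤ (j : ℝ) - 1 := by linarith
        positivity
    rw [h2]
    calc (n : ℝ) ^ (j + 1) * (2 * n - ((j + 1 : ℕ) : ℝ) * (((j + 1 : ℕ) : ℝ) - 1))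
        ≤ (n : ℝ) ^ j * ((n - j) * (2 * n - j * (j - 1))) := by
          rw [pow_succ, mul_assoc]
          refine mul_le_mul_of_nonneg_left ?_ (by positivity)
          push_cast
          nlinarith
      _ = (n - j) * ((n : ℝ) ^ j * (2 * n - j * (j - 1))) := by ring
      _ ≤ (n - j) * (2 * n * (n.descFactorial j : ℝ)) := mul_le_mul_of_nonneg_left h1 h3
      _ = 2 * n * ((n - j) * (n.descFactorial j : ℝ)) := by ring

theorem card_Tup {n k : ℕ} (h : k * (k - 1) ≤ n) :
    (n : ℝ) ^ k ≤ 2 * Fintype.card (Tup n k) := by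
  have h1 : Fintype.card (Tup n k) = n.descFactorial k := by
    rw [Fintype.card_congr (Equiv.subtypeInjectiveEquivEmbedding (Fin k) (Fin n)),
      Fintype.card_embedding_eq, Fintype.card_fin, Fintype.card_fin]
  rw [h1]
  rcases Nat.lt_or_ge k 2 with hk | hk
  · interval_cases k
    · simp
    · rw [pow_one, Nat.descFactorial_one]
      have : (0 : ℝ) ≤ n := Nat.cast_nonneg n
      linarith
  · have hkn : k ≤ n := by
      calc k = k * 1 := (mul_one k).symm
        _ ≤ k * (k - 1) := Nat.mul_le_mul_left k (by omega)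
        _ ≤ n := h
    have hn : (0 : ℝ) < n := by exact_mod_cast (by omega : 0 < n)
    have h2 := desc_bound n k hkn
    have h3 : (k : ℝ) * (k - 1) ≤ n := by
      have h4 : ((k * (k - 1) : ℕ) : ℝ) ≤ n := by exact_mod_cast h
      rw [Nat.cast_mul, Nat.cast_sub (by omega), Nat.cast_one] at h4
      exact h4
    have h5 : (n : ℝ) ^ k * n ≤ 2 * (n.descFactorial k : ℝ) * n := by
      calc (n : ℝ) ^ k * n ≤ (n : ℝ) ^ k * (2 * n - k * (k - 1)) :=
            mul_le_mul_of_nonneg_left (by linarith) (by positivity)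
        _ ≤ 2 * n * (n.descFactorial k : ℝ) := h2
        _ = _ := by ring
    exact le_of_mul_le_mul_right h5 hn

private lemma card_im_le {n k : ℕ} (a : Tup n k) : (im a).card ≤ k := by
  unfold im
  exact card_image_le.trans (by simp)

private lemma pow_symmDiff {n k : ℕ} {r : ℝ} (hr : 0 < r) (S : Finset (Fin n)) (a : Tup n k) :
    r ^ (symmDiff S (im a)).card
      = r ^ S.card * ∏ j, (if a.1 j ∈ S then 1 / r else r) := by
  have h1 : ∏ j, (if a.1 j ∈ S then 1 / r else r)
      = ∏ v ∈ im a, (if v ∈ S then 1 / r else r) := by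
    unfold im
    rw [prod_image fun x _ y _ hxy => a.2 hxy]
  have h2 : ∏ v ∈ im a, (if v ∈ S then 1 / r else r)
      = (1 / r) ^ (im a ∩ S).card * r ^ (im a \ S).card := by
    rw [prod_ite, prod_const, prod_const]
    congr 3
    · ext v
      simp [mem_filter, mem_sdiff]
  have h3 : (symmDiff S (im a)).card = (S \ im a).card + (im a \ S).card := by
    rw [symmDiff_def, sup_eq_union, card_union_of_disjoint disjoint_sdiff_sdiff]
  have h4 : S.card = (S \ im a).card + (im a ∩ S).card := by
    rw [inter_comm]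
    exact (card_sdiff_add_card_inter S (im a)).symm
  rw [h1, h2, h3]
  rw [h4, pow_add, pow_add]
  calc r ^ (S \ im a).card * r ^ (im a \ S).card
      = r ^ (S \ im a).card * (r * (1 / r)) ^ (im a ∩ S).card * r ^ (im a \ S).card := by
        rw [mul_one_div_cancel hr.ne', one_pow, mul_one]
    _ = _ := by rw [mul_pow]; ring

private lemma av_pow_im {n k : ℕ} (hT : (n : ℝ) ^ k ≤ 2 * Fintype.card (Tup n k))
    [Nonempty (Tup n k)] {r : ℝ} (hr : 0 < r) {S : Finset (Fin n)}
    (hS : (S.card : ℝ) ≤ n * r ^ 2) :
    av (fun a : Tup n k => r ^ (symmDiff S (im a)).card) ≤ 2 * (2 ^ k * r ^ (k + S.card)) := by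
  have hc : (0 : ℝ) < Fintype.card (Tup n k) := by exact_mod_cast Fintype.card_pos
  unfold av
  rw [div_le_iff₀ hc]
  have h1 : ∑ a : Tup n k, r ^ (symmDiff S (im a)).card
      = r ^ S.card * ∑ a : Tup n k, ∏ j, (if a.1 j ∈ S then 1 / r else r) := by
    rw [mul_sum]
    exact sum_congr rfl fun a _ => pow_symmDiff hr S a
  have h2 : ∑ a : Tup n k, ∏ j, (if a.1 j ∈ S then 1 / r else r)
      ≤ ∑ a : Fin k → Fin n, ∏ j, (if a j ∈ S then 1 / r else r) := by
    have h3 := Finset.sum_map (univ : Finset (Tup n k))
      (Function.Embedding.subtype (Function.Injective : (Fin k → Fin n) → Prop))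
      (fun a : Fin k → Fin n => ∏ j, (if a j ∈ S then 1 / r else r))
    rw [Function.Embedding.coe_subtype] at h3
    rw [← h3]
    refine Finset.sum_le_univ_sum_of_nonneg fun a => prod_nonneg fun j _ => ?_
    split_ifs <;> positivity
  have h4 : ∑ a : Fin k → Fin n, ∏ j, (if a j ∈ S then 1 / r else r)
      = (∑ v : Fin n, (if v ∈ S then 1 / r else r)) ^ k :=
    (Fintype.sum_pow (fun v : Fin n => if v ∈ S then 1 / r else r) k).symm
  have h5 : ∑ v : Fin n, (if v ∈ S then 1 / r else r) ≤ 2 * r * n := by
    have h6 : ∀ v : Fin n, (if v ∈ S then 1 / r else r) ≤ (if v ∈ S then 1 / r else 0) + r := by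
      intro v
      split_ifs
      · linarith
      · linarith
    refine (sum_le_sum fun v _ => h6 v).trans ?_
    rw [sum_add_distrib, ← sum_filter, sum_const, sum_const, card_univ, Fintype.card_fin,
      nsmul_eq_mul, nsmul_eq_mul, filter_mem_eq_inter, univ_inter]
    have h7 : (S.card : ℝ) * (1 / r) ≤ n * r := by
      rw [mul_one_div, div_le_iff₀ hr]
      calc (S.card : ℝ) ≤ n * r ^ 2 := hS
        _ = n * r * r := by ring
    linarith
  have h8 : (0 : ℝ) ≤ ∑ v : Fin n, (if v ∈ S then 1 / r else r) :=
    sum_nonneg fun v _ => by split_ifs <;> positivity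
  rw [h1]
  calc r ^ S.card * ∑ a : Tup n k, ∏ j, (if a.1 j ∈ S then 1 / r else r)
      ≤ r ^ S.card * (2 * r * n) ^ k := by
        refine mul_le_mul_of_nonneg_left ?_ (by positivity)
        exact (h2.trans h4.le).trans (pow_le_pow_left₀ h8 h5 k)
    _ = 2 ^ k * r ^ (k + S.card) * (n : ℝ) ^ k := by rw [mul_pow, mul_pow, pow_add]; ring
    _ ≤ 2 ^ k * r ^ (k + S.card) * (2 * Fintype.card (Tup n k)) :=
        mul_le_mul_of_nonneg_left hT (by positivity)
    _ = _ := by ring

theorem prob_so {n k : ℕ} (hT : (n : ℝ) ^ k ≤ 2 * Fintype.card (Tup n k)) {J : Type*}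
    [DecidableEq J] [Fintype J] [Nonempty (Tup n k)] {r : ℝ} (hr : 0 < r) (E : Finset J) :
    ∀ S : Finset (Fin n), (k : ℝ) * E.card ≤ n * r ^ 2 →
      av (fun H : J → Tup n k => ind (so im H E = S))
        ≤ 2 ^ E.card * (2 ^ (k * E.card) * r ^ (k * E.card + S.card)) := by
  induction E using Finset.induction_on with
  | empty =>
    intro S _
    rw [card_empty, mul_zero, pow_zero, one_mul, one_mul, zero_add]
    by_cases hS : S.card = 0
    · rw [hS, pow_zero]
      exact av_le_const fun H => ind_le_one _
    · have h0 : av (fun H : J → Tup n k => ind (so im H ∅ = S)) ≤ 0 := by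
        refine av_le_const fun H => ?_
        rw [ind_false]
        rintro rfl
        exact hS (by rw [so_empty, card_empty])
      exact h0.trans (by positivity)
  | insert i E hi ih =>
    intro S hE
    rw [card_insert_of_notMem hi] at hE ⊢
    by_cases hbig : k * (E.card + 1) < S.card
    · have h0 : av (fun H : J → Tup n k => ind (so im H (insert i E) = S)) ≤ 0 := by
        refine av_le_const fun H => ?_
        rw [ind_false]
        rintro rfl
        have h1 := card_so_le im card_im_le H (insert i E)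
        rw [card_insert_of_notMem hi] at h1
        exact absurd hbig (not_lt.mpr h1)
      exact h0.trans (by positivity)
    · push Not at hbig
      have hS : (S.card : ℝ) ≤ n * r ^ 2 := by
        refine le_trans ?_ hE
        exact_mod_cast hbig
      have h1 : ∀ H : J → Tup n k, ind (so im H (insert i E) = S)
          = ind (so im H E = symmDiff S (im (H i))) := by
        intro H
        rw [so_insert im H hi]
        congr 1
        refine propext ⟨fun h => ?_, fun h => ?_⟩
        · rw [← h, symmDiff_symmDiff_cancel_right]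
        · rw [h, symmDiff_symmDiff_cancel_right]
      rw [av_congr h1, av_indep i (fun (a : Tup n k) (H : J → Tup n k) =>
        ind (so im H E = symmDiff S (im a))) ?_]
      · have h2 : ∀ a : Tup n k, av (fun H : J → Tup n k =>
            ind (so im H E = symmDiff S (im a)))
            ≤ 2 ^ E.card * (2 ^ (k * E.card) * r ^ (k * E.card)) *
              r ^ (symmDiff S (im a)).card := by
          intro a
          refine (ih _ ?_).trans (le_of_eq ?_)
          · have hk : (0 : ℝ) ≤ k := Nat.cast_nonneg k
            push_cast at hE; linarith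
          · rw [pow_add]
            ring
        refine (av_mono h2).trans ?_
        rw [av_mul_left]
        refine (mul_le_mul_of_nonneg_left (av_pow_im hT hr hS) (by positivity)).trans
          (le_of_eq ?_)
        rw [show k * (E.card + 1) = k * E.card + k by ring]
        simp only [pow_add]
        ring
      · intro a ω ω' h
        have h3 : so im ω E = so im ω' E :=
          so_congr im fun i' hi' => h i' fun h' => hi (h' ▸ hi')
        rw [h3]

theorem av_so_le {n k : ℕ} (hT : (n : ℝ) ^ k ≤ 2 * Fintype.card (Tup n k)) {J : Type*}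
    [DecidableEq J] [Fintype J] [Nonempty (Tup n k)] {r : ℝ} (hr : 0 < r) (E : Finset J)
    (hE : (k : ℝ) * E.card ≤ n * r ^ 2) {w : Finset (Fin n) → ℝ} (hw : ∀ S, 0 ≤ w S)
    {w' : Finset (Fin n) → ℝ} (hw' : ∀ S, 0 ≤ w' S)
    (h : ∀ S : Finset (Fin n), S.card ≤ k * E.card →
      w S * (2 ^ E.card * (2 ^ (k * E.card) * r ^ (k * E.card + S.card))) ≤ w' S) :
    av (fun H : J → Tup n k => w (so im H E)) ≤ ∑ S, w' S := by
  have h1 : ∀ H : J → Tup n k, w (so im H E) = ∑ S, w S * ind (so im H E = S) := by
    intro H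
    rw [sum_eq_single (so im H E)]
    · rw [ind_true rfl, mul_one]
    · intro S _ hS
      rw [ind_false (Ne.symm hS), mul_zero]
    · intro h; exact absurd (mem_univ _) h
  rw [av_congr h1, av_sum]
  refine sum_le_sum fun S _ => ?_
  rw [av_mul_left]
  by_cases hS : S.card ≤ k * E.card
  · exact (mul_le_mul_of_nonneg_left (prob_so hT hr E S hE) (hw S)).trans (h S hS)
  · have h2 : av (fun H : J → Tup n k => ind (so im H E = S)) ≤ 0 := by
      refine av_le_const fun H => ?_
      rw [ind_false]
      rintro rfl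
      exact hS (card_so_le im card_im_le H E)
    exact (mul_nonpos_of_nonneg_of_nonpos (hw S) h2).trans (hw' S)

end Pool.Agent.TH661.LPY
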