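import Pool.Agent.TH661.LPY.Mod
import Pool.Agent.TH661.LPY.Ch5
import Pool.Agent.TH661.LPY.Pr5
import Pool.Agent.TH661.LPX.MoE

/-!
Weighted moments of Fourier weights (helper661's route LPY).
-/

set_option autoImplicit false

namespace Pool.Agent.TH661.LPY

open Finset Pool.Agent.TH661.LPX

theorem mo5_im_card {n k : ℕ} (a : Tup n k) : (im a).card = k := by
  unfold im
  rw [card_image_of_injective _ a.2, card_univ, Fintype.card_fin]

theorem mo5_so_one_card {n k : ℕ} {J : Type*} [DecidableEq J] (H : J → Tup n k) {E : Finset J}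
    (hE : E.card = 1) : (so im H E).card = k := by
  obtain ⟨i, rfl⟩ := card_eq_one.mp hE
  have h2 := so_insert (im (n := n) (k := k)) H (E := ∅) (i := i) (notMem_empty i)
  rw [insert_empty_eq, so_empty] at h2
  rw [h2]
  have h3 : symmDiff (∅ : Finset (Fin n)) (im (H i)) = im (H i) := by
    ext v
    rw [mem_symmDiff]
    simp
  rw [h3, mo5_im_card]

theorem moment_exp5 {n k m : ℕ} (hm : 0 < m) (hmn : 2 * (k * m) ≤ n) (hk : 3 ≤ k)
    (hTup : (n : ℝ) ^ k ≤ 2 * Fintype.card (Tup n k)) {J : Type*}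
    [DecidableEq J] [Fintype J] [Nonempty (Tup n k)] {L t' q : ℕ} {lam U : ℝ} (hq : 1 ≤ q)
    (hkL : k * L ≤ t') (hlam : (t' : ℝ) ≤ lam * (k * m)) (hU0 : 0 ≤ U)
    (hU : lam ^ ((k - 1) * q - 1) ≤ U ^ (2 * q))
    (T : Finset (Fin n) → ℝ) (hT : ∀ S, 0 ≤ T S) {E : Finset J} (hE : E.Nonempty)
    (hEL : E.card ≤ L)
    (hW : ∑ S : Finset (Fin n), ((k : ℝ) * E.card / t') ^ S.card * T S ≤ 4 ^ (k * E.card)) :
    av (fun H : J → Tup n k => ind ((q - 1) * E.card ≤ q * (so im H E).card) * T (so im H E)) ≤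
      ((8 * lam) ^ k) ^ E.card + (8 ^ k * (E.card / m) * U) ^ E.card := by
  have hmR : (0 : ℝ) < m := by exact_mod_cast hm
  have hk0 : 0 < k := by omega
  have hkR : (0 : ℝ) < k := by exact_mod_cast hk0
  have hkm : 0 < k * m := Nat.mul_pos hk0 hm
  have hn : 0 < n := by omega
  have hnR : (0 : ℝ) < n := by exact_mod_cast hn
  have hmnR : 2 * ((k : ℝ) * m) ≤ n := by exact_mod_cast hmn
  have hEpos : (0 : ℝ) < E.card := by exact_mod_cast card_pos.mpr hE
  have hLpos : 0 < L := lt_of_lt_of_le (card_pos.mpr hE) hEL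
  have ht' : 0 < t' := lt_of_lt_of_le (Nat.mul_pos hk0 hLpos) hkL
  have htR : (0 : ℝ) < t' := by exact_mod_cast ht'
  set ρ : ℝ := k * E.card / t' with hρ
  have hρ0 : 0 < ρ := by positivity
  set r : ℝ := Real.sqrt (k * E.card / n) with hr
  have hr0 : 0 < r := Real.sqrt_pos.mpr (by positivity)
  have hr2 : r ^ 2 = k * E.card / n := Real.sq_sqrt (by positivity)
  have hlam0 : 0 < lam := by
    by_contra h
    have h1 : lam * (k * m) ≤ 0 := mul_nonpos_of_nonpos_of_nonneg (not_lt.1 h) (by positivity)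
    linarith
  have htn : (t' : ℝ) ≤ lam / 2 * n := by
    have h1 : lam * (2 * ((k : ℝ) * m)) ≤ lam * n := mul_le_mul_of_nonneg_left hmnR hlam0.le
    linarith
  have hrl : r ^ 2 ≤ lam / 2 := by
    rw [hr2, div_le_iff₀ hnR]
    have h1 : ((k * E.card : ℕ) : ℝ) ≤ t' := by
      exact_mod_cast (Nat.mul_le_mul_left k hEL).trans hkL
    push_cast at h1
    linarith
  have hrx : r * (r / ρ) ≤ lam / 2 := by
    have h1 : r * (r / ρ) = t' / n := by
      rw [← mul_div_assoc, ← pow_two, hr2, hρ]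
      field_simp
    rw [h1, div_le_iff₀ hnR]
    exact htn
  have hx0 : 0 < r / ρ := by positivity
  have hU2 : (lam / 2) ^ ((k - 1) * q - 1) ≤ U ^ (2 * q) :=
    (pow_le_pow_left₀ (by positivity) (by linarith) _).trans hU
  set C0 : ℝ := (lam / 2) ^ (k * E.card) + (k * E.card / n * U) ^ E.card with hC0
  have hC00 : 0 ≤ C0 := by positivity
  have h1 := av_so_le (n := n) (k := k) hTup (J := J) hr0 E
    (by rw [hr2]; exact le_of_eq (by field_simp))
    (w := fun S => ind ((q - 1) * E.card ≤ q * S.card) * T S)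
    (w' := fun S => C0 * (2 ^ E.card * 2 ^ (k * E.card)) * (ρ ^ S.card * T S))
    (fun S => mul_nonneg (ind_nonneg _) (hT S))
    (fun S => mul_nonneg (by positivity) (mul_nonneg (by positivity) (hT S)))
    (fun S hS => by
      by_cases hg : (q - 1) * E.card ≤ q * S.card
      · have h2 := MoE.key hk hq hr0 hx0 hr2.symm hrx hrl hU0 hU2 hS hg
        have h3 : r ^ (k * E.card + S.card) ≤ C0 * ρ ^ S.card := by
          have h4 : r ^ (k * E.card + S.card) =
              (r ^ (k * E.card) * (r / ρ) ^ S.card) * ρ ^ S.card := by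
            rw [pow_add, div_pow, mul_assoc, div_mul_cancel₀ _ (by positivity)]
          rw [h4]
          exact mul_le_mul_of_nonneg_right h2 (by positivity)
        have h5 := hT S
        rw [ind_true hg, one_mul]
        calc T S * (2 ^ E.card * (2 ^ (k * E.card) * r ^ (k * E.card + S.card)))
            ≤ T S * (2 ^ E.card * (2 ^ (k * E.card) * (C0 * ρ ^ S.card))) :=
              mul_le_mul_of_nonneg_left (mul_le_mul_of_nonneg_left
                (mul_le_mul_of_nonneg_left h3 (by positivity)) (by positivity)) h5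
          _ = C0 * (2 ^ E.card * 2 ^ (k * E.card)) * (ρ ^ S.card * T S) := by ring
      · rw [ind_false hg, zero_mul, zero_mul]
        exact mul_nonneg (by positivity) (mul_nonneg (by positivity) (hT S)))
  refine h1.trans ?_
  rw [← mul_sum]
  refine (mul_le_mul_of_nonneg_left hW (by positivity)).trans ?_
  have e : (2 : ℝ) ^ E.card * 2 ^ (k * E.card) * 4 ^ (k * E.card) = 2 ^ E.card * (8 ^ k) ^ E.card := by
    rw [mul_assoc, ← mul_pow, ← pow_mul]
    norm_num
  have e2 : C0 * (2 ^ E.card * 2 ^ (k * E.card)) * 4 ^ (k * E.card) =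
      (lam / 2) ^ (k * E.card) * (2 ^ E.card * (8 ^ k) ^ E.card) +
        (k * E.card / n * U) ^ E.card * (2 ^ E.card * (8 ^ k) ^ E.card) := by
    rw [mul_assoc, e, hC0, add_mul]
  rw [e2]
  refine add_le_add ?_ ?_
  · have h6 : (lam / 2) ^ (k * E.card) * (2 ^ E.card * (8 ^ k) ^ E.card) =
        ((lam / 2) ^ k * (2 * 8 ^ k)) ^ E.card := by
      rw [pow_mul, mul_pow, mul_pow]
    rw [h6]
    refine pow_le_pow_left₀ (by positivity) ?_ _
    have h7 : (2 : ℝ) ≤ 2 ^ k := by
      calc (2 : ℝ) = 2 ^ 1 := by norm_num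
        _ ≤ 2 ^ k := pow_le_pow_right₀ (by norm_num) hk0
    calc (lam / 2) ^ k * (2 * 8 ^ k) ≤ (lam / 2) ^ k * (2 ^ k * 8 ^ k) := by gcongr
      _ = (8 * lam) ^ k := by
          rw [← mul_pow, ← mul_pow]
          congr 1
          ring
  · have h6 : (k * E.card / n * U) ^ E.card * (2 ^ E.card * (8 ^ k) ^ E.card) =
        (8 ^ k * (2 * (k * E.card) / n) * U) ^ E.card := by
      rw [← mul_pow, ← mul_pow]
      congr 1
      ring
    rw [h6]
    refine pow_le_pow_left₀ (by positivity) ?_ _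
    refine mul_le_mul_of_nonneg_right (mul_le_mul_of_nonneg_left ?_ (by positivity)) hU0
    rw [div_le_div_iff₀ hnR hmR]
    calc 2 * (k * (E.card : ℝ)) * m = E.card * (2 * (k * m)) := by ring
      _ ≤ E.card * n := mul_le_mul_of_nonneg_left hmnR hEpos.le

theorem moment_one5 {n k m : ℕ} (hm : 0 < m) (hmn : 2 * (k * m) ≤ n) (hk : 3 ≤ k)
    (hTup : (n : ℝ) ^ k ≤ 2 * Fintype.card (Tup n k)) {J : Type*}
    [DecidableEq J] [Fintype J] [Nonempty (Tup n k)] {t' : ℕ} {lam : ℝ} (hkt : k ≤ t')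
    (hlam : (t' : ℝ) ≤ lam * (k * m)) (T : Finset (Fin n) → ℝ) (hT : ∀ S, 0 ≤ T S)
    {E : Finset J} (hE : E.card = 1)
    (hW : ∑ S : Finset (Fin n), ((k : ℝ) / t') ^ S.card * T S ≤ 4 ^ k) :
    av (fun H : J → Tup n k => T (so im H E)) ≤ (8 * lam) ^ k := by
  have hmR : (0 : ℝ) < m := by exact_mod_cast hm
  have hk0 : 0 < k := by omega
  have hkR : (0 : ℝ) < k := by exact_mod_cast hk0
  have hkm : 0 < k * m := Nat.mul_pos hk0 hm
  have hn : 0 < n := by omega
  have hnR : (0 : ℝ) < n := by exact_mod_cast hn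
  have hmnR : 2 * ((k : ℝ) * m) ≤ n := by exact_mod_cast hmn
  have htR : (0 : ℝ) < t' := by exact_mod_cast lt_of_lt_of_le hk0 hkt
  have hl0 : 0 < lam := by
    by_contra h
    push Not at h
    have h1 : lam * (k * m) ≤ 0 := mul_nonpos_of_nonpos_of_nonneg h (by positivity)
    linarith
  have htn : (t' : ℝ) ≤ lam / 2 * n := by
    have h1 : lam * (2 * ((k : ℝ) * m)) ≤ lam * n := mul_le_mul_of_nonneg_left hmnR hl0.le
    linarith
  set ρ : ℝ := (k : ℝ) / t' with hρ
  have hρ0 : 0 < ρ := by positivity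
  set r : ℝ := Real.sqrt (k / n) with hr
  have hr0 : 0 < r := Real.sqrt_pos.mpr (by positivity)
  have hr2 : r ^ 2 = k / n := Real.sq_sqrt (by positivity)
  have hle : r ^ 2 ≤ lam / 2 * ρ := by
    rw [hr2, hρ, div_le_iff₀ hnR]
    have h2 : lam / 2 * (k / t') * n = k * ((lam / 2 * n) / t') := by field_simp
    rw [h2]
    refine le_mul_of_one_le_right hkR.le ?_
    rw [one_le_div htR]
    exact htn
  have h0 : ∀ H : J → Tup n k, T (so im H E)
      = (fun S : Finset (Fin n) => ind (S.card = k) * T S) (so im H E) := by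
    intro H
    simp only
    rw [ind_true (mo5_so_one_card H hE), one_mul]
  rw [av_congr h0]
  have h1 := av_so_le (n := n) (k := k) hTup (J := J) hr0 E
    (by rw [hE, hr2]; exact le_of_eq (by push_cast; field_simp))
    (w := fun S => ind (S.card = k) * T S)
    (w' := fun S => 2 * lam ^ k * (ρ ^ S.card * T S))
    (fun S => mul_nonneg (ind_nonneg _) (hT S))
    (fun S => mul_nonneg (by positivity) (mul_nonneg (by positivity) (hT S))) (fun S _ => by
      by_cases hS : S.card = k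
      · rw [ind_true hS, one_mul, hE, mul_one, hS]
        have h2 : r ^ (k + k) ≤ (lam / 2 * ρ) ^ k := by
          calc r ^ (k + k) = (r ^ 2) ^ k := by rw [← pow_mul]; congr 1; ring
            _ ≤ (lam / 2 * ρ) ^ k := pow_le_pow_left₀ (by positivity) hle _
        calc T S * (2 ^ 1 * (2 ^ k * r ^ (k + k)))
            ≤ T S * (2 ^ 1 * (2 ^ k * (lam / 2 * ρ) ^ k)) := by
              refine mul_le_mul_of_nonneg_left ?_ (hT S)
              exact mul_le_mul_of_nonneg_left
                (mul_le_mul_of_nonneg_left h2 (by positivity)) (by positivity)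
          _ = 2 * lam ^ k * (ρ ^ k * T S) := by
              rw [mul_pow, div_pow]
              field_simp
      · rw [ind_false hS, zero_mul, zero_mul]
        exact mul_nonneg (by positivity) (mul_nonneg (by positivity) (hT S)))
  refine h1.trans ?_
  rw [← mul_sum]
  have h7 : (2 : ℝ) ≤ 2 ^ k := by
    calc (2 : ℝ) = 2 ^ 1 := by norm_num
      _ ≤ 2 ^ k := pow_le_pow_right₀ (by norm_num) hk0
  calc 2 * lam ^ k * ∑ S : Finset (Fin n), ρ ^ S.card * T S
      ≤ 2 * lam ^ k * 4 ^ k := mul_le_mul_of_nonneg_left hW (by positivity)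
    _ ≤ 2 ^ k * lam ^ k * 4 ^ k := by gcongr
    _ = (8 * lam) ^ k := by
        rw [← mul_pow, ← mul_pow]
        congr 1
        ring

theorem mom5 {n k m : ℕ} (hm : 0 < m) (hmn : 2 * (k * m) ≤ n) (hk : 3 ≤ k)
    (hTup : (n : ℝ) ^ k ≤ 2 * Fintype.card (Tup n k)) {J : Type*}
    [DecidableEq J] [Fintype J] [Nonempty (Tup n k)] {L t' q : ℕ} {lam U : ℝ} (hq : 1 ≤ q)
    (hkL : k * L ≤ t') (hlam : (t' : ℝ) ≤ lam * (k * m)) (hU0 : 0 ≤ U)
    (hU : lam ^ ((k - 1) * q - 1) ≤ U ^ (2 * q))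
    (T : Finset (Fin n) → ℝ) (hT : ∀ S, 0 ≤ T S)
    (hW : ∀ l : ℕ, 0 < l → l ≤ L →
      ∑ S : Finset (Fin n), ((k : ℝ) * l / t') ^ S.card * T S ≤ 4 ^ (k * l))
    {E : Finset J} (hE : 0 < E.card) (hEL : E.card ≤ L) :
    av (fun H : J → Tup n k => ind (ex im q H E) * T (so im H E)) ≤ mbd k m lam U E.card := by
  unfold mbd
  by_cases h1 : E.card = 1
  · rw [if_pos h1, add_zero, h1, pow_one]
    have h2 : ∀ H : J → Tup n k, ind (ex im q H E) * T (so im H E) ≤ T (so im H E) :=
      fun H => mul_le_of_le_one_left (hT _) (ind_le_one _)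
    refine (av_mono h2).trans (moment_one5 hm hmn hk hTup ?_ hlam T hT h1 ?_)
    · refine le_trans ?_ hkL
      exact Nat.le_mul_of_pos_right _ (by omega)
    · have h3 := hW 1 one_pos (by omega)
      simpa using h3
  · rw [if_neg h1]
    exact moment_exp5 hm hmn hk hTup hq hkL hlam hU0 hU T hT (card_pos.mp hE) hEL (hW _ hE hEL)

end Pool.Agent.TH661.LPY
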