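import Pool.Agent.TH661.LPY.Frm5

/-!
A Chernoff bound for random formulas.
-/

set_option autoImplicit false

namespace Pool.Agent.TH661.LPY

open Finset Pool.Agent.TH661.LPX

theorem fa_zero_or_one {n k : ℕ} (c : Cl n k) (x : Fin n → Bool) : fa c x = 0 ∨ fa c x = 1 := by
  unfold fa ind
  split_ifs
  · exact Or.inr rfl
  · exact Or.inl rfl

/-- The probability that a random clause is false at `x`. -/
theorem av_fa {n k : ℕ} [Nonempty (Tup n k)] (x : Fin n → Bool) :
    av (fun c : Cl n k => fa c x) = 1 / 2 ^ k := by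
  classical
  rw [av_prod]
  have h1 : ∀ a : Tup n k, av (fun s : Fin k → Bool => fa (a, s) x) = 1 / 2 ^ k := by
    intro a
    unfold av
    have h2 : ∀ s : Fin k → Bool, fa (a, s) x = if s = (fun j => ! x (a.1 j)) then (1 : ℝ) else 0 := by
      intro s
      unfold fa
      by_cases h : s = fun j => ! x (a.1 j)
      · rw [if_pos h, ind_true]
        intro j
        rw [h]
        simp
      · rw [if_neg h, ind_false]
        intro hj
        apply h
        funext j
        have := hj j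
        simp only at this
        cases hx : x (a.1 j) <;> cases hs : s j <;> simp_all
    rw [sum_congr rfl (fun s _ => h2 s), Finset.sum_ite_eq' univ]
    simp
  rw [av_congr h1, av_const]

theorem exp_neg_le' {η : ℝ} (hη : 0 ≤ η) : Real.exp (-η) ≤ 1 - η + η ^ 2 / 2 := by
  have h := Real.quadratic_le_exp_of_nonneg hη
  have h1 : 0 < 1 - η + η ^ 2 / 2 := by nlinarith [sq_nonneg (η - 1)]
  have h2 : 1 ≤ (1 - η + η ^ 2 / 2) * Real.exp η := by
    have h3 : (1 - η + η ^ 2 / 2) * (1 + η + η ^ 2 / 2) ≤ (1 - η + η ^ 2 / 2) * Real.exp η :=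
      mul_le_mul_of_nonneg_left h h1.le
    have h4 : (1 - η + η ^ 2 / 2) * (1 + η + η ^ 2 / 2) = 1 + η ^ 4 / 4 := by ring
    have h5 : 0 ≤ η ^ 4 / 4 := by positivity
    linarith
  rw [Real.exp_neg, inv_le_iff_one_le_mul₀ (Real.exp_pos η)]
  exact h2

theorem av_exp_fa {n k : ℕ} [Nonempty (Tup n k)] {η : ℝ} (hη : 0 ≤ η) (x : Fin n → Bool) :
    av (fun c : Cl n k => Real.exp (-(η * fa c x))) ≤
      Real.exp (-((η - η ^ 2 / 2) / 2 ^ k)) := by
  have h1 : ∀ c : Cl n k, Real.exp (-(η * fa c x)) = 1 - (1 - Real.exp (-η)) * fa c x := by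
    intro c
    rcases fa_zero_or_one c x with h | h <;> rw [h] <;> simp
  rw [av_congr h1, av_sub, av_const, av_mul_left, av_fa]
  have h2 := exp_neg_le' hη
  have hp : (0 : ℝ) < 1 / 2 ^ k := by positivity
  have h3 : 1 - (1 - Real.exp (-η)) * (1 / 2 ^ k) ≤ 1 - (η - η ^ 2 / 2) / 2 ^ k := by
    have : (η - η ^ 2 / 2) / 2 ^ k = (η - η ^ 2 / 2) * (1 / 2 ^ k) := by ring
    rw [this]
    nlinarith
  refine h3.trans ?_
  have := Real.add_one_le_exp (-((η - η ^ 2 / 2) / 2 ^ k))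
  linarith

theorem chernoff5_point {n k M : ℕ} [Nonempty (Tup n k)] {η : ℝ} (hη : 0 ≤ η)
    (x : Fin n → Bool) :
    av (fun ω : Fin M → Cl n k => ind ((1 - (1 - η) / 2 ^ k) * M < (satCount (frm ω) x : ℝ)))
      ≤ Real.exp (-(η ^ 2 * M / 2 ^ (k + 1))) := by
  have h1 : ∀ ω : Fin M → Cl n k,
      ind ((1 - (1 - η) / 2 ^ k) * M < (satCount (frm ω) x : ℝ))
        ≤ (∏ i, Real.exp (-(η * fa (ω i) x))) * Real.exp (η * (1 - η) / 2 ^ k * M) := by
    intro ω
    by_cases h : (1 - (1 - η) / 2 ^ k) * M < (satCount (frm ω) x : ℝ)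
    · rw [ind_true h, ← Real.exp_sum, ← Real.exp_add]
      apply Real.one_le_exp
      rw [satCount_frm] at h
      rw [sum_neg_distrib, ← mul_sum]
      have h2 : ∑ i, fa (ω i) x ≤ (1 - η) / 2 ^ k * M := by nlinarith
      have h3 : η * ∑ i, fa (ω i) x ≤ η * ((1 - η) / 2 ^ k * M) :=
        mul_le_mul_of_nonneg_left h2 hη
      have h4 : η * ((1 - η) / 2 ^ k * M) = η * (1 - η) / 2 ^ k * M := by ring
      linarith
    · rw [ind_false h]
      positivity
  refine (av_mono h1).trans ?_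
  rw [av_mul_right, av_pi (fun _ c => Real.exp (-(η * fa c x))), prod_const, card_univ,
    Fintype.card_fin]
  have h2 : (av fun c : Cl n k => Real.exp (-(η * fa c x))) ^ M
      ≤ Real.exp (-((η - η ^ 2 / 2) / 2 ^ k)) ^ M :=
    pow_le_pow_left₀ (av_nonneg fun c => (Real.exp_pos _).le) (av_exp_fa hη x) M
  refine (mul_le_mul_of_nonneg_right h2 (Real.exp_pos _).le).trans (le_of_eq ?_)
  rw [← Real.exp_nat_mul, ← Real.exp_add]
  congr 1
  have : (2 : ℝ) ^ k ≠ 0 := by positivity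
  field_simp
  ring

theorem chernoff5 {n k M : ℕ} [Nonempty (Tup n k)] {η : ℝ} (hη : 0 ≤ η) :
    av (fun ω : Fin M → Cl n k =>
      ind (∃ x, (1 - (1 - η) / 2 ^ k) * M < (satCount (frm ω) x : ℝ)))
      ≤ 2 ^ n * Real.exp (-(η ^ 2 * M / 2 ^ (k + 1))) := by
  have h1 : ∀ ω : Fin M → Cl n k,
      ind (∃ x, (1 - (1 - η) / 2 ^ k) * M < (satCount (frm ω) x : ℝ))
        ≤ ∑ x, ind ((1 - (1 - η) / 2 ^ k) * M < (satCount (frm ω) x : ℝ)) := by
    intro ω
    by_cases h : ∃ x, (1 - (1 - η) / 2 ^ k) * M < (satCount (frm ω) x : ℝ)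
    · obtain ⟨x, hx⟩ := h
      rw [ind_true ⟨x, hx⟩]
      refine (le_of_eq (ind_true hx).symm).trans ?_
      exact single_le_sum
        (f := fun x => ind ((1 - (1 - η) / 2 ^ k) * M < (satCount (frm ω) x : ℝ)))
        (fun _ _ => ind_nonneg _) (mem_univ x)
    · rw [ind_false h]; exact sum_nonneg fun _ _ => ind_nonneg _
  refine (av_mono h1).trans ?_
  rw [av_sum]
  refine (sum_le_sum fun x _ => chernoff5_point hη x).trans (le_of_eq ?_)
  rw [sum_const, card_univ, nsmul_eq_mul, Fintype.card_fun, Fintype.card_bool, Fintype.card_fin]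
  push_cast
  rfl

end Pool.Agent.TH661.LPY
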