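import Pool.Agent.TH661.LPY.Mod

/-!
The number of formulas with a property.
-/

set_option autoImplicit false

namespace Pool.Agent.TH661.LPY

open Finset Pool.Agent.TH661.LPX

theorem frm_inj {n k M : ℕ} : Function.Injective (frm : (Fin M → Cl n k) → CNF n) := by
  intro ω ω' h
  have h1 := List.ofFn_injective h
  funext i
  have h2 := List.ofFn_injective (congrFun h1 i)
  refine Prod.ext (Subtype.ext (funext fun j => ?_)) (funext fun j => ?_)
  · exact congrArg Prod.fst (congrFun h2 j)
  · exact congrArg Prod.snd (congrFun h2 j)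

theorem frm_length1 {n k M : ℕ} (ω : Fin M → Cl n k) : (frm ω).length = M := List.length_ofFn

theorem frm_exactly1 {n k M : ℕ} (ω : Fin M → Cl n k) : Exactly k (frm ω) := by
  intro C hC
  obtain ⟨i, rfl⟩ := List.mem_ofFn.1 hC
  refine ⟨List.length_ofFn, ?_⟩
  rw [List.map_ofFn, List.nodup_ofFn]
  exact (ω i).1.2

theorem cl_surj {n k : ℕ} (C : List (Fin n × Bool)) (h1 : C.length = k)
    (h2 : (C.map Prod.fst).Nodup) :
    ∃ c : Cl n k, (List.ofFn fun j => (c.1.1 j, c.2 j)) = C := by
  subst h1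
  have h3 : (List.ofFn fun j => (C.get j).1) = C.map Prod.fst := by
    have h4 : C.map Prod.fst = (List.ofFn C.get).map Prod.fst := by rw [List.ofFn_get]
    rw [h4, List.map_ofFn]
    rfl
  rw [← h3, List.nodup_ofFn] at h2
  exact ⟨(⟨fun j => (C.get j).1, h2⟩, fun j => (C.get j).2), List.ofFn_get C⟩

theorem frm_surj {n k M : ℕ} (F : CNF n) (h1 : Exactly k F) (h2 : F.length = M) :
    ∃ ω : Fin M → Cl n k, frm ω = F := by
  subst h2
  choose ω hω using fun i : Fin F.length =>
    cl_surj (F.get i) (h1 _ (List.get_mem F i)).1 (h1 _ (List.get_mem F i)).2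
  refine ⟨ω, ?_⟩
  have h3 : frm ω = List.ofFn F.get := congrArg List.ofFn (funext hω)
  rw [h3, List.ofFn_get]

theorem ncard_formulas {n k M : ℕ} [Nonempty (Fin M → Cl n k)] (Q : CNF n → Prop) :
    (Set.ncard {F : CNF n | Exactly k F ∧ F.length = M ∧ Q F} : ℝ)
      = Fintype.card (Fin M → Cl n k) * av (fun ω : Fin M → Cl n k => ind (Q (frm ω))) := by
  classical
  have h1 : {F : CNF n | Exactly k F ∧ F.length = M ∧ Q F} =
      frm '' ((univ.filter fun ω : Fin M → Cl n k => Q (frm ω) : Finset (Fin M → Cl n k)) :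
        Set (Fin M → Cl n k)) := by
    ext F
    constructor
    · rintro ⟨h1, h2, h3⟩
      obtain ⟨ω, rfl⟩ := frm_surj F h1 h2
      exact ⟨ω, by simpa using h3, rfl⟩
    · rintro ⟨ω, h, rfl⟩
      exact ⟨frm_exactly1 ω, frm_length1 ω, by simpa using h⟩
  have h2 : (Fintype.card (Fin M → Cl n k) : ℝ) ≠ 0 := by exact_mod_cast Fintype.card_ne_zero
  have h3 : ∑ ω : Fin M → Cl n k, ind (Q (frm ω)) =
      ((univ.filter fun ω : Fin M → Cl n k => Q (frm ω)).card : ℝ) := by
    have h4 : ∀ ω : Fin M → Cl n k, ind (Q (frm ω)) = if Q (frm ω) then 1 else 0 := by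
      intro ω
      by_cases h : Q (frm ω)
      · rw [ind_true h, if_pos h]
      · rw [ind_false h, if_neg h]
    rw [Finset.sum_congr rfl fun ω _ => h4 ω, Finset.sum_boole]
  rw [h1, Set.ncard_image_of_injective _ frm_inj, Set.ncard_coe_finset]
  unfold av
  rw [h3, mul_div_cancel₀ _ h2]

end Pool.Agent.TH661.LPY
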