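import Pool.Agent.TH661.LPX.Des4
import Pool.Agent.TH661.LPY.Ch5

/-!
Designs for finite-dimensional families of densities.
-/

set_option autoImplicit false

namespace Pool.Agent.TH661.LPY

open Finset Pool.Agent.TH661.LPX

section span

variable {I : Type*} [Fintype I] [DecidableEq I]

/-- Normalized spanners of a family of functions. -/
theorem norm_spanner {D : ℕ} (W : Submodule ℝ ((I → Bool) → ℝ))
    (hW : Module.finrank ℝ W ≤ D + 1) {g : (I → Bool) → ℝ} (hg0 : ∀ x, 0 ≤ g x)
    {G δ : ℝ} (hg1 : ∀ x, g x ≤ G) (hδ : 0 < δ) :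
    (∀ v ∈ box W, ¬ δ ≤ av (fun x => g x * v x)) ∨
    ∃ b : Fin (D + 1) → (I → Bool) → ℝ,
      (∀ i, (∀ x, 0 ≤ b i x) ∧ (∀ x, b i x ≤ G / δ) ∧ av (b i) = 1 ∧
        ∃ v ∈ box W, δ ≤ av (fun x => g x * v x) ∧
          (1 / av (fun x => g x * v x)) • (fun x => g x * v x) = b i) ∧
      ∀ v ∈ box W, δ ≤ av (fun x => g x * v x) → ∃ c : Fin (D + 1) → ℝ, (∀ i, |c i| ≤ 1) ∧
        (1 / av (fun x => g x * v x)) • (fun x => g x * v x) = ∑ i, c i • b i := by
  classical
  set 𝓖 : Set ((I → Bool) → ℝ) :=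
    (fun v : (I → Bool) → ℝ =>
      (1 / av (fun x => g x * v x)) • fun x => g x * v x) ''
    (box W ∩ {v | δ ≤ av (fun x => g x * v x)}) with h𝓖
  have hcontav : Continuous fun v : (I → Bool) → ℝ => av (fun x => g x * v x) := by
    unfold av
    exact (continuous_finsetSum _ fun x _ => continuous_const.mul (continuous_apply x)).div_const _
  have hcomp : IsCompact 𝓖 := by
    refine IsCompact.image_of_continuousOn ?_ ?_
    · exact (box_compact W).inter_right (isClosed_le continuous_const hcontav)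
    · refine continuousOn_pi.mpr fun x => ?_
      have hc1 : ContinuousOn (fun v : (I → Bool) → ℝ =>
          1 / av (fun x => g x * v x)) (box W ∩ {v | δ ≤ av (fun x => g x * v x)}) := by
        refine ContinuousOn.div continuousOn_const hcontav.continuousOn fun v hv => ?_
        have h1 : δ ≤ av (fun x => g x * v x) := hv.2
        exact (lt_of_lt_of_le hδ h1).ne'
      have hc2 : ContinuousOn (fun v : (I → Bool) → ℝ => g x * v x)
          (box W ∩ {v | δ ≤ av (fun x => g x * v x)}) :=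
        (continuous_const.mul (continuous_apply x)).continuousOn
      exact hc1.mul hc2
  have hGpos : ∀ v ∈ box W, ∀ x, 0 ≤ g x * v x := fun v hv x => mul_nonneg (hg0 x) (hv.2 x).1
  by_cases hne : 𝓖.Nonempty
  · right
    -- the dimension
    have hrank : Module.finrank ℝ (Submodule.span ℝ 𝓖) ≤ D + 1 := by
      let T : ((I → Bool) → ℝ) →ₗ[ℝ] ((I → Bool) → ℝ) :=
        { toFun := fun v x => g x * v x
          map_add' := by intro v w; funext x; simp only [Pi.add_apply]; ring
          map_smul' := by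
            intro t v; funext x
            simp only [Pi.smul_apply, smul_eq_mul, RingHom.id_apply]; ring }
      have h1 : Submodule.span ℝ 𝓖 ≤ W.map T := by
        refine Submodule.span_le.mpr ?_
        rintro _ ⟨v, hv, rfl⟩
        refine (W.map T).smul_mem _ ?_
        exact Submodule.mem_map.mpr ⟨v, hv.1.1, rfl⟩
      have h2 := Submodule.finrank_mono h1
      have h3 := Submodule.finrank_map_le T W
      omega
    obtain ⟨b, hb, hc⟩ := spanner 𝓖 hcomp hne hrank
    refine ⟨b, fun i => ?_, fun v hv hv1 => ?_⟩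
    · obtain ⟨v, hv, hvb⟩ := hb i
      have hpos : 0 < av (fun x => g x * v x) := lt_of_lt_of_le hδ hv.2
      have hbi : ∀ x, b i x = 1 / av (fun x => g x * v x) * (g x * v x) := fun x => by
        rw [← hvb]; rfl
      refine ⟨fun x => ?_, fun x => ?_, ?_, v, hv.1, hv.2, hvb⟩
      · rw [hbi]; exact mul_nonneg (by positivity) (hGpos v hv.1 x)
      · rw [hbi, one_div_mul_eq_div]
        have h1 : g x * v x ≤ G := by
          have := (hv.1.2 x).2
          have := (hv.1.2 x).1
          nlinarith [hg0 x, hg1 x]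
        exact div_le_div₀ ((hg0 x).trans (hg1 x)) h1 hδ hv.2
      · rw [av_congr hbi, av_mul_left]
        field_simp
    · exact hc _ ⟨v, ⟨hv, hv1⟩, rfl⟩
  · left
    intro v hv hv1
    exact hne ⟨_, v, ⟨hv, hv1⟩, rfl⟩

end span

section design

variable {J : Type*} [DecidableEq J] [Fintype J] {I A : Type*} [Fintype I] [DecidableEq I] (ed : A → Finset I)

/-- Designs for a finite-dimensional family. -/
theorem design_pack {D : ℕ} (W : Submodule ℝ ((I → Bool) → ℝ))
    (hW : Module.finrank ℝ W ≤ D + 1) {g : (I → Bool) → ℝ} (hg0 : ∀ x, 0 ≤ g x)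
    {G δ : ℝ} (hg1 : ∀ x, g x ≤ G) (hδ : 0 < δ) :
    ∃ T : (Finset I) → ℝ, (∀ S, 0 ≤ T S) ∧
      (∀ ρ : ℝ, 0 ≤ ρ → ρ ≤ 1 →
        ∑ S : Finset I, ρ ^ S.card * T S ≤ (G / δ) ^ (2 * ρ)) ∧
      ∀ (H : J → A) (𝓔 : Finset (Finset J)) (N : ℕ), 1 ≤ N →
        ∃ Q : (J → Bool) → ℝ, (∀ σ, 0 ≤ Q σ) ∧
          av (fun σ => Q σ ^ N) ≤ (∑ E ∈ 𝓔, (2 * (N : ℝ)) ^ E.card * T (so ed H E)) ^ N ∧
          ∀ v ∈ box W, δ ≤ av (fun x => g x * v x) → ∀ σ : J → Bool,
            (∑ E ∈ 𝓔, fI (fun x => g x * v x) (so ed H E) * ∏ i ∈ E, sg (σ i)) ^ 2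
              ≤ 4 * (D + 1) * Q σ * av (fun x => g x * v x) ^ 2 := by
  classical
  have hG0 : 0 ≤ G := (hg0 (fun _ => false)).trans (hg1 _)
  rcases norm_spanner W hW hg0 hg1 hδ with hno | ⟨b, hb, hc⟩
  · refine ⟨fun _ => 0, fun _ => le_refl _, fun ρ _ _ => ?_, fun H 𝓔 N hN => ?_⟩
    · simp only [mul_zero, sum_const_zero]
      exact Real.rpow_nonneg (by positivity) _
    · refine ⟨fun _ => 0, fun _ => le_refl _, ?_, fun v hv hv1 => absurd hv1 (hno v hv)⟩
      have h0 : (0 : ℝ) ^ N = 0 := zero_pow (by omega)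
      simp only [mul_zero, sum_const_zero, h0]
      exact le_of_eq (av_const 0)
  · set C : Set (Fin (D + 1) → ℝ) := {c | (∀ i, |c i| ≤ 1) ∧ ∃ v ∈ box W,
      δ ≤ av (fun x => g x * v x) ∧
      (1 / av (fun x => g x * v x)) • (fun x => g x * v x) = ∑ i, c i • b i} with hC
    obtain ⟨n, c, p, hcC, hp0, hp1, hα⟩ := kw (d := D + 1) (by omega) C (by
      intro i
      obtain ⟨-, -, -, v, hv, hv1, hvb⟩ := hb i
      refine ⟨fun j => ?_, v, hv, hv1, ?_⟩
      · by_cases h : j = i
        · subst h; simp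
        · simp [Pi.single_apply, h]
      · rw [hvb]
        rw [Finset.sum_eq_single i]
        · simp
        · intro j _ hj; simp [Pi.single_apply, hj]
        · intro h; exact absurd (mem_univ _) h) (fun c hc => hc.1)
    set b' : Fin n → (I → Bool) → ℝ := fun j => ∑ i, c j i • b i with hb'
    have hb'0 : ∀ j, (∀ x, 0 ≤ b' j x) ∧ (∀ x, b' j x ≤ G / δ) ∧ av (b' j) = 1 := by
      intro j
      obtain ⟨-, v, hv, hv1, hvb⟩ := hcC j
      have hpos : 0 < av (fun x => g x * v x) := lt_of_lt_of_le hδ hv1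
      have hbj : ∀ x, b' j x = 1 / av (fun x => g x * v x) * (g x * v x) := fun x => by
        rw [hb']; simp only; rw [← hvb]; rfl
      refine ⟨fun x => ?_, fun x => ?_, ?_⟩
      · rw [hbj]; exact mul_nonneg (by positivity) (mul_nonneg (hg0 x) (hv.2 x).1)
      · rw [hbj, one_div_mul_eq_div]
        have h1 : g x * v x ≤ G := by
          have := (hv.2 x).2
          have := (hv.2 x).1
          nlinarith [hg0 x, hg1 x]
        exact div_le_div₀ hG0 h1 hδ hv1
      · rw [av_congr hbj, av_mul_left]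
        field_simp
    refine ⟨fun S => ∑ j, p j * fI (b' j) S ^ 2, fun S => ?_, fun ρ h0 h1 => ?_,
      fun H 𝓔 N hN => ?_⟩
    · exact sum_nonneg fun j _ => mul_nonneg (hp0 j) (sq_nonneg _)
    · have h2 : ∑ S : Finset I, ρ ^ S.card * ∑ j, p j * fI (b' j) S ^ 2
          = ∑ j, p j * ∑ S : Finset I, ρ ^ S.card * fI (b' j) S ^ 2 := by
        simp_rw [mul_sum]
        rw [sum_comm]
        exact sum_congr rfl fun j _ => sum_congr rfl fun S _ => by ring
      rw [h2]
      calc ∑ j, p j * ∑ S : Finset I, ρ ^ S.card * fI (b' j) S ^ 2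
          ≤ ∑ j, p j * (G / δ) ^ (2 * ρ) := by
            refine sum_le_sum fun j _ => mul_le_mul_of_nonneg_left ?_ (hp0 j)
            exact fI_weight_density h0 h1 (hb'0 j).1 (hb'0 j).2.1 (hb'0 j).2.2
        _ = (G / δ) ^ (2 * ρ) := by rw [← sum_mul, hp1, one_mul]
    · set Z : Fin n → (J → Bool) → ℝ := fun j σ =>
        ∑ E ∈ 𝓔, fI (b' j) (so ed H E) * ∏ i ∈ E, sg (σ i) with hZ
      refine ⟨fun σ => ∑ j, p j * Z j σ ^ 2, fun σ => ?_, ?_, fun v hv hv1 σ => ?_⟩
      · exact sum_nonneg fun j _ => mul_nonneg (hp0 j) (sq_nonneg _)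
      · have h1 := av_sum_sq_pow_le hN p
          (fun j => ∑ E ∈ 𝓔, (2 * (N : ℝ)) ^ E.card * fI (b' j) (so ed H E) ^ 2) Z hp0
          (fun j => sum_nonneg fun E _ => by positivity)
          (fun j => poly_moment' 𝓔 (fun E => fI (b' j) (so ed H E)) hN)
        refine h1.trans (le_of_eq ?_)
        congr 1
        simp_rw [mul_sum]
        rw [sum_comm]
        exact sum_congr rfl fun j _ => sum_congr rfl fun E _ => by ring
      · have hpos : 0 < av (fun x => g x * v x) := lt_of_lt_of_le hδ hv1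
        obtain ⟨d, hd1, hd2⟩ := hc v hv hv1
        obtain ⟨α, hα1, hα2⟩ := hα d ⟨hd1, v, hv, hv1, hd2⟩
        have h1 : (1 / av (fun x => g x * v x)) • (fun x => g x * v x)
            = ∑ j, (p j * α j) • b' j := by
          rw [hd2, hα1, hb']
          have h2 : ∀ i, (∑ j, (p j * α j) • c j) i = ∑ j, (p j * α j) * c j i := by
            intro i
            rw [Finset.sum_apply]
            exact sum_congr rfl fun j _ => by rw [Pi.smul_apply, smul_eq_mul]
          simp_rw [h2, sum_smul, smul_sum]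
          rw [sum_comm]
          exact sum_congr rfl fun j _ => sum_congr rfl fun i _ => by rw [smul_smul]
        have h2 : ∀ E : Finset J, fI (fun x => g x * v x) (so ed H E)
            = av (fun x => g x * v x) * ∑ j, (p j * α j) * fI (b' j) (so ed H E) := by
          intro E
          rw [← fI_sum, ← h1, fI_smul]
          field_simp
        have h3 : ∑ E ∈ 𝓔, fI (fun x => g x * v x) (so ed H E) * ∏ i ∈ E, sg (σ i)
            = av (fun x => g x * v x) * ∑ j, (p j * α j) * Z j σ := by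
          rw [hZ]
          simp_rw [mul_sum]
          rw [sum_comm]
          refine sum_congr rfl fun E _ => ?_
          rw [h2 E, mul_sum, sum_mul]
          exact sum_congr rfl fun i _ => by ring
        rw [h3, mul_pow]
        have h4 : (∑ j, (p j * α j) * Z j σ) ^ 2
            ≤ (∑ j, p j * α j ^ 2) * ∑ j, p j * Z j σ ^ 2 := by
          refine Finset.sum_sq_le_sum_mul_sum_of_sq_le_mul univ
            (fun j _ => mul_nonneg (hp0 j) (sq_nonneg _))
            (fun j _ => mul_nonneg (hp0 j) (sq_nonneg _)) fun j _ => le_of_eq ?_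
          ring
        have h5 : 0 ≤ ∑ j, p j * Z j σ ^ 2 :=
          sum_nonneg fun j _ => mul_nonneg (hp0 j) (sq_nonneg _)
        have h6 : (∑ j, (p j * α j) * Z j σ) ^ 2
            ≤ 4 * (D + 1) * ∑ j, p j * Z j σ ^ 2 := by
          refine h4.trans (mul_le_mul_of_nonneg_right ?_ h5)
          push_cast at hα2
          linarith
        rw [mul_comm]
        exact mul_le_mul_of_nonneg_right h6 (sq_nonneg _)

end design

end Pool.Agent.TH661.LPY
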