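import Pool.Agent.TH661.LPY.Mod

/-!
The formula: signs and the number of true clauses.
-/

set_option autoImplicit false

namespace Pool.Agent.TH661.LPY

open Finset Pool.Agent.TH661.LPX

theorem fa_sign {n k : ℕ} (c : Cl n k) (x : Fin n → Bool) :
    fa c x * ye im (c.1, par c.2) x = - fa c x := by
  classical
  by_cases h : ∀ j, x (c.1.1 j) ≠ c.2 j
  · have h1 : ye im (c.1, par c.2) x = -1 := by
      unfold ye ch im
      simp only
      rw [prod_image (fun i _ j _ hij => c.1.2 hij)]
      have h2 : ∀ j, sg (x (c.1.1 j)) = if c.2 j = false then (-1 : ℝ) else 1 := by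
        intro j
        have h3 := h j
        unfold sg
        cases hx : x (c.1.1 j) <;> cases hs : c.2 j <;> simp_all
      rw [prod_congr rfl (fun j _ => h2 j), prod_ite, prod_const, prod_const_one, mul_one]
      unfold par
      rcases Nat.even_or_odd (univ.filter fun j => c.2 j = false).card with h4 | h4
      · rw [decide_eq_true h4, h4.neg_one_pow]
        simp [sg]
      · rw [decide_eq_false (Nat.not_even_iff_odd.2 h4), h4.neg_one_pow]
        simp [sg]
    rw [h1]
    ring
  · unfold fa
    rw [ind_false h]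
    ring

theorem countP_ofFn' {α : Type*} (p : α → Bool) : ∀ {M : ℕ} (g : Fin M → α),
    ((List.ofFn g).countP p : ℝ) = ∑ i, (if p (g i) = true then (1 : ℝ) else 0) := by
  intro M
  induction M with
  | zero => intro g; simp
  | succ M ih =>
    intro g
    rw [List.ofFn_succ, List.countP_cons, Fin.sum_univ_succ]
    push_cast
    rw [ih]
    ring

theorem satCount_frm {n k M : ℕ} (ω : Fin M → Cl n k) (x : Fin n → Bool) :
    (satCount (frm ω) x : ℝ) = M - ∑ i, fa (ω i) x := by
  classical
  unfold satCount frm
  rw [countP_ofFn']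
  have h1 : ∀ i : Fin M, (if ((List.ofFn fun j => ((ω i).1.1 j, (ω i).2 j)).any
      fun l => x l.1 == l.2) = true then (1 : ℝ) else 0) = 1 - fa (ω i) x := by
    intro i
    unfold fa
    by_cases h : ∀ j, x ((ω i).1.1 j) ≠ (ω i).2 j
    · rw [ind_true h, if_neg]
      · ring
      · intro h2
        rw [List.any_eq_true] at h2
        obtain ⟨l, hl, hx⟩ := h2
        rw [List.mem_ofFn] at hl
        obtain ⟨j, rfl⟩ := hl
        exact h j (by simpa using hx)
    · rw [ind_false h, if_pos]
      · ring
      · push Not at h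
        obtain ⟨j, hj⟩ := h
        rw [List.any_eq_true]
        refine ⟨((ω i).1.1 j, (ω i).2 j), ?_, by simpa using hj⟩
        rw [List.mem_ofFn]
        exact ⟨j, rfl⟩
  rw [sum_congr rfl (fun i _ => h1 i), sum_sub_distrib]
  simp

theorem frm_exactly {n k M : ℕ} (ω : Fin M → Cl n k) :
    Exactly k (frm ω) ∧ (frm ω).length = M := by
  unfold frm
  refine ⟨?_, by rw [List.length_ofFn]⟩
  intro C hC
  rw [List.mem_ofFn] at hC
  obtain ⟨i, rfl⟩ := hC
  refine ⟨by rw [List.length_ofFn], ?_⟩
  rw [List.map_ofFn, List.nodup_ofFn]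
  exact (ω i).1.2

end Pool.Agent.TH661.LPY
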