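import Mathlib
import Pool.Agent.TH661.LPX.ProgDef

/-!
The weight of the true clauses: definition.
-/

set_option autoImplicit false

namespace Pool.Agent.TH661.LPX

/-- The total weight of the clauses of `F` which are true at `x`, if the `i`-th clause (counted
from zero) has the weight `w i`. -/
noncomputable def wsat {n : ℕ} (F : CNF n) (w : ℕ → ℝ) (x : Fin n → Bool) : ℝ :=
  ∑ i ∈ Finset.range F.length, if (F.getD i []).any (fun l => x l.1 == l.2) then w i else 0

end Pool.Agent.TH661.LPX
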