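import Pool.Agent.TH661.LPY.Det5
import Pool.Agent.TH661.LPY.Wsat

/-!
The feasible point from a density on the assignments, for all weights of the clauses.
-/

set_option autoImplicit false

namespace Pool.Agent.TH661.LPY

open Finset Pool.Agent.TH661.LPX

theorem wsat_frm {n k M : ℕ} (ω : Fin M → Cl n k) (w : ℕ → ℝ) (x : Fin n → Bool) :
    wsat (frm ω) w x = ∑ i : Fin M, w i * (1 - fa (ω i) x) := by
  unfold wsat
  rw [(frm_exactly ω).2, Finset.sum_range]
  refine sum_congr rfl fun i _ => ?_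
  have h1 : (frm ω).getD (i : ℕ) [] = List.ofFn fun j => ((ω i).1.1 j, (ω i).2 j) := by
    rw [List.getD_eq_getElem _ _ (by rw [(frm_exactly ω).2]; exact i.2)]
    simp [frm]
  rw [h1]
  unfold fa
  by_cases h : ∀ j, x ((ω i).1.1 j) ≠ (ω i).2 j
  · rw [ind_true h, if_neg]
    · ring
    · intro h2
      rw [List.any_eq_true] at h2
      obtain ⟨l, hl, hx⟩ := h2
      rw [List.mem_ofFn] at hl
      obtain ⟨j, rfl⟩ := hl
      exact h j (by simpa using hx)
  · rw [ind_false h, if_pos]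
    · ring
    · push Not at h
      obtain ⟨j, hj⟩ := h
      rw [List.any_eq_true]
      exact ⟨_, (List.mem_ofFn).mpr ⟨j, rfl⟩, by simpa using hj⟩

open Classical in
theorem det6 {n k M b r D t : ℕ} (hM : 0 < M) (hb : 2 ^ b ≤ 2 ^ t)
    (P : ConicProgram b r (D + 1)) (y : (Fin n → Bool) → Fin P.d → ℝ)
    (hy : ∀ x, P.Feasible (y x)) (ω : Fin M → Cl n k)
    (q : Fin b → Bool) (X2 : Finset (Fin n → Bool))
    (hX2 : ∀ x ∈ X2, (fun i => decide (aff (P.bin i) (y x) = 1)) = q)
    (hX2c : (Fintype.card (Fin n → Bool) : ℝ) ≤ 2 * Fintype.card (Fin b → Bool) * X2.card)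
    (hX1c : (univ.filter fun x => (fun i => decide (aff (P.bin i) (y x) = 1)) = q).card
      ≤ 2 * X2.card)
    (F : (Fin n → Bool) → ℝ)
    (hF1 : (X2.card : ℝ) / 2 ≤ ∑ x ∈ X2, F x)
    (hF2 : ∀ i, |∑ x ∈ X2, F x * fa (ω i) x|
      ≤ Fintype.card (Fin n → Bool) * (1 / 2 ^ (3 * t + 3)))
    (hF3 : ∀ (j : Fin r) (a : Fin (D + 1) → ℝ), (∀ x, 0 ≤ ∑ l, a l * aff (P.map j l) (y x)) →
      0 ≤ ∑ x, ((if x ∈ X2 then F x else 0) +
        (if (fun i => decide (aff (P.bin i) (y x) = 1)) = q then 1 / 2 ^ (2 * t + 3) else 0)) *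
          ∑ l, a l * aff (P.map j l) (y x)) :
    ∃ z, P.Feasible z ∧ ∀ (w : ℕ → ℝ) (a : (Fin P.d → ℝ) × ℝ),
      (∀ x, aff a (y x) = wsat (frm ω) w x) →
      |aff a z - ∑ i ∈ range M, w i| ≤ (∑ i ∈ range M, |w i|) / 4 ^ t := by
  have hcardX : (0 : ℝ) < Fintype.card (Fin n → Bool) := by
    exact_mod_cast Fintype.card_pos
  have hX2pos : (0 : ℝ) < X2.card := by
    rcases Nat.eq_zero_or_pos X2.card with h | h
    · rw [h] at hX2c
      norm_num at hX2c
      exact absurd hX2c (by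
        have : (0 : ℝ) < 2 ^ n := by positivity
        intro hh
        linarith)
    · exact_mod_cast h
  set ε : ℝ := 1 / 2 ^ (2 * t + 3) with hε
  have hε0 : 0 ≤ ε := by rw [hε]; positivity
  set X1 : Finset (Fin n → Bool) :=
    univ.filter fun x => (fun i => decide (aff (P.bin i) (y x) = 1)) = q with hX1
  set G : (Fin n → Bool) → ℝ := fun x => (if x ∈ X2 then F x else 0) +
        (if (fun i => decide (aff (P.bin i) (y x) = 1)) = q then ε else 0) with hG
  -- sums against `G`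
  have hsum : ∀ g : (Fin n → Bool) → ℝ, ∑ x, G x * g x = ∑ x ∈ X2, F x * g x +
      ε * ∑ x ∈ X1, g x := by
    intro g
    rw [hG]
    simp only [add_mul, sum_add_distrib, ite_mul, zero_mul]
    congr 1
    · rw [← sum_filter]
      congr 1
      ext x; simp
    · rw [← sum_filter, mul_sum]
  set Γ : ℝ := ∑ x, G x with hΓ
  have hΓ1 : (X2.card : ℝ) / 2 ≤ Γ := by
    have h := hsum fun _ => 1
    simp only [mul_one, sum_const, nsmul_eq_mul] at h
    rw [hΓ, h]
    have : 0 ≤ ε * (X1.card : ℝ) := by positivity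
    linarith
  have hΓ0 : 0 < Γ := by linarith
  set γ : (Fin n → Bool) → ℝ := fun x => G x / Γ with hγ
  have hγ1 : ∑ x, γ x = 1 := by
    rw [hγ]
    simp only
    rw [← sum_div]
    exact div_self hΓ0.ne'
  have hγq : ∀ x, (fun i => decide (aff (P.bin i) (y x) = 1)) ≠ q → γ x = 0 := by
    intro x hx
    have h1 : x ∉ X2 := fun h => hx (hX2 x h)
    rw [hγ]
    simp only
    rw [hG]
    simp only
    rw [if_neg h1, if_neg hx]
    simp
  refine ⟨∑ x, γ x • y x, ⟨?_, ?_, ?_⟩, fun w a haw => ?_⟩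
  · intro a ha
    rw [aff_sum _ _ _ _ hγ1]
    exact sum_eq_zero fun z _ => by rw [(hy z).1 a ha, mul_zero]
  · intro i
    rw [aff_sum _ _ _ _ hγ1]
    have h1 : ∀ z, γ z * aff (P.bin i) (y z)
        = γ z * (if q i = true then 1 else 0) := by
      intro z
      by_cases hz : (fun i => decide (aff (P.bin i) (y z) = 1)) = q
      · congr 1
        have h2 : decide (aff (P.bin i) (y z) = 1) = q i := congrFun hz i
        rw [← h2]
        rcases (hy z).2.1 i with h3 | h3
        · rw [h3]; simp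
        · rw [h3]; simp
      · rw [hγq z hz, zero_mul, zero_mul]
    rw [sum_congr rfl fun z _ => h1 z, ← sum_mul, hγ1, one_mul]
    by_cases hq : q i = true
    · right; rw [if_pos hq]
    · left; rw [if_neg hq]
  · intro j
    refine mem_cone (P.closed j) (P.convex j) (P.scale j)
      ⟨_, (hy (fun _ => false)).2.2 j⟩ fun a ha => ?_
    have h1 := hF3 j a fun z => ha _ ((hy z).2.2 j)
    have h2 : ∑ l, a l * aff (P.map j l) (∑ z, γ z • y z)
        = ∑ z, γ z * ∑ l, a l * aff (P.map j l) (y z) := by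
      simp only [aff_sum _ _ _ _ hγ1, mul_sum]
      rw [sum_comm]
      exact sum_congr rfl fun z _ => sum_congr rfl fun l _ => by ring
    rw [h2]
    have h3 : ∑ z, γ z * ∑ l, a l * aff (P.map j l) (y z)
        = (∑ z, G z * ∑ l, a l * aff (P.map j l) (y z)) / Γ := by
      rw [sum_div]
      refine sum_congr rfl fun z _ => ?_
      rw [hγ]
      simp only
      ring
    rw [h3]
    exact div_nonneg h1 hΓ0.le
  · rw [aff_sum _ _ _ _ hγ1]
    have h1 : ∑ x, γ x * aff a (y x)
        = ∑ i ∈ range M, w i - ∑ i : Fin M, w i * ∑ x, γ x * fa (ω i) x := by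
      have e1 : ∀ x, γ x * aff a (y x)
          = γ x * ∑ i ∈ range M, w i - ∑ i : Fin M, w i * (γ x * fa (ω i) x) := by
        intro x
        rw [haw, wsat_frm, Finset.sum_range, mul_sum, mul_sum, ← sum_sub_distrib]
        exact sum_congr rfl fun i _ => by ring
      rw [sum_congr rfl fun x _ => e1 x, sum_sub_distrib, ← sum_mul, hγ1, one_mul, sum_comm]
      congr 1
      exact sum_congr rfl fun i _ => by rw [mul_sum]
    rw [h1]
    have h2 : ∀ i, |∑ x, γ x * fa (ω i) x| ≤ 1 / 4 ^ t := by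
      intro i
      have e1 : ∑ x, γ x * fa (ω i) x = (∑ x, G x * fa (ω i) x) / Γ := by
        rw [sum_div]
        refine sum_congr rfl fun x _ => ?_
        rw [hγ]
        simp only
        ring
      rw [e1, abs_div, abs_of_pos hΓ0, div_le_iff₀ hΓ0, hsum]
      have e0 : 0 ≤ ∑ x ∈ X1, fa (ω i) x := sum_nonneg fun x _ => fa_nonneg' _ _
      have e2 : ∑ x ∈ X1, fa (ω i) x ≤ 2 * (X2.card : ℝ) := by
        calc ∑ x ∈ X1, fa (ω i) x ≤ ∑ x ∈ X1, (1 : ℝ) := sum_le_sum fun x _ => fa_le_one' _ _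
          _ = (X1.card : ℝ) := by simp
          _ ≤ 2 * (X2.card : ℝ) := by exact_mod_cast hX1c
      have e3 : ε * ∑ x ∈ X1, fa (ω i) x ≤ ε * (2 * (X2.card : ℝ)) :=
        mul_le_mul_of_nonneg_left e2 hε0
      have e30 : 0 ≤ ε * ∑ x ∈ X1, fa (ω i) x := mul_nonneg hε0 e0
      have hcb : ((Fintype.card (Fin b → Bool) : ℕ) : ℝ) = 2 ^ b := by
        simp
      rw [hcb] at hX2c
      have e4 := det5_num (b := b) (t := t) (X := Fintype.card (Fin n → Bool)) (X2 := X2.card)
        (by exact_mod_cast hb) hX2pos.le hX2c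
      have e5 : 1 / 4 ^ t * ((X2.card : ℝ) / 2) ≤ 1 / 4 ^ t * Γ :=
        mul_le_mul_of_nonneg_left hΓ1 (by positivity)
      have e6 := hF2 i
      refine (abs_add_le _ _).trans ?_
      rw [abs_of_nonneg e30]
      linarith
    have h3 : |∑ i : Fin M, w i * ∑ x, γ x * fa (ω i) x| ≤ (∑ i ∈ range M, |w i|) / 4 ^ t := by
      refine (abs_sum_le_sum_abs _ _).trans ?_
      rw [Finset.sum_range, sum_div]
      refine sum_le_sum fun i _ => ?_
      rw [abs_mul, div_eq_mul_one_div]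
      exact mul_le_mul_of_nonneg_left (h2 i) (abs_nonneg _)
    rw [sub_sub_cancel_left, abs_neg]
    exact h3

end Pool.Agent.TH661.LPY
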