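import Pool.Agent.TH661.LPY.Mod
import Pool.Agent.TH661.LPX.ExP
import Pool.Agent.TH661.LPY.Pr5

/-!
Random hypergraphs on tuples of different elements expand.
-/

set_option autoImplicit false

namespace Pool.Agent.TH661.LPY

open Finset Pool.Agent.TH661.LPX

/-- The moment of the number of odd vertices. -/
theorem size5 {n k : ℕ} (hT : (n : ℝ) ^ k ≤ 2 * Fintype.card (Tup n k)) {J : Type*}
    [DecidableEq J] [Fintype J] [Nonempty (Tup n k)] {r : ℝ} (hr : 0 < r) (E : Finset J)
    (hE : n * r ^ 2 = (k : ℝ) * E.card) :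
    av (fun H : J → Tup n k => r ^ (so im H E).card) ≤ (2 * (6 * r) ^ k) ^ E.card := by
  have h1 := av_so_le (J := J) hT hr E hE.ge (w := fun S => r ^ S.card)
    (fun S => by positivity)
    (w' := fun S => 2 ^ E.card * (2 ^ (k * E.card) * r ^ (k * E.card)) * (r ^ 2) ^ S.card)
    (fun S => by positivity) (fun S _ => le_of_eq (by
      rw [pow_add, ← pow_mul, two_mul, pow_add]; ring))
  refine h1.trans ?_
  rw [← mul_sum]
  have h2 := sum_powerset_pow (univ : Finset (Fin n)) (r ^ 2)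
  rw [powerset_univ, card_univ, Fintype.card_fin] at h2
  rw [h2]
  have h3 : (1 + r ^ 2) ^ n ≤ 3 ^ (k * E.card) := by
    calc (1 + r ^ 2) ^ n ≤ (Real.exp (r ^ 2)) ^ n :=
          pow_le_pow_left₀ (by positivity) (by linarith [Real.add_one_le_exp (r ^ 2)]) _
      _ = Real.exp (n * r ^ 2) := by rw [← Real.exp_nat_mul]
      _ = Real.exp 1 ^ (k * E.card) := by
          rw [hE, ← Real.exp_nat_mul]; push_cast; rw [mul_one]
      _ ≤ 3 ^ (k * E.card) :=
          pow_le_pow_left₀ (Real.exp_pos 1).le (by linarith [Real.exp_one_lt_d9]) _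
  calc 2 ^ E.card * (2 ^ (k * E.card) * r ^ (k * E.card)) * (1 + r ^ 2) ^ n
      ≤ 2 ^ E.card * (2 ^ (k * E.card) * r ^ (k * E.card)) * 3 ^ (k * E.card) := by gcongr
    _ = (2 * (6 * r) ^ k) ^ E.card := by
        rw [mul_pow, ← pow_mul, mul_pow, show (6 : ℝ) = 2 * 3 by norm_num, mul_pow]
        ring

theorem exp_prob5 {n k m : ℕ} (hm : 0 < m) (hmn : 2 * (k * m) ≤ n) (hk : 3 ≤ k)
    (hTup : (n : ℝ) ^ k ≤ 2 * Fintype.card (Tup n k)) {J : Type*}
    [DecidableEq J] [Fintype J] [Nonempty (Tup n k)] {L q : ℕ} {lam V κ : ℝ} (hq : 1 ≤ q)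
    (hL : (L : ℝ) ≤ lam * m) (hlam1 : lam ≤ 1) (hV0 : 0 ≤ V)
    (hV : lam ^ ((k - 3) * q + 1) ≤ V ^ (2 * q))
    (hκ : 3 * Fintype.card J * 6 ^ k * V ≤ κ * m) (hκ0 : 0 ≤ κ) (hκ1 : κ ≤ 1 / 2) :
    av (fun H : J → Tup n k => ind (∃ E : Finset J, E.Nonempty ∧ E.card ≤ L ∧
      q * (so im H E).card < (q - 1) * E.card)) ≤ 2 * κ := by
  have hmR : (0 : ℝ) < m := by exact_mod_cast hm
  have hqR : (0 : ℝ) < q := by exact_mod_cast hq
  have hkR : (0 : ℝ) < k := by
    have : 0 < k := by omega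
    exact_mod_cast this
  have hkm : 0 < k * m := Nat.mul_pos (by omega) hm
  have hn : 0 < n := by omega
  have hnR : (0 : ℝ) < n := by exact_mod_cast hn
  have hmnR : 2 * ((k : ℝ) * m) ≤ n := by exact_mod_cast hmn
  have hfrac : ∀ l : ℕ, 2 * ((k : ℝ) * l / n) ≤ l / m := fun l => by
    rw [← mul_div_assoc, div_le_div_iff₀ hnR hmR]
    have : (0 : ℝ) ≤ l := Nat.cast_nonneg l
    nlinarith
  set r : ℕ → ℝ := fun l => Real.sqrt ((k : ℝ) * l / n) with hr
  set y : ℕ → ℝ := fun l => r l ^ (((q - 1 : ℕ) : ℝ) / q) with hy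
  set z : ℕ → ℝ := fun l => 2 * (6 * r l) ^ k / y l with hz
  have hr0 : ∀ l, 0 ≤ r l := fun l => Real.sqrt_nonneg _
  have hz0 : ∀ l, 0 ≤ z l := fun l => by
    have := hr0 l
    rw [hz, hy]; simp only
    positivity
  have hrpos : ∀ l, 1 ≤ l → 0 < r l := fun l hl => by
    have : (0 : ℝ) < l := by exact_mod_cast hl
    exact Real.sqrt_pos.mpr (by positivity)
  have hr2 : ∀ l, r l ^ 2 = (k : ℝ) * l / n := fun l => Real.sq_sqrt (by positivity)
  have hrlam : ∀ l, l ≤ L → r l ^ 2 ≤ lam := fun l hl => by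
    have h1 : (l : ℝ) ≤ L := by exact_mod_cast hl
    have h2 : (l : ℝ) / m ≤ lam := by
      rw [div_le_iff₀ hmR]
      linarith
    have h3 := hfrac l
    have h4 : 0 ≤ (k : ℝ) * l / n := by positivity
    rw [hr2]
    linarith
  have hr1 : ∀ l, l ≤ L → r l ≤ 1 := fun l hl => by
    have := (hrlam l hl).trans hlam1
    nlinarith [hr0 l]
  have hypos : ∀ l, 1 ≤ l → 0 < y l := fun l hl => Real.rpow_pos_of_pos (hrpos l hl) _
  have hyq : ∀ l, y l ^ q = r l ^ (q - 1) := fun l => by
    rw [hy]; simp only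
    rw [← Real.rpow_natCast, ← Real.rpow_mul (hr0 l), div_mul_cancel₀ _ hqR.ne', Real.rpow_natCast]
  -- union bound
  have h1 : av (fun H : J → Tup n k => ind (∃ E : Finset J, E.Nonempty ∧ E.card ≤ L ∧
      q * (so im H E).card < (q - 1) * E.card)) ≤
      av (fun H : J → Tup n k => ∑ E ∈ univ.filter (fun E : Finset J => 0 < E.card ∧
        E.card ≤ L), ind (q * (so im H E).card < (q - 1) * E.card)) := by
    apply av_mono
    intro H
    by_cases h : ∃ E : Finset J, E.Nonempty ∧ E.card ≤ L ∧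
      q * (so im H E).card < (q - 1) * E.card
    · rw [ind_true h]
      obtain ⟨E, hE, hEL, hEq⟩ := h
      have hmem : E ∈ univ.filter (fun E : Finset J => 0 < E.card ∧ E.card ≤ L) :=
        mem_filter.mpr ⟨mem_univ _, card_pos.mpr hE, hEL⟩
      have h2 := single_le_sum
        (f := fun E : Finset J => ind (q * (so im H E).card < (q - 1) * E.card))
        (fun E _ => ind_nonneg _) hmem
      simp only [ind_true hEq] at h2
      exact h2
    · rw [ind_false h]
      exact sum_nonneg fun E _ => ind_nonneg _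
  refine h1.trans ?_
  rw [av_sum]
  have hterm : ∀ E ∈ univ.filter (fun E : Finset J => 0 < E.card ∧ E.card ≤ L),
      av (fun H : J → Tup n k => ind (q * (so im H E).card < (q - 1) * E.card))
        ≤ z E.card ^ E.card := by
    intro E hE
    rw [mem_filter] at hE
    have hE1 : 1 ≤ E.card := hE.2.1
    have h2 : av (fun H : J → Tup n k => ind (q * (so im H E).card < (q - 1) * E.card)) ≤
        av (fun H : J → Tup n k => (1 / y E.card) ^ E.card * r E.card ^ (so im H E).card) :=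
      av_mono fun H => ind_small_le hq (hr0 _) (hr1 _ hE.2.2) (hypos _ hE1) (hyq _)
    refine h2.trans ?_
    rw [av_mul_left]
    have h3 := size5 hTup (hrpos _ hE1) E (by rw [hr2]; field_simp)
    have h4 : 0 < y E.card := hypos _ hE1
    refine (mul_le_mul_of_nonneg_left h3 (by positivity)).trans (le_of_eq ?_)
    rw [hz]; simp only
    rw [← mul_pow]
    congr 1
    ring
  refine (sum_le_sum hterm).trans ?_
  have h3 : ∑ E ∈ univ.filter (fun E : Finset J => 0 < E.card ∧ E.card ≤ L), z E.card ^ E.card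
      = ∑ l ∈ range (Fintype.card J + 1),
        (Fintype.card J).choose l • (if 0 < l ∧ l ≤ L then z l ^ l else 0) := by
    rw [← card_univ (α := J), ← Finset.sum_powerset_apply_card
      (fun l => if 0 < l ∧ l ≤ L then z l ^ l else 0), powerset_univ, ← sum_filter]
  rw [h3]
  have h4 : (2 : ℝ) * κ = 2 * κ ^ (0 + 1) := by rw [zero_add, pow_one]
  rw [h4]
  refine le_trans (sum_le_sum fun l _ => ?_) (geom_tail hκ0 hκ1 0 (Fintype.card J + 1))
  rw [nsmul_eq_mul]
  by_cases hl : 0 < l ∧ l ≤ L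
  · rw [if_pos hl, if_pos hl.1]
    have hl1 : 1 ≤ l := hl.1
    have hlR : (1 : ℝ) ≤ l := by exact_mod_cast hl1
    refine choose_mul_pow_le hl1 (hz0 l) ?_
    have hyp : 0 < y l := hypos l hl1
    have hrp : 0 < r l := hrpos l hl1
    set w : ℝ := r l ^ (k - 2) / y l with hw
    have hw0 : 0 ≤ w := by positivity
    have hwV : w ≤ V := by
      have e1 : w ^ (2 * q) ≤ V ^ (2 * q) := by
        refine le_trans ?_ hV
        have e2 : w ^ (2 * q) = (r l ^ 2) ^ ((k - 3) * q + 1) := by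
          rw [hw, div_pow, mul_comm 2 q, pow_mul (y l), hyq, div_eq_iff (by positivity),
            ← pow_mul, ← pow_mul, ← pow_mul, ← pow_add]
          congr 1
          obtain ⟨k', rfl⟩ : ∃ k', k = k' + 3 := ⟨k - 3, by omega⟩
          obtain ⟨q', rfl⟩ : ∃ q', q = q' + 1 := ⟨q - 1, by omega⟩
          simp only [Nat.add_sub_cancel, show k' + 3 - 2 = k' + 1 by omega]
          ring
        rw [e2]
        exact pow_le_pow_left₀ (by positivity) (hrlam l hl.2) _
      exact (pow_le_pow_iff_left₀ hw0 hV0 (by omega)).mp e1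
    have e3 : z l = 6 ^ k * (w * (2 * ((k : ℝ) * l / n))) := by
      rw [hz, hw]; simp only
      rw [mul_pow, ← hr2 l]
      have : r l ^ k = r l ^ (k - 2) * r l ^ 2 := by rw [← pow_add]; congr 1; omega
      rw [this]; ring
    rw [e3]
    have e4 := hfrac l
    calc 3 * (Fintype.card J : ℝ) * (6 ^ k * (w * (2 * ((k : ℝ) * l / n))))
        ≤ 3 * (Fintype.card J : ℝ) * (6 ^ k * (V * (l / m))) := by gcongr
      _ = (3 * Fintype.card J * 6 ^ k * V) * (l / m) := by ring
      _ ≤ (κ * m) * (l / m) := mul_le_mul_of_nonneg_right hκ (by positivity)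
      _ = κ * l := by field_simp
  · rw [if_neg hl, mul_zero]
    split_ifs <;> positivity

end Pool.Agent.TH661.LPY
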