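import Pool.Agent.TH661.LPY.Sg5
import Pool.Agent.TH661.LPY.Des5
import Pool.Agent.TH661.LPY.Exp5
import Pool.Agent.TH661.LPY.Mo5
import Pool.Agent.TH661.LPX.SuM

/-!
The choice of the hypergraph, with designs.
-/

set_option autoImplicit false

namespace Pool.Agent.TH661.LPY

open Finset Pool.Agent.TH661.LPX

/-- Random tuples and random signs: the truncated density is almost nonnegative on all families,
with high probability. -/
theorem good5 {n k m : ℕ} (hm : 0 < m) (hmn : 2 * (k * m) ≤ n) (hk : 3 ≤ k)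
    (hTup : (n : ℝ) ^ k ≤ 2 * Fintype.card (Tup n k)) [Nonempty (Tup n k)]
    {J : Type*} [DecidableEq J] [Fintype J] [Nonempty J] {V : Type*} [Fintype V] {D : ℕ}
    (W : V → Submodule ℝ ((Fin n → Bool) → ℝ))
    (hW : ∀ o, Module.finrank ℝ (W o) ≤ D + 1)
    {δ lam U V' κ W0 s1 s2 τ X Y : ℝ} {q N L1 L f t' : ℕ} (hN : 1 ≤ N) (hL : L = L1 + f)
    (hδ : 0 < δ) (hτ : 0 < τ) (hq : 1 ≤ q) (hkL : k * L ≤ t')
    (hlam : (t' : ℝ) ≤ lam * (k * m)) (hlam1 : lam ≤ 1)
    (hU0 : 0 ≤ U) (hU : lam ^ ((k - 1) * q - 1) ≤ U ^ (2 * q))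
    (hV0 : 0 ≤ V') (hV : lam ^ ((k - 3) * q + 1) ≤ V' ^ (2 * q))
    (hκ : 3 * Fintype.card J * 6 ^ k * V' ≤ κ * m) (hκ0 : 0 ≤ κ) (hκ1 : κ ≤ 1 / 2)
    (hG : 2 ^ f / δ ≤ 2 ^ t') (hW0 : 0 < W0) (hW1 : W0 ≤ 1) (hs1 : 0 < s1) (hs2 : 0 < s2)
    (hX : 3 * Fintype.card J * (4 * N / W0 * (8 * lam) ^ k) ≤ X) (hX1 : X ≤ 1 / 4)
    (hY : 3 * Fintype.card J * (4 * N / W0 * 8 ^ k * U) ≤ Y * m) (hY1 : Y ≤ 1 / 4)
    (hXY : 2 * X + 2 * Y ^ 2 ≤ s1) :
    av (fun H : J → Tup n k => av (fun σ : J → Bool => ind (∃ o, ∃ v ∈ box (W o),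
      av (fun x => v x * DL (ye im) (prs H σ) L x) < - (δ * NL J L) - τ))) ≤
      2 * κ + Fintype.card V * (W0 ^ (f + 1) + (D + 1) * (W0 ^ (L1 + 1) / s2)) +
      Fintype.card V * (NL J f * (2 ^ f * (4 * (D + 1) * s1) ^ N
        + (D + 1) * (s2 * (D + 1) ^ 2 / τ ^ 2) ^ N)) := by
  classical
  have hmR : (0 : ℝ) < m := by exact_mod_cast hm
  have hkR : (0 : ℝ) < k := by exact_mod_cast (by omega : 0 < k)
  have hkm : (0 : ℝ) < k * m := by positivity
  have hlam0 : 0 ≤ lam := by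
    by_contra hcon
    rw [not_le] at hcon
    have h1 : lam * (k * m) < 0 := mul_neg_of_neg_of_pos hcon hkm
    have h2 : (0 : ℝ) ≤ t' := Nat.cast_nonneg _
    linarith
  have hkLR : (k : ℝ) * L ≤ t' := by exact_mod_cast hkL
  have hLm : (L : ℝ) ≤ lam * m := by
    have h2 : (k : ℝ) * L ≤ k * (lam * m) := by linarith
    exact le_of_mul_le_mul_left h2 hkR
  have hmbd0 : ∀ l, 0 ≤ mbd k m lam U l := by
    intro l
    unfold mbd
    split_ifs <;> positivity
  -- the spanners
  have hspan : ∀ o, ∃ b : Fin (D + 1) → (Fin n → Bool) → ℝ, (∀ i, b i ∈ box (W o)) ∧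
      ∀ v ∈ box (W o), ∃ c : Fin (D + 1) → ℝ, (∀ i, |c i| ≤ 1) ∧ v = ∑ i, c i • b i := by
    intro o
    have hzero : (0 : (Fin n → Bool) → ℝ) ∈ box (W o) :=
      ⟨(W o).zero_mem, fun x => ⟨le_refl _, zero_le_one⟩⟩
    have hrank : Module.finrank ℝ (Submodule.span ℝ (box (W o))) ≤ D + 1 := by
      have h1 : Submodule.span ℝ (box (W o)) ≤ W o := Submodule.span_le.mpr fun v hv => hv.1
      exact (Submodule.finrank_mono h1).trans (hW o)
    exact spanner (box (W o)) (box_compact (W o)) ⟨0, hzero⟩ hrank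
  choose b hb hbc using hspan
  -- the designs
  have hdes : ∀ o (g : (Fin n → Bool) → ℝ), ∃ T : (Finset (Fin n)) → ℝ,
      (∀ S, 0 ≤ T S) ∧ ((∀ x, 0 ≤ g x) ∧ (∀ x, g x ≤ 2 ^ f) →
        (∀ ρ : ℝ, 0 ≤ ρ → ρ ≤ 1 →
          ∑ S : Finset (Fin n), ρ ^ S.card * T S ≤ (2 ^ f / δ) ^ (2 * ρ)) ∧
        ∀ (H : J → Tup n k) (𝓔 : Finset (Finset J)) (N : ℕ), 1 ≤ N →
        ∃ Q : (J → Bool) → ℝ, (∀ σ, 0 ≤ Q σ) ∧
          av (fun σ => Q σ ^ N) ≤ (∑ E ∈ 𝓔, (2 * (N : ℝ)) ^ E.card * T (so im H E)) ^ N ∧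
          ∀ v ∈ box (W o), δ ≤ av (fun x => g x * v x) → ∀ σ : J → Bool,
            (∑ E ∈ 𝓔, fI (fun x => g x * v x) (so im H E) * ∏ i ∈ E, sg (σ i)) ^ 2
              ≤ 4 * (D + 1) * Q σ * av (fun x => g x * v x) ^ 2) := by
    intro o g
    by_cases h : (∀ x, 0 ≤ g x) ∧ (∀ x, g x ≤ 2 ^ f)
    · obtain ⟨T, hT0, hT1, hT2⟩ := design_pack (J := J) im (W o) (hW o) h.1 h.2 hδ
      exact ⟨T, hT0, fun _ => ⟨hT1, hT2⟩⟩
    · exact ⟨fun _ => 0, fun _ => le_refl _, fun h' => absurd h' h⟩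
  choose T hT0 hT1 using hdes
  -- the moments
  have hmomgen : ∀ T : Finset (Fin n) → ℝ, (∀ S, 0 ≤ T S) →
      (∀ l : ℕ, 0 < l → l ≤ L →
        ∑ S : Finset (Fin n), ((k : ℝ) * l / t') ^ S.card * T S ≤ 4 ^ (k * l)) →
      ∀ E : Finset J, 0 < E.card → E.card ≤ L →
      av (fun H : J → Tup n k => ind (ex im q H E) * T (so im H E)) ≤ mbd k m lam U E.card :=
    fun T hT hWt E hE hEL => mom5 hm hmn hk hTup hq hkL hlam hU0 hU T hT hWt hE hEL
  have hρ : ∀ l : ℕ, 0 < l → l ≤ L → (0 : ℝ) < t' ∧ (0 : ℝ) ≤ (k : ℝ) * l / t' ∧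
      (k : ℝ) * l / t' ≤ 1 := by
    intro l hl hlL
    have h1 : k * l ≤ t' := (Nat.mul_le_mul_left k hlL).trans hkL
    have h2 : 0 < t' := lt_of_lt_of_le (Nat.mul_pos (by omega) hl) h1
    have h3 : (0 : ℝ) < t' := by exact_mod_cast h2
    refine ⟨h3, by positivity, ?_⟩
    rw [div_le_one h3]
    exact_mod_cast h1
  -- bad hypergraphs
  have hbadprob : ∀ o, av (fun H : J → Tup n k =>
      ind (BadS im q N L1 s1 (T o) H f univ (fun _ => 1))) ≤ W0 ^ (f + 1) := by
    intro o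
    refine badS_prob im (G := 2 ^ f) (e := mbd k m lam U) hs1 (fun g S => hT0 o g S) hW0 hW1
      hmbd0 ?_ ?_ f univ _ (fun _ => zero_le_one) fun x => by rw [one_mul]
    · intro g E hg0 hg1 hE hEL
      refine hmomgen (T o g) (hT0 o g) ?_ E hE (by omega)
      intro l hl hlL
      obtain ⟨h1, h2, h3⟩ := hρ l hl hlL
      refine ((hT1 o g ⟨hg0, hg1⟩).1 _ h2 h3).trans ?_
      calc ((2 : ℝ) ^ f / δ) ^ (2 * ((k : ℝ) * l / t'))
          ≤ ((2 : ℝ) ^ t') ^ (2 * ((k : ℝ) * l / t')) :=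
            Real.rpow_le_rpow (by positivity) hG (by positivity)
        _ = 4 ^ (k * l) := by
            rw [← Real.rpow_natCast 2 t', ← Real.rpow_mul (by norm_num),
              ← Real.rpow_natCast 4 (k * l), show (4 : ℝ) = 2 ^ (2 : ℝ) by norm_num,
              ← Real.rpow_mul (by norm_num)]
            congr 1
            push_cast; field_simp
    · refine (sum_mbd_le (J := J) (k := k) hm (l0 := 0) (L := L1) (A := 4 * N / W0)
        (by positivity) hlam0 hU0 hX (by linarith) hY (by linarith)).trans (le_trans (le_of_eq ?_)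
        hXY)
      norm_num
  -- the tail
  set ZZ : V → Fin (D + 1) → (J → Tup n k) → ℝ := fun o i H =>
    ∑ E ∈ univ.filter (fun E : Finset J => L1 < E.card ∧ E.card ≤ L),
      (2 * (N : ℝ)) ^ E.card * (ind (ex im q H E) * fI (b o i) (so im H E) ^ 2) with hZZ
  have hZZ0 : ∀ o i H, 0 ≤ ZZ o i H := fun o i H => sum_nonneg fun E _ =>
    mul_nonneg (by positivity) (mul_nonneg (ind_nonneg _) (sq_nonneg _))
  have htailprob : ∀ o i, av (fun H : J → Tup n k => ind (s2 < ZZ o i H))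
      ≤ W0 ^ (L1 + 1) / s2 := by
    intro o i
    refine (av_ind_lt_le (hZZ0 o i) hs2).trans (div_le_div_of_nonneg_right ?_ hs2.le)
    have h1 : av (fun H : J → Tup n k => ZZ o i H)
        ≤ ∑ E ∈ univ.filter (fun E : Finset J => L1 < E.card ∧ E.card ≤ L),
          (2 * (N : ℝ)) ^ E.card * mbd k m lam U E.card := by
      rw [hZZ]
      simp only
      rw [av_sum]
      refine sum_le_sum fun E hE => ?_
      rw [mem_filter] at hE
      rw [av_mul_left]
      refine mul_le_mul_of_nonneg_left ?_ (by positivity)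
      refine hmomgen (fun S => fI (b o i) S ^ 2) (fun S => sq_nonneg _) ?_ E (by omega) hE.2.2
      intro l hl hlL
      obtain ⟨h1, h2, h3⟩ := hρ l hl hlL
      refine (fI_weight_le_one h2 h3 (fun x => ((hb o i).2 x).1)
        (fun x => ((hb o i).2 x).2)).trans ?_
      exact one_le_pow₀ (by norm_num)
    refine h1.trans ?_
    have hX' : 3 * (Fintype.card J : ℝ) * (2 * N * (8 * lam) ^ k) ≤ W0 / 8 := by
      have h2 : 3 * (Fintype.card J : ℝ) * (2 * N * (8 * lam) ^ k)
          = (3 * Fintype.card J * (4 * N / W0 * (8 * lam) ^ k)) * (W0 / 2) := by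
        field_simp; ring
      rw [h2]
      calc (3 * (Fintype.card J : ℝ) * (4 * N / W0 * (8 * lam) ^ k)) * (W0 / 2)
          ≤ (1 / 4) * (W0 / 2) :=
            mul_le_mul_of_nonneg_right (hX.trans hX1) (by positivity)
        _ = W0 / 8 := by ring
    have hY' : 3 * (Fintype.card J : ℝ) * (2 * N * 8 ^ k * U) ≤ W0 / 8 * m := by
      have h2 : 3 * (Fintype.card J : ℝ) * (2 * N * 8 ^ k * U)
          = (3 * Fintype.card J * (4 * N / W0 * 8 ^ k * U)) * (W0 / 2) := by
        field_simp; ring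
      rw [h2]
      calc (3 * (Fintype.card J : ℝ) * (4 * N / W0 * 8 ^ k * U)) * (W0 / 2)
          ≤ (Y * m) * (W0 / 2) := mul_le_mul_of_nonneg_right hY (by positivity)
        _ ≤ (1 / 4 * m) * (W0 / 2) := by gcongr
        _ = W0 / 8 * m := by ring
    refine (sum_mbd_le (J := J) (k := k) hm (l0 := L1) (L := L) (A := 2 * N) (X := W0 / 8)
      (Y := W0 / 8) (by positivity) hlam0 hU0 hX' (by linarith) hY' (by linarith)).trans ?_
    have h3 : (W0 / 8) ^ (max (L1 + 1) 2) ≤ (W0 / 8) ^ (L1 + 1) :=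
      pow_le_pow_of_le_one (by positivity) (by linarith) (le_max_left _ _)
    have h4 : (W0 / 8) ^ (L1 + 1) = W0 ^ (L1 + 1) * (1 / 8) ^ (L1 + 1) := by
      rw [div_eq_mul_one_div, mul_pow]
    have h5 : (1 / 8 : ℝ) ^ (L1 + 1) ≤ 1 / 8 := by
      rw [pow_succ]
      exact mul_le_of_le_one_left (by norm_num) (pow_le_one₀ (by norm_num) (by norm_num))
    have h6 : (0 : ℝ) ≤ W0 ^ (L1 + 1) := by positivity
    have h7 : W0 ^ (L1 + 1) * (1 / 8 : ℝ) ^ (L1 + 1) ≤ W0 ^ (L1 + 1) * (1 / 8) :=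
      mul_le_mul_of_nonneg_left h5 h6
    rw [h4] at h3 ⊢
    linarith
  set R : ℝ := NL J f * (2 ^ f * (4 * (D + 1) * s1) ^ N
        + (D + 1) * (s2 * (D + 1) ^ 2 / τ ^ 2) ^ N) with hR
  have hR0 : 0 ≤ R := by
    have : 0 ≤ NL J f := Nat.cast_nonneg _
    rw [hR]; positivity
  have hall : ∀ H : J → Tup n k, av (fun σ : J → Bool => ind (∃ o, ∃ v ∈ box (W o),
      av (fun x => v x * DL (ye im) (prs H σ) L x) < - (δ * NL J L) - τ)) ≤
      ind (∃ E : Finset J, E.Nonempty ∧ E.card ≤ L ∧ q * (so im H E).card < (q - 1) * E.card)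
      + ∑ o, (ind (BadS im q N L1 s1 (T o) H f univ (fun _ => 1))
        + ∑ i, ind (s2 < ZZ o i H)) + Fintype.card V * R := by
    intro H
    have hnn : ∀ o ∈ (univ : Finset V), 0 ≤ (ind (BadS im q N L1 s1 (T o) H f univ (fun _ => 1))
        + ∑ i, ind (s2 < ZZ o i H)) :=
      fun o _ => add_nonneg (ind_nonneg _) (sum_nonneg fun i _ => ind_nonneg _)
    have hs := sum_nonneg hnn
    have hVR : 0 ≤ Fintype.card V * R := by positivity
    have hle1 : av (fun σ : J → Bool => ind (∃ o, ∃ v ∈ box (W o),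
      av (fun x => v x * DL (ye im) (prs H σ) L x) < - (δ * NL J L) - τ)) ≤ 1 :=
      av_le_const fun σ => ind_le_one _
    by_cases hA : ∃ E : Finset J, E.Nonempty ∧ E.card ≤ L ∧
        q * (so im H E).card < (q - 1) * E.card
    · rw [ind_true hA]
      linarith
    · have hA' := hA
      push Not at hA
      have hexH : ∀ E : Finset J, 0 < E.card → E.card ≤ L → ex im q H E :=
        fun E hE hEL => hA E (card_pos.mp hE) hEL
      by_cases hBC : ∃ o, BadS im q N L1 s1 (T o) H f univ (fun _ => 1) ∨ ∃ i, s2 < ZZ o i H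
      · obtain ⟨o, ho⟩ := hBC
        have h3 := single_le_sum hnn (mem_univ o)
        have h4 : (1 : ℝ) ≤ ind (BadS im q N L1 s1 (T o) H f univ (fun _ => 1))
            + ∑ i, ind (s2 < ZZ o i H) := by
          rcases ho with hB | ⟨i, hi⟩
          · rw [ind_true hB]
            linarith [sum_nonneg fun (i : Fin (D + 1)) (_ : i ∈ univ) =>
              ind_nonneg (s2 < ZZ o i H)]
          · have h5 := single_le_sum (f := fun i : Fin (D + 1) => ind (s2 < ZZ o i H))
              (fun i _ => ind_nonneg _) (mem_univ i)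
            rw [ind_true hi] at h5
            linarith [ind_nonneg (BadS im q N L1 s1 (T o) H f univ (fun _ => 1))]
        linarith [ind_nonneg (∃ E : Finset J, E.Nonempty ∧ E.card ≤ L ∧
          q * (so im H E).card < (q - 1) * E.card)]
      · push Not at hBC
        have h5 : ∀ o, av (fun σ : J → Bool => ind (∃ v ∈ box (W o),
            av (fun x => v x * DL (ye im) (prs H σ) L x) < - (δ * NL J L) - τ)) ≤ R := by
          intro o
          obtain ⟨hB, hC⟩ := hBC o
          refine signs_prob4 im H hN hδ hτ hL hs1 (W o) (T o) (fun g S => hT0 o g S) ?_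
            (fun E hE hEL => hexH E hE (by omega)) hB (hbc o) ?_
          · intro g hg0 hg1 𝓔
            exact (hT1 o g ⟨hg0, hg1⟩).2 H 𝓔 N hN
          · intro i
            refine le_trans (le_of_eq ?_) (hC i)
            rw [hZZ]
            simp only
            refine sum_congr rfl fun E hE => ?_
            rw [mem_filter] at hE
            rw [ind_true (hexH E (by omega) hE.2.2), one_mul]
        have h6 : av (fun σ : J → Bool => ind (∃ o, ∃ v ∈ box (W o),
            av (fun x => v x * DL (ye im) (prs H σ) L x) < - (δ * NL J L) - τ))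
            ≤ Fintype.card V * R := by
          have h7 : ∀ σ : J → Bool, ind (∃ o, ∃ v ∈ box (W o),
              av (fun x => v x * DL (ye im) (prs H σ) L x) < - (δ * NL J L) - τ)
              ≤ ∑ o, ind (∃ v ∈ box (W o),
                av (fun x => v x * DL (ye im) (prs H σ) L x) < - (δ * NL J L) - τ) := by
            intro σ
            by_cases h : ∃ o, ∃ v ∈ box (W o),
              av (fun x => v x * DL (ye im) (prs H σ) L x) < - (δ * NL J L) - τ
            · obtain ⟨o, ho⟩ := h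
              refine (ind_le_one _).trans ?_
              refine le_trans ?_ (single_le_sum (f := fun o =>
                ind (∃ v ∈ box (W o), av (fun x => v x * DL (ye im) (prs H σ) L x)
                  < - (δ * NL J L) - τ)) (fun _ _ => ind_nonneg _) (mem_univ o))
              rw [ind_true ho]
            · rw [ind_false h]; exact sum_nonneg fun _ _ => ind_nonneg _
          refine (av_mono h7).trans ?_
          rw [av_sum]
          refine (sum_le_sum fun o _ => h5 o).trans (le_of_eq ?_)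
          rw [sum_const, card_univ, nsmul_eq_mul]
        linarith [ind_nonneg (∃ E : Finset J, E.Nonempty ∧ E.card ≤ L ∧
          q * (so im H E).card < (q - 1) * E.card)]
  have h3 := av_mono hall
  rw [av_add, av_add, av_sum] at h3
  have h3c : av (fun _ : J → Tup n k => (Fintype.card V : ℝ) * R) = Fintype.card V * R :=
    av_const _
  rw [h3c] at h3
  have h4 := exp_prob5 (J := J) (n := n) (k := k) hm hmn hk hTup hq hLm hlam1 hV0 hV hκ hκ0 hκ1
  have h6 : ∑ o, av (fun H : J → Tup n k =>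
      ind (BadS im q N L1 s1 (T o) H f univ (fun _ => 1)) + ∑ i, ind (s2 < ZZ o i H))
      ≤ Fintype.card V * (W0 ^ (f + 1) + (D + 1) * (W0 ^ (L1 + 1) / s2)) := by
    have h7 : ∀ o, av (fun H : J → Tup n k =>
      ind (BadS im q N L1 s1 (T o) H f univ (fun _ => 1)) + ∑ i, ind (s2 < ZZ o i H))
        ≤ W0 ^ (f + 1) + (D + 1) * (W0 ^ (L1 + 1) / s2) := by
      intro o
      rw [av_add, av_sum]
      refine add_le_add (hbadprob o) ((sum_le_sum fun i _ => htailprob o i).trans (le_of_eq ?_))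
      rw [sum_const, card_univ, Fintype.card_fin, nsmul_eq_mul]
      push_cast; ring
    refine (sum_le_sum fun o _ => h7 o).trans (le_of_eq ?_)
    rw [sum_const, card_univ, nsmul_eq_mul]
  linarith

end Pool.Agent.TH661.LPY
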