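import Pool.Agent.TH661.LPX.SatS

set_option autoImplicit false

namespace Pool.Agent.TH661.LPY

open Finset Pool.Agent.TH661.LPX

/-- `params5`: asymptotic choice of the parameters. -/
theorem params5 {ε κ : ℝ} (hε : 0 < ε) (hκ0 : 0 < κ) (hκ1 : κ ≤ 1) (B : ℕ) :
    ∃ C K : ℕ, 1 ≤ K ∧ ∀ n k D t M : ℕ, 3 ≤ k → 1 ≤ D → 2 ^ k ≤ n → n ≤ 2 ^ t →
      (n : ℝ) ^ (1 + ε) * D * t * (C * t) ^ k ≤ n ^ k → n ≤ M → M ≤ B * 2 ^ k * n →
      C * t ≤ n ∧ M ≤ 2 ^ (3 * t) ∧ 1 ≤ κ ^ K * M ∧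
      ((5 * 10 ^ 4 * K ^ 2 * (3 * t)) ^ (k + 1) * M ^ 2 * D) ^ K * M ^ 4
        ≤ (n / 2) ^ ((k + 1) * K) ∧
      (200 * K * (3 * t : ℕ) : ℝ) ^ ((k - 3) * K + 1) * (6 * k * 6 ^ k * M) ^ (2 * K)
        ≤ κ ^ (2 * K) * ((n / 2 : ℕ) : ℝ) ^ ((k - 1) * K + 1) := by
  obtain ⟨K, hK⟩ := exists_nat_ge (4 / ε)
  have hK0 : (0 : ℝ) < K := lt_of_lt_of_le (by positivity) hK
  have hK1 : 1 ≤ K := by
    have : 0 < K := by exact_mod_cast hK0
    omega
  have hKR : (1 : ℝ) ≤ K := by exact_mod_cast hK1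
  set A : ℝ := 15 * 10 ^ 4 * (K : ℝ) ^ 2 with hA
  have hA1 : 1 ≤ A := by
    have : (1 : ℝ) ≤ (K : ℝ) ^ 2 := one_le_pow₀ hKR
    rw [hA]
    linarith
  have hA0 : 0 < A := by linarith
  set b : ℝ := (B : ℝ) + 1 with hb
  have hBR : (0 : ℝ) ≤ B := Nat.cast_nonneg _
  have hb1 : 1 ≤ b := by rw [hb]; linarith
  have hb0 : 0 < b := by linarith
  have hBb : (B : ℝ) ≤ b := by rw [hb]; linarith
  set c : ℝ := 18 * b / κ with hc
  have hc0 : 0 < c := by positivity
  have hc1 : 1 ≤ c := by rw [hc, le_div_iff₀ hκ0]; linarith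
  have hcκ : κ * c = 18 * b := by rw [hc]; field_simp
  set G : ℝ := c ^ 2 * 576 ^ 3 with hG
  have hG1 : 1 ≤ G := by
    have : (1 : ℝ) ≤ c ^ 2 := one_le_pow₀ hc1
    rw [hG]
    linarith
  have hG0 : 0 < G := by linarith
  set P : ℝ := 576 * G ^ K with hP
  have hGK : 1 ≤ G ^ K := one_le_pow₀ hG1
  have hP1 : 1 ≤ P := by rw [hP]; linarith
  have hP0 : 0 < P := by linarith
  have hκK : 0 < κ ^ K := by positivity
  set T1 : ℝ := (3 * A) ^ 2 * b ^ 6 * 64 with hT1
  set T2 : ℝ := P * (1800 * K) with hT2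
  set T3 : ℝ := 1 / κ ^ K with hT3
  have hT10 : 0 < T1 := by positivity
  have hT20 : 0 < T2 := by positivity
  have hT30 : 0 < T3 := by positivity
  obtain ⟨C, hC'⟩ := exists_nat_ge (T1 + T2 + T3 + b)
  have hC1 : T1 ≤ C := by linarith
  have hC2 : T2 ≤ C := by linarith
  have hC3 : T3 ≤ C := by linarith
  have hC4 : b ≤ C := by linarith
  refine ⟨C, K, hK1, fun n k D t M hk hD hkn hnt hmain hnM hMB => ?_⟩
  have hk0 : 0 < k := by omega
  have hn8 : 8 ≤ n := le_trans (by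
    calc 8 = 2 ^ 3 := by norm_num
      _ ≤ 2 ^ k := Nat.pow_le_pow_right (by norm_num) hk) hkn
  have hnR : (8 : ℝ) ≤ n := by exact_mod_cast hn8
  have hn0 : (0 : ℝ) < n := by linarith
  have hDR : (1 : ℝ) ≤ D := by exact_mod_cast hD
  have ht1 : 1 ≤ t := by
    rcases Nat.eq_zero_or_pos t with h | h
    · subst h; omega
    · exact h
  have htR : (1 : ℝ) ≤ t := by exact_mod_cast ht1
  have hCpos : (0 : ℝ) < C := lt_of_lt_of_le hT10 hC1
  -- `n` is large
  have hCtn : (C : ℝ) * t ≤ n := by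
    have h1 : ((C : ℝ) * t) ^ k ≤ (n : ℝ) ^ k := by
      refine le_trans ?_ hmain
      have h2 : (1 : ℝ) ≤ (n : ℝ) ^ (1 + ε) := Real.one_le_rpow (by linarith) (by linarith)
      have h4 : (1 : ℝ) ≤ (n : ℝ) ^ (1 + ε) * D * t :=
        one_le_mul_of_one_le_of_one_le (one_le_mul_of_one_le_of_one_le h2 hDR) htR
      exact le_mul_of_one_le_left (by positivity) h4
    exact (pow_le_pow_iff_left₀ (by positivity) hn0.le (by omega)).mp h1
  have hCn : (C : ℝ) ≤ n := (le_mul_of_one_le_right hCpos.le htR).trans hCtn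
  have hBn : B ≤ n := by
    have h1 : (B : ℝ) ≤ n := hBb.trans (hC4.trans hCn)
    exact_mod_cast h1
  have hnMR : (n : ℝ) ≤ M := by exact_mod_cast hnM
  have hMR0 : (0 : ℝ) ≤ M := Nat.cast_nonneg _
  have hMb : (M : ℝ) ≤ b * 2 ^ k * n := by
    have h1 : (M : ℝ) ≤ B * 2 ^ k * n := by exact_mod_cast hMB
    refine h1.trans ?_
    gcongr
  set h : ℝ := ((n / 2 : ℕ) : ℝ) with hh
  have hh0 : 0 ≤ h := Nat.cast_nonneg _
  have hn3 : (n : ℝ) ≤ 3 * h := by
    have h1 : n ≤ 3 * (n / 2) := by omega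
    rw [hh]
    exact_mod_cast h1
  refine ⟨by exact_mod_cast hCtn, ?_, ?_, ?_, ?_⟩
  · calc M ≤ B * 2 ^ k * n := hMB
      _ ≤ 2 ^ t * 2 ^ t * 2 ^ t :=
          Nat.mul_le_mul (Nat.mul_le_mul (hBn.trans hnt) (hkn.trans hnt)) hnt
      _ = 2 ^ (3 * t) := by rw [← pow_add, ← pow_add]; congr 1; ring
  · have h1 : T3 ≤ M := hC3.trans (hCn.trans hnMR)
    calc (1 : ℝ) = κ ^ K * T3 := by rw [hT3]; field_simp
      _ ≤ κ ^ K * M := mul_le_mul_of_nonneg_left h1 hκK.le
  · -- the first inequality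
    set g : ℝ := (n : ℝ) ^ ε with hg
    have hg0 : 0 < g := by positivity
    have hgK : (n : ℝ) ^ 4 ≤ g ^ K := by
      rw [hg, ← Real.rpow_natCast ((n : ℝ) ^ ε) K, ← Real.rpow_mul hn0.le,
        ← Real.rpow_natCast (n : ℝ) 4]
      refine Real.rpow_le_rpow_of_exponent_le (by linarith) ?_
      rw [div_le_iff₀ hε] at hK
      push_cast
      linarith
    set w : ℝ := b ^ 4 * 16 ^ k with hw
    have hw1 : 1 ≤ w := by
      rw [hw]
      exact one_le_mul_of_one_le_of_one_le (one_le_pow₀ hb1) (one_le_pow₀ (by norm_num))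
    have hM4K : (M : ℝ) ^ 4 ≤ (g * w) ^ K := by
      have h1 : w ≤ w ^ K := le_self_pow₀ hw1 (by omega)
      calc (M : ℝ) ^ 4 ≤ (b * 2 ^ k * n) ^ 4 := pow_le_pow_left₀ hMR0 hMb 4
        _ = n ^ 4 * w := by
            rw [hw, mul_pow, mul_pow, ← pow_mul, mul_comm k 4, pow_mul]
            norm_num
            ring
        _ ≤ g ^ K * w ^ K := mul_le_mul hgK h1 (by positivity) (by positivity)
        _ = (g * w) ^ K := (mul_pow _ _ _).symm
    have hfinal : (((5 * 10 ^ 4 * K ^ 2 * (3 * t)) ^ (k + 1) * M ^ 2 * D : ℝ)) ^ K * M ^ 4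
        ≤ h ^ ((k + 1) * K) := by
      calc (((5 * 10 ^ 4 * K ^ 2 * (3 * t)) ^ (k + 1) * M ^ 2 * D : ℝ)) ^ K * M ^ 4
          ≤ (((5 * 10 ^ 4 * K ^ 2 * (3 * t)) ^ (k + 1) * M ^ 2 * D : ℝ)) ^ K *
            (g * w) ^ K := mul_le_mul_of_nonneg_left hM4K (by positivity)
        _ = ((A * t) ^ (k + 1) * M ^ 2 * D * (g * w)) ^ K := by
            rw [← mul_pow, hA]; congr 2; ring
        _ ≤ (h ^ (k + 1)) ^ K := by
            refine pow_le_pow_left₀ (by positivity) ?_ K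
            have h1 : (n : ℝ) ^ (1 + ε) = n * g := by
              rw [Real.rpow_add hn0, Real.rpow_one, hg]
            rw [h1] at hmain
            have h2 : (M : ℝ) ^ 2 ≤ n ^ 2 * (b ^ 2 * 4 ^ k) := by
              calc (M : ℝ) ^ 2 ≤ (b * 2 ^ k * n) ^ 2 := pow_le_pow_left₀ hMR0 hMb 2
                _ = _ := by
                  rw [mul_pow, mul_pow, ← pow_mul, mul_comm k 2, pow_mul]
                  norm_num
                  ring
            have h3 : (3 * A) ^ (k + 1) * (b ^ 6 * 64 ^ k) ≤ (C : ℝ) ^ k := by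
              have h3A : 1 ≤ 3 * A := by linarith
              calc (3 * A) ^ (k + 1) * (b ^ 6 * 64 ^ k)
                  ≤ (3 * A) ^ (2 * k) * ((b ^ 6) ^ k * 64 ^ k) := by
                    refine mul_le_mul (pow_le_pow_right₀ h3A (by omega)) ?_
                      (by positivity) (by positivity)
                    exact mul_le_mul_of_nonneg_right
                      (le_self_pow₀ (one_le_pow₀ hb1) (by omega)) (by positivity)
                _ = T1 ^ k := by
                    rw [hT1, mul_pow ((3 * A) ^ 2 * b ^ 6) 64 k, mul_pow ((3 * A) ^ 2) (b ^ 6) k,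
                      ← pow_mul (3 * A) 2 k]
                    ring
                _ ≤ (C : ℝ) ^ k := pow_le_pow_left₀ hT10.le hC1 k
            have h5 : 3 ^ (k + 1) * ((A * t) ^ (k + 1) * M ^ 2 * D * (g * w)) ≤
                3 ^ (k + 1) * h ^ (k + 1) := by
              calc 3 ^ (k + 1) * ((A * t) ^ (k + 1) * M ^ 2 * D * (g * w))
                  ≤ 3 ^ (k + 1) * ((A * t) ^ (k + 1) * (n ^ 2 * (b ^ 2 * 4 ^ k)) * D *
                    (g * w)) := by gcongr
                _ = ((3 * A) ^ (k + 1) * (b ^ 6 * 64 ^ k)) * (n ^ 2 * g * D * t * t ^ k) := by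
                    rw [hw, mul_pow A, mul_pow 3 A, pow_succ (t : ℝ) k,
                      show (64 : ℝ) ^ k = 4 ^ k * 16 ^ k by rw [← mul_pow]; norm_num]
                    ring
                _ ≤ (C : ℝ) ^ k * (n ^ 2 * g * D * t * t ^ k) :=
                    mul_le_mul_of_nonneg_right h3 (by positivity)
                _ = n * (n * g * D * t * (C * t) ^ k) := by rw [mul_pow (C : ℝ)]; ring
                _ ≤ n * n ^ k := mul_le_mul_of_nonneg_left hmain hn0.le
                _ = (n : ℝ) ^ (k + 1) := by ring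
                _ ≤ (3 * h) ^ (k + 1) := pow_le_pow_left₀ hn0.le hn3 _
                _ = 3 ^ (k + 1) * h ^ (k + 1) := mul_pow _ _ _
            exact le_of_mul_le_mul_left h5 (by positivity)
        _ = h ^ ((k + 1) * K) := by rw [← pow_mul]
    rw [hh] at hfinal
    exact_mod_cast hfinal
  · -- the second inequality
    obtain ⟨e, he⟩ : ∃ e, e = (k - 3) * K := ⟨_, rfl⟩
    have he2 : (k - 1) * K + 1 = (e + 1) + 2 * K := by
      have : k - 1 = (k - 3) + 2 := by omega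
      rw [this, he]; ring
    have hkK : k * K = 3 * K + e := by
      obtain ⟨j, rfl⟩ : ∃ j, k = 3 + j := ⟨k - 3, by omega⟩
      rw [he, Nat.add_sub_cancel_left]; ring
    have hL : P * (1800 * K * t) ≤ n := by
      calc P * (1800 * K * t) = T2 * t := by rw [hT2]; ring
        _ ≤ C * t := mul_le_mul_of_nonneg_right hC2 (by linarith)
        _ ≤ n := hCtn
    have hk6 : (k : ℝ) * 6 ^ k ≤ 12 ^ k := by
      have h1 : (k : ℝ) ≤ 2 ^ k := by exact_mod_cast (Nat.lt_two_pow_self (n := k)).le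
      calc (k : ℝ) * 6 ^ k ≤ 2 ^ k * 6 ^ k := mul_le_mul_of_nonneg_right h1 (by positivity)
        _ = 12 ^ k := by rw [← mul_pow]; norm_num
    have hQ : (3 * (6 * k * 6 ^ k * M) : ℝ) ^ (2 * K) ≤
        κ ^ (2 * K) * (P ^ (e + 1) * n ^ (2 * K)) := by
      calc (3 * (6 * k * 6 ^ k * M) : ℝ) ^ (2 * K)
          ≤ (18 * b * 24 ^ k * n) ^ (2 * K) := by
            refine pow_le_pow_left₀ (by positivity) ?_ _
            calc (3 * (6 * k * 6 ^ k * M) : ℝ) = 18 * (k * 6 ^ k) * M := by ring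
              _ ≤ 18 * 12 ^ k * (b * 2 ^ k * n) := by gcongr
              _ = 18 * b * 24 ^ k * n := by
                rw [show (24 : ℝ) ^ k = 12 ^ k * 2 ^ k by rw [← mul_pow]; norm_num]
                ring
        _ = κ ^ (2 * K) * (G ^ K * 576 ^ e * n ^ (2 * K)) := by
            have h12 : ((24 : ℝ) ^ k) ^ (2 * K) = (576 ^ 3) ^ K * 576 ^ e := by
              rw [← pow_mul, show k * (2 * K) = 2 * (k * K) by ring, pow_mul, hkK, pow_add,
                pow_mul _ 3 K, show ((24 : ℝ) ^ 2) = 576 by norm_num]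
            rw [← hcκ, mul_pow, mul_pow, mul_pow, h12, hG, mul_pow, pow_mul c 2 K]
            ring
        _ ≤ κ ^ (2 * K) * (P ^ (e + 1) * n ^ (2 * K)) := by
            refine mul_le_mul_of_nonneg_left ?_ (by positivity)
            refine mul_le_mul_of_nonneg_right ?_ (by positivity)
            calc G ^ K * 576 ^ e = 576 ^ e * G ^ K := mul_comm _ _
              _ ≤ 576 ^ (e + 1) * (G ^ K) ^ (e + 1) :=
                  mul_le_mul (pow_le_pow_right₀ (by norm_num) (Nat.le_succ e))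
                    (le_self_pow₀ hGK (Nat.succ_ne_zero e)) (by positivity) (by positivity)
              _ = P ^ (e + 1) := (mul_pow _ _ _).symm
    have hfinal : (200 * K * (3 * t : ℕ) : ℝ) ^ (e + 1) * (6 * k * 6 ^ k * M) ^ (2 * K)
        ≤ κ ^ (2 * K) * h ^ ((e + 1) + 2 * K) := by
      have h5 : (3 : ℝ) ^ ((e + 1) + 2 * K) *
          ((200 * K * (3 * t : ℕ) : ℝ) ^ (e + 1) * (6 * k * 6 ^ k * M) ^ (2 * K)) ≤
          3 ^ ((e + 1) + 2 * K) * (κ ^ (2 * K) * h ^ ((e + 1) + 2 * K)) := by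
        calc (3 : ℝ) ^ ((e + 1) + 2 * K) *
              ((200 * K * (3 * t : ℕ) : ℝ) ^ (e + 1) * (6 * k * 6 ^ k * M) ^ (2 * K))
            = (1800 * K * t) ^ (e + 1) * (3 * (6 * k * 6 ^ k * M) : ℝ) ^ (2 * K) := by
              rw [mul_pow 3 (6 * k * 6 ^ k * M : ℝ), pow_add (3 : ℝ),
                show (1800 * K * t : ℝ) = 3 * (200 * K * (3 * t : ℕ)) by push_cast; ring,
                mul_pow 3 (200 * K * (3 * t : ℕ) : ℝ)]
              ring
          _ ≤ (1800 * K * t) ^ (e + 1) * (κ ^ (2 * K) * (P ^ (e + 1) * n ^ (2 * K))) :=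
              mul_le_mul_of_nonneg_left hQ (by positivity)
          _ = κ ^ (2 * K) * ((P * (1800 * K * t)) ^ (e + 1) * n ^ (2 * K)) := by
              rw [mul_pow P]; ring
          _ ≤ κ ^ (2 * K) * ((n : ℝ) ^ (e + 1) * n ^ (2 * K)) := by
              refine mul_le_mul_of_nonneg_left ?_ (by positivity)
              exact mul_le_mul_of_nonneg_right (pow_le_pow_left₀ (by positivity) hL _)
                (by positivity)
          _ = κ ^ (2 * K) * (n : ℝ) ^ ((e + 1) + 2 * K) := by rw [← pow_add]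
          _ ≤ κ ^ (2 * K) * (3 * h) ^ ((e + 1) + 2 * K) :=
              mul_le_mul_of_nonneg_left (pow_le_pow_left₀ hn0.le hn3 _) (by positivity)
          _ = 3 ^ ((e + 1) + 2 * K) * (κ ^ (2 * K) * h ^ ((e + 1) + 2 * K)) := by
              rw [mul_pow]; ring
      exact le_of_mul_le_mul_left h5 (by positivity)
    rw [he2, ← he]
    exact hfinal

end Pool.Agent.TH661.LPY
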