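import Pool.Agent.TH661.LPY.Main6
import Pool.Agent.TH661.LPY.Par5
import Pool.Agent.TH661.LPY.Cnt5

/-!
Random formulas: the lower bound.
-/

set_option autoImplicit false

namespace Pool.Agent.TH661.LPY

open Finset Pool.Agent.TH661.LPX

theorem mul_pred_le_two_pow {k : ℕ} (hk : 3 ≤ k) : k * (k - 1) ≤ 2 ^ k := by
  induction k, hk using Nat.le_induction with
  | base => norm_num
  | succ j hj ih =>
    have h1 : 2 * j ≤ 2 ^ j := by
      clear ih
      induction j, hj using Nat.le_induction with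
      | base => norm_num
      | succ i hi ih2 => rw [pow_succ]; omega
    have h2 : (j + 1) * (j + 1 - 1) = j * (j - 1) + 2 * j := by
      obtain ⟨i, rfl⟩ : ∃ i, j = i + 1 := ⟨j - 1, by omega⟩
      simp only [Nat.add_sub_cancel]; ring
    rw [h2, pow_succ]; omega

theorem av_ind_not {α : Type*} [Fintype α] [Nonempty α] (p : α → Prop) :
    av (fun a => ind (p a)) = 1 - av (fun a => ind (¬ p a)) := by
  have h1 : ∀ a, ind (p a) = 1 - ind (¬ p a) := by
    intro a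
    by_cases h : p a
    · rw [ind_true h, ind_false (not_not.mpr h)]; ring
    · rw [ind_false h, ind_true h]; ring
  rw [av_congr h1, av_sub, av_const]

/-- Random formulas are not refuted. -/
theorem random_cnf (ε η δ : ℝ) (B : ℕ) (hε : 0 < ε) (hη0 : 0 < η) (hη1 : η ≤ 1) (hδ : 0 < δ) :
    ∃ C : ℕ, ∀ n k M b r D t : ℕ, 3 ≤ k → 1 ≤ D → 2 ^ k ≤ n → n ≤ 2 ^ t →
    (n : ℝ) ^ (1 + ε) * D * t * (C * t) ^ k ≤ n ^ k →
    2 ^ (k + 1) * n ≤ η ^ 2 * M → M ≤ B * 2 ^ k * n → 2 ^ b * (r * D + 1) ≤ 2 ^ t →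
    ∀ (P : ConicProgram b r D) (y : (Fin n → Bool) → Fin P.d → ℝ), (∀ x, P.Feasible (y x)) →
      (1 - δ) * ({F : CNF n | Exactly k F ∧ F.length = M}.ncard : ℝ) ≤
        ({F : CNF n | Exactly k F ∧ F.length = M ∧
          (∀ x, (satCount F x : ℝ) ≤ (1 - (1 - η) / 2 ^ k) * M) ∧
          ∃ z, P.Feasible z ∧ ∀ (w : ℕ → ℝ) (a : (Fin P.d → ℝ) × ℝ),
            (∀ x, aff a (y x) = wsat F w x) →
              |aff a z - ∑ i ∈ range M, w i| ≤ (∑ i ∈ range M, |w i|) / 4 ^ t}.ncard : ℝ) := by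
  classical
  set κ : ℝ := min (δ / 8) (1 / 2) with hκ
  have hκ0 : 0 < κ := lt_min (by positivity) (by norm_num)
  have hκ1 : κ ≤ 1 / 2 := min_le_right _ _
  have hκδ : 8 * κ ≤ δ := by have := min_le_left (δ / 8) (1 / 2 : ℝ); linarith
  obtain ⟨C0, K, hK, h0⟩ := params5 hε hκ0 (by linarith) B
  obtain ⟨E, hE⟩ := exists_pow_lt_of_lt_one hκ0 (by norm_num : (1 / 2 : ℝ) < 1)
  refine ⟨C0 + 3 * (E + 6), fun n k M b r D t hk hD hkn hnt hmain hMn hMB hsize P y hy => ?_⟩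
  obtain ⟨D, rfl⟩ : ∃ D' : ℕ, D = D' + 1 := ⟨D - 1, by omega⟩
  have hn8 : 8 ≤ n := le_trans (by
    calc 8 = 2 ^ 3 := by norm_num
      _ ≤ 2 ^ k := Nat.pow_le_pow_right (by norm_num) hk) hkn
  have hn0 : (0 : ℝ) < n := by exact_mod_cast (by omega : 0 < n)
  have ht1 : 1 ≤ t := by
    rcases Nat.eq_zero_or_pos t with h | h
    · subst h; simp at hnt; omega
    · exact h
  have htR : (1 : ℝ) ≤ t := by exact_mod_cast ht1
  have hη2 : η ^ 2 ≤ 1 := pow_le_one₀ hη0.le hη1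
  have hnM : n ≤ M := by
    have h1 : (n : ℝ) ≤ M := by
      calc (n : ℝ) ≤ 2 ^ (k + 1) * n := le_mul_of_one_le_left hn0.le (one_le_pow₀ (by norm_num))
        _ ≤ η ^ 2 * M := hMn
        _ ≤ 1 * M := mul_le_mul_of_nonneg_right hη2 (Nat.cast_nonneg _)
        _ = M := one_mul _
    exact_mod_cast h1
  have hM0 : 0 < M := by omega
  have hDR : (1 : ℝ) ≤ ((D + 1 : ℕ) : ℝ) := by exact_mod_cast hD
  -- `n` is large
  have hCtn : ((C0 + 3 * (E + 6) : ℕ) : ℝ) * t ≤ n := by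
    have h1 : (((C0 + 3 * (E + 6) : ℕ) : ℝ) * t) ^ k ≤ (n : ℝ) ^ k := by
      refine le_trans ?_ hmain
      have h2 : (1 : ℝ) ≤ (n : ℝ) ^ (1 + ε) :=
        Real.one_le_rpow (by exact_mod_cast (by omega : 1 ≤ n)) (by linarith)
      have h4 : (1 : ℝ) ≤ (n : ℝ) ^ (1 + ε) * ((D + 1 : ℕ) : ℝ) * t :=
        one_le_mul_of_one_le_of_one_le (one_le_mul_of_one_le_of_one_le h2 hDR) htR
      exact le_mul_of_one_le_left (by positivity) h4
    exact (pow_le_pow_iff_left₀ (by positivity) hn0.le (by omega)).mp h1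
  have hEn : 3 * (E + 6) ≤ n := by
    have h1 : ((3 * (E + 6) : ℕ) : ℝ) ≤ n := by
      refine le_trans ?_ hCtn
      refine le_trans ?_ (le_mul_of_one_le_right (by positivity) htR)
      exact_mod_cast (by omega : 3 * (E + 6) ≤ C0 + 3 * (E + 6))
    exact_mod_cast h1
  obtain ⟨-, hM3t, hMκ, hmain', hexp'⟩ := h0 n k (D + 1) t M hk hD hkn hnt (by
    refine le_trans ?_ hmain
    refine mul_le_mul_of_nonneg_left ?_ (by positivity)
    refine pow_le_pow_left₀ (by positivity) ?_ k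
    refine mul_le_mul_of_nonneg_right ?_ (by positivity)
    exact_mod_cast (by omega : C0 ≤ C0 + 3 * (E + 6))) hnM hMB
  obtain ⟨hm1, ⟨p⟩⟩ := nums5 (n := n / 2) (t := 3 * t) (D := D) hk hK (hkn.trans hnM) hM3t
    (by omega) hκ0 (by linarith) hMκ hmain' hexp' (by omega)
  have hk0 : 0 < k := by omega
  have hkm : k * (n / 2 / k) ≤ n / 2 := Nat.mul_div_le _ _
  have hkn' : k ≤ n := by
    have h1 : k ≤ k * (n / 2 / k) := Nat.le_mul_of_pos_right _ hm1
    omega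
  have hne : Nonempty (Tup n k) := ⟨⟨Fin.castLE hkn', Fin.castLE_injective hkn'⟩⟩
  have hTup : (n : ℝ) ^ k ≤ 2 * Fintype.card (Tup n k) :=
    card_Tup ((mul_pred_le_two_pow hk).trans hkn)
  have hch : 2 ^ n * Real.exp (-(η ^ 2 * M / 2 ^ (k + 1))) ≤ κ := by
    have h1 : (n : ℝ) ≤ η ^ 2 * M / 2 ^ (k + 1) := by
      rw [le_div_iff₀ (by positivity)]; linarith
    calc 2 ^ n * Real.exp (-(η ^ 2 * M / 2 ^ (k + 1))) ≤ 2 ^ n * Real.exp (-n) :=
          mul_le_mul_of_nonneg_left (Real.exp_le_exp.mpr (by linarith)) (by positivity)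
      _ ≤ 1 / 2 ^ (E + 6) := chernoff_num hEn
      _ ≤ (1 / 2) ^ E := by
          rw [div_pow, one_pow]
          exact one_div_le_one_div_of_le (by positivity)
            (pow_le_pow_right₀ (by norm_num) (by omega))
      _ ≤ κ := hE.le
  have hprob := prob5 (t := t) hk hM0 ht1 (by omega) (by omega : 2 * (k * (n / 2 / k)) ≤ n) hK hTup
    hκ0 hκ1 hη0.le hch p hsize P y hy
  have hQ := ncard_formulas (n := n) (k := k) (M := M) (fun F =>
    (∀ x, (satCount F x : ℝ) ≤ (1 - (1 - η) / 2 ^ k) * M) ∧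
      ∃ z, P.Feasible z ∧ ∀ (w : ℕ → ℝ) (a : (Fin P.d → ℝ) × ℝ),
        (∀ x, aff a (y x) = wsat F w x) →
          |aff a z - ∑ i ∈ range M, w i| ≤ (∑ i ∈ range M, |w i|) / 4 ^ t)
  have hT := ncard_formulas (n := n) (k := k) (M := M) (fun _ => True)
  have hT1 : av (fun _ : Fin M → Cl n k => ind True) = 1 := by
    rw [ind_true trivial]; exact av_const 1
  rw [hT1, mul_one] at hT
  simp only [and_true] at hT
  rw [hQ, hT, av_ind_not]
  have hcard : (0 : ℝ) ≤ Fintype.card (Fin M → Cl n k) := Nat.cast_nonneg _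
  rw [mul_comm]
  refine mul_le_mul_of_nonneg_left ?_ hcard
  linarith

end Pool.Agent.TH661.LPY
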