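import Pool.Agent.TH661.LPY.Mod

/-!
Push-forward of averages over products along a balanced map; the parity is balanced.
-/

set_option autoImplicit false

namespace Pool.Agent.TH661.LPY

open Finset Pool.Agent.TH661.LPX

theorem av_comp_balanced {J B C : Type*} [Fintype J] [DecidableEq J] [Fintype B] [Fintype C]
    [DecidableEq C] [Nonempty B] (p : B → C)
    (hp : ∀ c c', (univ.filter fun b => p b = c).card = (univ.filter fun b => p b = c').card)
    (G : (J → C) → ℝ) :
    av (fun b : J → B => G (fun i => p (b i))) = av G := by
  classical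
  obtain ⟨b0⟩ := ‹Nonempty B›
  obtain ⟨N, hN⟩ : ∃ N, N = (univ.filter fun b => p b = p b0).card := ⟨_, rfl⟩
  have hN0 : 0 < N := by
    rw [hN]
    exact card_pos.mpr ⟨b0, by simp⟩
  have hf : ∀ c, (univ.filter fun b => p b = c).card = N := fun c => by
    rw [hN]
    exact hp _ _
  have hB : Fintype.card B = Fintype.card C * N := by
    have h := Finset.card_eq_sum_card_fiberwise (f := p) (s := (univ : Finset B))
      (t := (univ : Finset C)) (fun _ _ => by simp)
    rw [card_univ] at h
    rw [h, sum_congr rfl (fun c _ => hf c), sum_const, card_univ, smul_eq_mul]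
  have hfib : ∀ c : J → C,
      (univ.filter fun b : J → B => (fun i => p (b i)) = c).card = N ^ Fintype.card J := by
    intro c
    have e : (univ.filter fun b : J → B => (fun i => p (b i)) = c) =
        Fintype.piFinset (fun i => univ.filter fun x => p x = c i) := by
      ext b
      simp [funext_iff]
    rw [e, Fintype.card_piFinset, prod_congr rfl (fun i _ => hf (c i)), prod_const, card_univ]
  have hsum : ∑ b : J → B, G (fun i => p (b i)) = (N : ℝ) ^ Fintype.card J * ∑ c, G c := by
    rw [← Finset.sum_fiberwise univ (fun b : J → B => fun i => p (b i)), mul_sum]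
    refine sum_congr rfl fun c _ => ?_
    rw [sum_congr rfl (g := fun _ => G c) (fun b hb => by
      rw [mem_filter] at hb
      rw [hb.2]), sum_const, hfib, nsmul_eq_mul, Nat.cast_pow]
  unfold av
  rw [hsum, Fintype.card_fun, Fintype.card_fun, hB]
  push_cast
  rw [mul_pow, mul_comm ((Fintype.card C : ℝ) ^ _)]
  have hNR : ((N : ℝ) ^ Fintype.card J) ≠ 0 := pow_ne_zero _ (by exact_mod_cast hN0.ne')
  rw [mul_div_mul_left _ _ hNR]

theorem av_push {J A B C : Type*} [Fintype J] [DecidableEq J] [Fintype A] [Fintype B] [Fintype C]
    [DecidableEq C] [Nonempty A] [Nonempty B] [Nonempty C] (p : B → C)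
    (hp : ∀ c c', (univ.filter fun b => p b = c).card = (univ.filter fun b => p b = c').card)
    (F : (J → A) → (J → C) → ℝ) :
    av (fun ω : J → A × B => F (fun i => (ω i).1) (fun i => p (ω i).2))
      = av (fun H : J → A => av (fun σ : J → C => F H σ)) := by
  let e : (J → A × B) ≃ (J → A) × (J → B) :=
    { toFun := fun ω => (fun i => (ω i).1, fun i => (ω i).2)
      invFun := fun q i => (q.1 i, q.2 i)
      left_inv := fun _ => rfl
      right_inv := fun _ => rfl }
  have h := av_equiv e (fun q => F q.1 (fun i => p (q.2 i)))
  have h2 : av (fun ω : J → A × B => F (fun i => (ω i).1) (fun i => p (ω i).2)) =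
      av (fun q : (J → A) × (J → B) => F q.1 (fun i => p (q.2 i))) := h
  rw [h2, av_prod]
  exact av_congr fun H => av_comp_balanced p hp (F H)

/-- the sign vector with the sign at `j₀` changed -/
def flip5 {k : ℕ} (j₀ : Fin k) (s : Fin k → Bool) : Fin k → Bool :=
  Function.update s j₀ (!(s j₀))

theorem flip5_invol {k : ℕ} (j₀ : Fin k) : Function.Involutive (flip5 j₀) := by
  intro s
  simp [flip5]

theorem par_flip5 {k : ℕ} (j₀ : Fin k) (s : Fin k → Bool) : par (flip5 j₀ s) = !(par s) := by
  have key : ∀ s : Fin k → Bool, s j₀ = false → par (flip5 j₀ s) = !(par s) := by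
    intro s hs
    have e : (univ.filter fun j => flip5 j₀ s j = false) =
        (univ.filter fun j => s j = false).erase j₀ := by
      ext j
      rw [mem_filter, mem_erase, mem_filter]
      simp only [mem_univ, true_and]
      by_cases hj : j = j₀
      · subst hj
        simp [flip5, hs]
      · have hu : flip5 j₀ s j = s j := Function.update_of_ne hj _ _
        rw [hu]
        simp [hj]
    have hm : j₀ ∈ (univ.filter fun j => s j = false) := by simp [hs]
    have hc := Finset.card_erase_add_one hm
    unfold par
    rw [e, ← decide_not, decide_eq_decide, ← hc, Nat.even_add_one, not_not]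
  rcases Bool.eq_false_or_eq_true (s j₀) with hs | hs
  · have h := key (flip5 j₀ s) (by simp [flip5, hs])
    rw [flip5_invol j₀ s] at h
    rw [h]
    simp
  · exact key s hs

theorem par_balanced {k : ℕ} (hk : 1 ≤ k) (c c' : Bool) :
    (univ.filter fun s : Fin k → Bool => par s = c).card
      = (univ.filter fun s : Fin k → Bool => par s = c').card := by
  by_cases hc : c = c'
  · rw [hc]
  have hc' : c' = !c := by
    cases c <;> cases c' <;> simp_all
  rw [hc']
  refine Finset.card_bijective (flip5 ⟨0, hk⟩) (flip5_invol _).bijective ?_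
  intro s
  simp only [mem_filter, mem_univ, true_and]
  rw [par_flip5]
  simp

end Pool.Agent.TH661.LPY
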