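import Pool.Agent.TH661.LPX.Sel

/-!
The large class, the frames and the nonnegativity on the cones (helper969 for helper661; extracted
from the proof of `region_signs` in `LPX.Sel`).
-/

set_option autoImplicit false

namespace Pool.Agent.TH661.LPY

open Finset Pool.Agent.TH661.LPX

theorem region5 {X P : Type*} [Fintype X] [DecidableEq X] [Nonempty X] [Fintype P]
    [DecidableEq P] (β : X → P) {r D : ℕ} (s : Fin r → X → Fin (D + 1) → ℝ) :
    ∃ (q : P) (X2 : Finset X), (∀ x ∈ X2, β x = q) ∧
      (Fintype.card X : ℝ) ≤ 2 * Fintype.card P * X2.card ∧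
      (univ.filter fun x => β x = q).card ≤ 2 * X2.card ∧
      ∃ W : Fin r → Submodule ℝ (X → ℝ), (∀ j, Module.finrank ℝ (W j) ≤ D + 1) ∧
        ∀ (F : X → ℝ) (ε τ : ℝ), 0 < τ →
          (D + 1) * (2 * (r * (D + 1) + 1)) * Fintype.card P * τ ≤ ε →
          (∀ j, ∀ v ∈ box (W j), -τ ≤ av (fun x => v x * F x)) →
          ∀ (j : Fin r) (a : Fin (D + 1) → ℝ), (∀ x, 0 ≤ ∑ l, a l * s j x l) →
            0 ≤ ∑ x, ((if x ∈ X2 then F x else 0) + (if β x = q then ε else 0)) *
              ∑ l, a l * s j x l := by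
  -- a large class
  obtain ⟨q, hq⟩ : ∃ q : P, (Fintype.card X : ℝ) / Fintype.card P
      ≤ ((univ.filter fun x => β x = q).card : ℝ) := by
    by_contra hcon
    push Not at hcon
    have : Nonempty P := ⟨β (Classical.arbitrary _)⟩
    have h1 : ∑ q : P, ((univ.filter fun x => β x = q).card : ℝ)
        < ∑ _q : P, (Fintype.card X : ℝ) / Fintype.card P :=
      sum_lt_sum_of_nonempty univ_nonempty fun q _ => hcon q
    have h2 : ∑ q : P, ((univ.filter fun x => β x = q).card : ℝ)
        = Fintype.card X := by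
      rw [← Nat.cast_sum]
      congr 1
      rw [← card_univ (α := X)]
      exact (card_eq_sum_card_fiberwise fun x _ => mem_univ (β x)).symm
    have h3 : (Fintype.card P : ℝ) ≠ 0 := by exact_mod_cast Fintype.card_ne_zero
    rw [h2, sum_const, card_univ, nsmul_eq_mul] at h1
    field_simp at h1
    exact lt_irrefl _ h1
  set X1 : Finset X := univ.filter fun x => β x = q with hX1
  have hXpos : (0 : ℝ) < Fintype.card X := by
    exact_mod_cast Fintype.card_pos
  have hPpos : (0 : ℝ) < Fintype.card P := by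
    have : Nonempty P := ⟨q⟩
    exact_mod_cast Fintype.card_pos
  have hX1pos : (0 : ℝ) < X1.card := lt_of_lt_of_le (by positivity) hq
  have hX1ne : X1.Nonempty := card_pos.mp (by exact_mod_cast hX1pos)
  -- the frames
  choose b hb0 hbsum hbc using fun j => frame X1 hX1ne (s j)
  set Λ : ℝ := 2 * (r * (D + 1) + 1) with hΛ
  have hΛpos : 0 < Λ := by positivity
  have hΛ1 : 1 < Λ := by
    rw [hΛ]
    have : (0 : ℝ) ≤ r * (D + 1) := by positivity
    linarith
  set X2 : Finset X := X1.filter fun x => ∀ j i, b j i x ≤ Λ with hX2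
  have h21 : X2 ⊆ X1 := filter_subset _ _
  have hcard : X1.card ≤ 2 * X2.card := by
    have h1 : X1 \ X2 ⊆ (univ : Finset (Fin r × Fin (D + 1))).biUnion fun p =>
        X1.filter fun x => Λ < b p.1 p.2 x := by
      intro x hx
      have hx1 : x ∈ X1 := (mem_sdiff.mp hx).1
      have hx2 : x ∉ X2 := (mem_sdiff.mp hx).2
      rw [mem_biUnion]
      have h2 : ¬ ∀ j i, b j i x ≤ Λ := fun h => hx2 (mem_filter.mpr ⟨hx1, h⟩)
      push Not at h2
      obtain ⟨j, i, hj⟩ := h2
      exact ⟨(j, i), mem_univ _, mem_filter.mpr ⟨hx1, hj⟩⟩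
    have h3 : ∀ p : Fin r × Fin (D + 1),
        ((X1.filter fun x => Λ < b p.1 p.2 x).card : ℝ) * Λ ≤ X1.card := by
      intro p
      calc ((X1.filter fun x => Λ < b p.1 p.2 x).card : ℝ) * Λ
          = ∑ x ∈ X1.filter (fun x => Λ < b p.1 p.2 x), Λ := by rw [sum_const, nsmul_eq_mul]
        _ ≤ ∑ x ∈ X1.filter (fun x => Λ < b p.1 p.2 x), b p.1 p.2 x :=
            sum_le_sum fun x hx => (mem_filter.mp hx).2.le
        _ ≤ ∑ x ∈ X1, b p.1 p.2 x :=
            sum_le_sum_of_subset_of_nonneg (filter_subset _ _) fun x _ _ => hb0 _ _ x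
        _ ≤ X1.card := hbsum _ _
    have h5 : ((X1 \ X2).card : ℝ) * Λ ≤ (r * (D + 1)) * X1.card := by
      have h6 : ((X1 \ X2).card : ℝ) ≤
          ∑ p : Fin r × Fin (D + 1), ((X1.filter fun x => Λ < b p.1 p.2 x).card : ℝ) := by
        rw [← Nat.cast_sum]
        exact_mod_cast (card_le_card h1).trans card_biUnion_le
      calc ((X1 \ X2).card : ℝ) * Λ
          ≤ (∑ p : Fin r × Fin (D + 1), ((X1.filter fun x => Λ < b p.1 p.2 x).card : ℝ)) * Λ :=
            mul_le_mul_of_nonneg_right h6 hΛpos.le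
        _ = ∑ p : Fin r × Fin (D + 1),
            ((X1.filter fun x => Λ < b p.1 p.2 x).card : ℝ) * Λ := sum_mul _ _ _
        _ ≤ ∑ _p : Fin r × Fin (D + 1), (X1.card : ℝ) := sum_le_sum fun p _ => h3 p
        _ = (r * (D + 1)) * X1.card := by
            rw [sum_const, card_univ, Fintype.card_prod, Fintype.card_fin, Fintype.card_fin,
              nsmul_eq_mul]
            push_cast; ring
    have h7 : ((X1 \ X2).card : ℝ) + X2.card = X1.card := by
      exact_mod_cast card_sdiff_add_card_eq_card h21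
    have h8 : (2 : ℝ) * (X1 \ X2).card ≤ X1.card := by
      have h9 : (0 : ℝ) ≤ (X1 \ X2).card := Nat.cast_nonneg _
      have h10 : (0 : ℝ) ≤ r * (D + 1) := by positivity
      by_contra hcon
      rw [not_le] at hcon
      have h11 : (r * (D + 1) + 1 : ℝ) * X1.card < (r * (D + 1) + 1) * (2 * (X1 \ X2).card) :=
        mul_lt_mul_of_pos_left hcon (by positivity)
      rw [hΛ] at h5
      nlinarith
    have h12 : (X1.card : ℝ) ≤ 2 * X2.card := by linarith
    exact_mod_cast h12
  -- the spaces of test functions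
  let T : Fin r → (Fin (D + 1) → ℝ) →ₗ[ℝ] (X → ℝ) := fun j =>
    { toFun := fun a x => if x ∈ X2 then ∑ l, a l * s j x l else 0
      map_add' := by
        intro a a'
        funext x
        simp only [Pi.add_apply]
        split_ifs
        · rw [← sum_add_distrib]; exact sum_congr rfl fun l _ => by ring
        · ring
      map_smul' := by
        intro t a
        funext x
        simp only [Pi.smul_apply, smul_eq_mul, RingHom.id_apply]
        split_ifs
        · rw [mul_sum]; exact sum_congr rfl fun l _ => by ring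
        · ring }
  have hT : ∀ j a x, T j a x = if x ∈ X2 then ∑ l, a l * s j x l else 0 := fun j a x => rfl
  refine ⟨q, X2, fun x hx => (mem_filter.mp (h21 hx)).2, ?_, hcard,
    fun j => LinearMap.range (T j), ?_, ?_⟩
  · have h1 : (Fintype.card X : ℝ) ≤ X1.card * Fintype.card P := by
      rw [div_le_iff₀ hPpos] at hq; exact hq
    have h2 : (X1.card : ℝ) ≤ 2 * X2.card := by exact_mod_cast hcard
    nlinarith
  · intro j
    have h3 := LinearMap.finrank_range_le (T j)
    rw [Module.finrank_fin_fun] at h3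
    exact h3
  intro F ε τ hτ hτ2 hbox j a ha
  have hτX : Fintype.card X * ((D + 1) * Λ * τ) ≤ ε * X1.card := by
    have h1 : (Fintype.card X : ℝ) ≤ X1.card * Fintype.card P := by
      rw [div_le_iff₀ hPpos] at hq; exact hq
    have h2 : 0 ≤ (D + 1) * Λ * τ := by positivity
    calc Fintype.card X * ((D + 1) * Λ * τ)
        ≤ (X1.card * Fintype.card P) * ((D + 1) * Λ * τ) := mul_le_mul_of_nonneg_right h1 h2
      _ = X1.card * ((D + 1) * (2 * (r * (D + 1) + 1)) * Fintype.card P * τ) := by
          rw [hΛ]; ring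
      _ ≤ X1.card * ε := mul_le_mul_of_nonneg_left hτ2 hX1pos.le
      _ = ε * X1.card := mul_comm _ _
  -- sums against the functional
  have hgam : ∀ f : X → ℝ,
      ∑ x, ((if x ∈ X2 then F x else 0) + (if β x = q then ε else 0)) * f x
      = Fintype.card X * av (fun x => (if x ∈ X2 then f x else 0) * F x)
        + ε * ∑ x ∈ X1, f x := by
    intro f
    have h1 : Fintype.card X * av (fun x => (if x ∈ X2 then f x else 0) * F x)
        = ∑ x, (if x ∈ X2 then f x else 0) * F x := by
      unfold av; field_simp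
    have h2 : ε * ∑ x ∈ X1, f x = ∑ x, if β x = q then ε * f x else 0 := by
      rw [mul_sum, ← sum_filter]
    rw [h1, h2, ← sum_add_distrib]
    refine sum_congr rfl fun x _ => ?_
    split_ifs <;> ring
  obtain ⟨cc, hcc1, hcc2, hcc3⟩ := hbc j a fun x _ => ha x
  set Sa : ℝ := ∑ x ∈ X1, ∑ l, a l * s j x l with hSa
  rcases (sum_nonneg fun x (_ : x ∈ X1) => ha x).lt_or_eq with hpos | hzero
  · set Aa : ℝ := Sa / X1.card with hAa
    have hAa0 : 0 < Aa := div_pos hpos hX1pos
    have hSaA : Sa = Aa * X1.card := by rw [hAa]; field_simp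
    have hbig : 0 < Aa * ((D + 1) * Λ) := by positivity
    -- the function is bounded
    have hbd : ∀ x ∈ X2, ∑ l, a l * s j x l ≤ Aa * ((D + 1) * Λ) := by
      intro x hx
      rw [hcc3 x (h21 hx)]
      calc ∑ i, cc i * b j i x ≤ ∑ _i : Fin (D + 1), Aa * Λ := by
            refine sum_le_sum fun i _ => ?_
            have h2 : cc i ≤ Aa := by
              rw [hAa, le_div_iff₀ hX1pos]
              exact le_trans (mul_le_mul_of_nonneg_right (le_abs_self _) hX1pos.le) (hcc1 i)
            calc cc i * b j i x ≤ Aa * b j i x := mul_le_mul_of_nonneg_right h2 (hb0 _ _ _)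
              _ ≤ Aa * Λ := mul_le_mul_of_nonneg_left ((mem_filter.mp hx).2 _ _) hAa0.le
        _ = Aa * ((D + 1) * Λ) := by
            rw [sum_const, card_univ, Fintype.card_fin, nsmul_eq_mul]
            push_cast; ring
    have h2 := hbox j ((1 / (Aa * ((D + 1) * Λ))) • T j a)
      ⟨Submodule.smul_mem _ _ (LinearMap.mem_range_self _ _), fun x => by
        rw [Pi.smul_apply, smul_eq_mul, hT, one_div_mul_eq_div]
        split_ifs with hx
        · exact ⟨div_nonneg (ha x) hbig.le, div_le_one_of_le₀ (hbd x hx) hbig.le⟩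
        · rw [zero_div]; exact ⟨le_refl _, zero_le_one⟩⟩
    have h3 : av (fun x => ((1 / (Aa * ((D + 1) * Λ))) • T j a) x * F x)
        = (1 / (Aa * ((D + 1) * Λ))) *
          av (fun x => (if x ∈ X2 then ∑ l, a l * s j x l else 0) * F x) := by
      rw [← av_mul_left]
      refine av_congr fun x => ?_
      rw [Pi.smul_apply, smul_eq_mul, hT]; ring
    rw [h3, one_div_mul_eq_div, le_div_iff₀ hbig] at h2
    rw [hgam, ← hSa, hSaA]
    have h9 : Fintype.card X * (-τ * (Aa * ((D + 1) * Λ)))
        ≤ Fintype.card X *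
          av (fun x => (if x ∈ X2 then ∑ l, a l * s j x l else 0) * F x) :=
      mul_le_mul_of_nonneg_left h2 hXpos.le
    have h10 : Fintype.card X * (-τ * (Aa * ((D + 1) * Λ)))
        = - (Aa * (Fintype.card X * ((D + 1) * Λ * τ))) := by ring
    have h11 := mul_le_mul_of_nonneg_left hτX hAa0.le
    rw [h10] at h9
    calc (0 : ℝ) ≤ -(Aa * (Fintype.card X * ((D + 1) * Λ * τ)))
          + Aa * (ε * X1.card) := by linarith
      _ ≤ _ := by linarith
  · have h2 : ∀ x ∈ X1, ∑ l, a l * s j x l = 0 :=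
      (sum_eq_zero_iff_of_nonneg fun x _ => ha x).mp hzero.symm
    refine le_of_eq (sum_eq_zero fun x _ => ?_).symm
    by_cases hx : x ∈ X1
    · rw [h2 x hx, mul_zero]
    · have h3 : x ∉ X2 := fun h => hx (h21 h)
      have h4 : ¬ β x = q := fun h => hx (mem_filter.mpr ⟨mem_univ _, h⟩)
      rw [if_neg h3, if_neg h4, add_zero, zero_mul]

end Pool.Agent.TH661.LPY
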