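import Pool.Agent.TH661.LPY.Ch5
import Pool.Agent.TH661.LPY.Mod
import Pool.Agent.TH661.LPY.Mo5

/-!
Second moments.
-/

set_option autoImplicit false

namespace Pool.Agent.TH661.LPY

open Finset Pool.Agent.TH661.LPX

theorem pair5 {X A J : Type*} [Fintype X] [Fintype J] [DecidableEq J] (y : A → X → ℝ)
    (ω : J → A) (L : ℕ) (i : J) (v : X → ℝ) (hv : ∀ x, v x * y (ω i) x = - v x) :
    av (fun x => v x * DL y ω L x)
      = ∑ E ∈ univ.filter (fun E : Finset J => i ∉ E ∧ E.card = L), co y ω v E := by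
  have h1 : av (fun x => v x * DL y ω L x)
      = ∑ E ∈ univ.filter (fun E : Finset J => E.card ≤ L), co y ω v E := by
    unfold DL co
    rw [← av_sum]
    exact av_congr fun x => by rw [mul_sum]
  have h2 : ∀ E : Finset J, i ∉ E → co y ω v (insert i E) = - co y ω v E := by
    intro E hi
    unfold co
    rw [← av_neg]
    refine av_congr fun x => ?_
    unfold Y
    rw [prod_insert hi, ← mul_assoc, hv]
    ring
  rw [h1, ← sum_filter_add_sum_filter_not _ (fun E => i ∈ E), filter_filter, filter_filter]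
  have h3 : ∑ E ∈ univ.filter (fun E : Finset J => E.card ≤ L ∧ i ∈ E), co y ω v E
      = - ∑ E ∈ univ.filter (fun E : Finset J => i ∉ E ∧ E.card + 1 ≤ L), co y ω v E := by
    rw [← sum_neg_distrib]
    refine sum_nbij' (fun E => E.erase i) (fun E => insert i E) ?_ ?_ ?_ ?_ ?_
    · intro E hE
      rw [mem_filter] at hE ⊢
      obtain ⟨-, h4, h5⟩ := hE
      refine ⟨mem_univ _, notMem_erase _ _, ?_⟩
      rw [card_erase_add_one h5]
      exact h4
    · intro E hE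
      rw [mem_filter] at hE ⊢
      obtain ⟨-, h4, h5⟩ := hE
      refine ⟨mem_univ _, ?_, mem_insert_self _ _⟩
      rw [card_insert_of_notMem h4]
      exact h5
    · intro E hE
      rw [mem_filter] at hE
      exact insert_erase hE.2.2
    · intro E hE
      rw [mem_filter] at hE
      exact erase_insert hE.2.1
    · intro E hE
      rw [mem_filter] at hE
      rw [← h2 _ (notMem_erase _ _), insert_erase hE.2.2]
  have h4 : ∑ E ∈ univ.filter (fun E : Finset J => E.card ≤ L ∧ i ∉ E), co y ω v E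
      = ∑ E ∈ univ.filter (fun E : Finset J => i ∉ E ∧ E.card + 1 ≤ L), co y ω v E
        + ∑ E ∈ univ.filter (fun E : Finset J => i ∉ E ∧ E.card = L), co y ω v E := by
    rw [← sum_filter_add_sum_filter_not (univ.filter (fun E : Finset J => E.card ≤ L ∧ i ∉ E))
      (fun E => E.card + 1 ≤ L), filter_filter, filter_filter]
    congr 1
    · refine sum_congr (filter_congr fun E _ => ?_) fun _ _ => rfl
      constructor
      · rintro ⟨⟨_, h5⟩, h6⟩
        exact ⟨h5, h6⟩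
      · rintro ⟨h5, h6⟩
        exact ⟨⟨by omega, h5⟩, h6⟩
    · refine sum_congr (filter_congr fun E _ => ?_) fun _ _ => rfl
      constructor
      · rintro ⟨⟨h4, h5⟩, h6⟩
        exact ⟨h5, by omega⟩
      · rintro ⟨h5, h6⟩
        exact ⟨⟨by omega, h5⟩, by omega⟩
  rw [h3, h4]
  ring

/-- Orthogonality of the characters. -/
theorem av_ch_mul {J : Type*} [Fintype J] [DecidableEq J] (E E' : Finset J) :
    av (fun σ : J → Bool => (∏ i ∈ E, sg (σ i)) * ∏ i ∈ E', sg (σ i)) = if E = E' then 1 else 0 := by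
  have h1 : ∀ σ : J → Bool, (∏ i ∈ E, sg (σ i)) * ∏ i ∈ E', sg (σ i)
      = ∏ i ∈ symmDiff E E', sg (σ i) := by
    intro σ
    exact (ch_symmDiff E E' σ).symm
  rw [av_congr h1]
  by_cases h : E = E'
  · subst h
    rw [if_pos rfl, symmDiff_self]
    simp only [bot_eq_empty, prod_empty]
    exact av_const 1
  · rw [if_neg h, av_pi_subset (symmDiff E E') (fun _ b => sg b)]
    obtain ⟨i, hi⟩ : (symmDiff E E').Nonempty := by
      rw [nonempty_iff_ne_empty]
      intro h2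
      exact h (symmDiff_eq_bot.1 h2)
    exact prod_eq_zero hi av_sg

theorem av_sq_sum {J : Type*} [Fintype J] [DecidableEq J] (𝓔 : Finset (Finset J))
    (a : Finset J → ℝ) :
    av (fun σ : J → Bool => (∑ E ∈ 𝓔, (∏ i ∈ E, sg (σ i)) * a E) ^ 2) = ∑ E ∈ 𝓔, a E ^ 2 := by
  have h1 : ∀ σ : J → Bool, (∑ E ∈ 𝓔, (∏ i ∈ E, sg (σ i)) * a E) ^ 2
      = ∑ E ∈ 𝓔, ∑ E' ∈ 𝓔, (a E * a E') * ((∏ i ∈ E, sg (σ i)) * ∏ i ∈ E', sg (σ i)) := by
    intro σ
    rw [sq, sum_mul_sum]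
    exact sum_congr rfl fun E _ => sum_congr rfl fun E' _ => by ring
  rw [av_congr h1, av_sum]
  refine sum_congr rfl fun E hE => ?_
  rw [av_sum]
  have h2 : ∀ E' ∈ 𝓔, av (fun σ : J → Bool =>
      (a E * a E') * ((∏ i ∈ E, sg (σ i)) * ∏ i ∈ E', sg (σ i)))
      = if E = E' then a E * a E' else 0 := by
    intro E' _
    rw [av_mul_left, av_ch_mul]
    split_ifs <;> ring
  rw [sum_congr rfl h2, sum_ite_eq, if_pos hE, sq]

theorem second5 {n k m : ℕ} (hm : 0 < m) (hmn : 2 * (k * m) ≤ n) (hk : 3 ≤ k)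
    (hTup : (n : ℝ) ^ k ≤ 2 * Fintype.card (Tup n k)) {J : Type*}
    [DecidableEq J] [Fintype J] [Nonempty (Tup n k)] {L t' q : ℕ} {lam U : ℝ} (hq : 1 ≤ q)
    (hkL : k * L ≤ t') (hlam : (t' : ℝ) ≤ lam * (k * m)) (hU0 : 0 ≤ U)
    (hU : lam ^ ((k - 1) * q - 1) ≤ U ^ (2 * q))
    (b : (Fin n → Bool) → ℝ)
    (hW : ∀ l : ℕ, 0 < l → l ≤ L →
      ∑ S : Finset (Fin n), ((k : ℝ) * l / t') ^ S.card * fI b S ^ 2 ≤ 4 ^ (k * l))
    (𝓔 : Finset (Finset J)) (h𝓔 : ∀ E ∈ 𝓔, 0 < E.card ∧ E.card ≤ L) {θ : ℝ} (hθ : 0 < θ) :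
    av (fun H : J → Tup n k => av (fun σ : J → Bool => ind ((∀ E ∈ 𝓔, ex im q H E) ∧
      θ < |∑ E ∈ 𝓔, co (ye im) (prs H σ) b E|)))
      ≤ (∑ E ∈ 𝓔, mbd k m lam U E.card) / θ ^ 2 := by
  have hθ2 : 0 < θ ^ 2 := by positivity
  have h1 : ∀ H : J → Tup n k, av (fun σ : J → Bool => ind ((∀ E ∈ 𝓔, ex im q H E) ∧
      θ < |∑ E ∈ 𝓔, co (ye im) (prs H σ) b E|))
      ≤ (1 / θ ^ 2) * ∑ E ∈ 𝓔, ind (ex im q H E) * fI b (so im H E) ^ 2 := by
    intro H
    by_cases hH : ∀ E ∈ 𝓔, ex im q H E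
    · have h2 : ∀ σ : J → Bool, ind ((∀ E ∈ 𝓔, ex im q H E) ∧
          θ < |∑ E ∈ 𝓔, co (ye im) (prs H σ) b E|)
          ≤ ind (θ ^ 2 < (∑ E ∈ 𝓔, (∏ i ∈ E, sg (σ i)) * fI b (so im H E)) ^ 2) := by
        intro σ
        refine ind_mono fun h => ?_
        have h3 := h.2
        rw [sum_congr rfl fun E _ => co_prs im H σ b E] at h3
        rw [← sq_abs (∑ E ∈ 𝓔, (∏ i ∈ E, sg (σ i)) * fI b (so im H E))]
        exact pow_lt_pow_left₀ h3 hθ.le two_ne_zero
      refine (av_mono h2).trans ?_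
      refine (av_ind_lt_le (fun σ => sq_nonneg _) hθ2).trans ?_
      rw [av_sq_sum 𝓔 (fun E => fI b (so im H E)), div_eq_mul_one_div, mul_comm]
      refine mul_le_mul_of_nonneg_left (le_of_eq ?_) (by positivity)
      refine sum_congr rfl fun E hE => ?_
      rw [ind_true (hH E hE), one_mul]
    · have h2 : ∀ σ : J → Bool, ind ((∀ E ∈ 𝓔, ex im q H E) ∧
          θ < |∑ E ∈ 𝓔, co (ye im) (prs H σ) b E|) ≤ 0 := by
        intro σ
        rw [ind_false (fun h => hH h.1)]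
      refine (av_le_const h2).trans ?_
      exact mul_nonneg (by positivity)
        (sum_nonneg fun E _ => mul_nonneg (ind_nonneg _) (sq_nonneg (fI b (so im H E))))
  refine (av_mono h1).trans ?_
  have h5 : (∑ E ∈ 𝓔, mbd k m lam U E.card) / θ ^ 2
      = (1 / θ ^ 2) * ∑ E ∈ 𝓔, mbd k m lam U E.card := by ring
  rw [av_mul_left, av_sum, h5]
  refine mul_le_mul_of_nonneg_left (sum_le_sum fun E hE => ?_) (by positivity)
  exact mom5 hm hmn hk hTup hq hkL hlam hU0 hU (fun S => fI b S ^ 2)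
    (fun S => sq_nonneg (fI b S)) hW
    (h𝓔 E hE).1 (h𝓔 E hE).2

end Pool.Agent.TH661.LPY
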