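import Pool.Agent.TH661.LPY.Ex5
import Pool.Agent.TH661.LPY.Sec5
import Pool.Agent.TH661.LPY.Chf5
import Pool.Agent.TH661.LPY.Det7
import Pool.Agent.TH661.LPY.Num5
import Pool.Agent.TH661.LPY.Push5
import Pool.Agent.TH661.LPY.Reg5
import Pool.Agent.TH661.LPX.NumS

/-!
Random clauses: the probability that the formula is bad.
-/

set_option autoImplicit false

namespace Pool.Agent.TH661.LPY

open Finset Pool.Agent.TH661.LPX

theorem av_le_of_ind_sum {α : Type*} [Fintype α] {p : α → Prop} {f : α → ℝ} {c : ℝ}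
    (h : ∀ a, ind (p a) ≤ f a) (hf : av f ≤ c) : av (fun a => ind (p a)) ≤ c :=
  (av_mono h).trans hf

/-- The pushforward to the random tuples and random signs. -/
theorem av_frm {n k M : ℕ} (hk : 1 ≤ k) [Nonempty (Tup n k)]
    (F : (Fin M → Tup n k) → (Fin M → Bool) → ℝ) :
    av (fun ω : Fin M → Cl n k => F (fun i => (ω i).1) (fun i => par (ω i).2))
      = av (fun H : Fin M → Tup n k => av (fun σ : Fin M → Bool => F H σ)) :=
  av_push par (par_balanced hk) F

/-- The event of a nonzero signed sum at one clause. -/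
theorem clause5 {n k M : ℕ} (hk : 1 ≤ k) [Nonempty (Tup n k)] (i : Fin M)
    (G : Cl n k → (Fin M → Tup n k) → (Fin M → Bool) → ℝ)
    (hG : ∀ c H H' σ σ', (∀ j, j ≠ i → H j = H' j) → (∀ j, j ≠ i → σ j = σ' j) →
      G c H σ = G c H' σ') {p : ℝ}
    (hp : ∀ c, av (fun H : Fin M → Tup n k => av (fun σ : Fin M → Bool => G c H σ)) ≤ p) :
    av (fun ω : Fin M → Cl n k => G (ω i) (fun i => (ω i).1) (fun i => par (ω i).2)) ≤ p := by
  have h1 := av_indep (J := Fin M) (A := Cl n k) i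
    (fun c ω => G c (fun i => (ω i).1) (fun i => par (ω i).2)) (fun c ω ω' h =>
      hG c _ _ _ _ (fun j hj => by simp only [h j hj]) (fun j hj => by simp only [h j hj]))
  rw [h1]
  refine av_le_const fun c => ?_
  rw [av_frm hk (fun H σ => G c H σ)]
  exact hp c

/-- The signed sums of the correlations do not depend on the other coordinates. -/
theorem co_prs_congr {n k M : ℕ} (b : (Fin n → Bool) → ℝ) {H H' : Fin M → Tup n k}
    {σ σ' : Fin M → Bool} {E : Finset (Fin M)} (hH : ∀ i ∈ E, H i = H' i)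
    (hσ : ∀ i ∈ E, σ i = σ' i) : co (ye im) (prs H σ) b E = co (ye im) (prs H' σ') b E := by
  refine co_congr (fun i hi => ?_) b
  unfold prs
  rw [hH i hi, hσ i hi]

open Classical in
/-- The probability that a random formula is bad. -/
theorem prob5 {n k m M b r D t K : ℕ} {κ η : ℝ} (hk : 3 ≤ k) (hM : 0 < M)
    (ht : 1 ≤ t) (hm : 0 < m) (hmn : 2 * (k * m) ≤ n) (hK : 1 ≤ K)
    (hTup : (n : ℝ) ^ k ≤ 2 * Fintype.card (Tup n k)) [Nonempty (Tup n k)]
    (hκ0 : 0 < κ) (hκ1 : κ ≤ 1 / 2) (hη : 0 ≤ η)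
    (hch : 2 ^ n * Real.exp (-(η ^ 2 * M / 2 ^ (k + 1))) ≤ κ)
    (p : Par5 k m M D (3 * t) K κ) (hsize : 2 ^ b * (r * (D + 1) + 1) ≤ 2 ^ t)
    (P : ConicProgram b r (D + 1)) (y : (Fin n → Bool) → Fin P.d → ℝ)
    (hy : ∀ x, P.Feasible (y x)) :
    av (fun ω : Fin M → Cl n k => ind (¬ ((∀ x, (satCount (frm ω) x : ℝ)
      ≤ (1 - (1 - η) / 2 ^ k) * M) ∧
      ∃ z, P.Feasible z ∧ ∀ (w : ℕ → ℝ) (a : (Fin P.d → ℝ) × ℝ),
        (∀ x, aff a (y x) = wsat (frm ω) w x) →
        |aff a z - ∑ i ∈ range M, w i| ≤ (∑ i ∈ range M, |w i|) / 4 ^ t))) ≤ 8 * κ := by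
  have hkR : (0 : ℝ) < k := by exact_mod_cast (by omega : 0 < k)
  have hmR : (0 : ℝ) < m := by exact_mod_cast hm
  have : Nonempty (Fin M) := ⟨⟨0, hM⟩⟩
  have hn2t : (0 : ℝ) < 2 ^ t := by positivity
  have hb2 : 2 ^ b ≤ 2 ^ t := le_trans (Nat.le_mul_of_pos_right _ (by positivity)) hsize
  have hb2R : (2 : ℝ) ^ b ≤ 2 ^ t := by exact_mod_cast hb2
  -- the region
  obtain ⟨q, X2, hX2, hX2c, hX1c, W, hW, hreg⟩ := region5
    (fun x i => decide (aff (P.bin i) (y x) = 1))
    (fun (j : Fin r) x l => aff (P.map j l) (y x))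
  set L := p.L1 + p.f with hL
  have hkL := p.hkL
  have hXpos : (0 : ℝ) < Fintype.card (Fin n → Bool) := by exact_mod_cast Fintype.card_pos
  have hcardP : (Fintype.card (Fin b → Bool) : ℝ) = 2 ^ b := by
    rw [Fintype.card_fun, Fintype.card_fin, Fintype.card_bool]; push_cast; ring
  have hX2pos : (0 : ℝ) < X2.card := by
    by_contra hcon
    have h0 : (X2.card : ℝ) = 0 := le_antisymm (not_lt.mp hcon) (Nat.cast_nonneg _)
    rw [h0, mul_zero] at hX2c
    linarith
  -- the indicator of the region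
  set v0 : (Fin n → Bool) → ℝ := fun x => if x ∈ X2 then 1 else 0 with hv0
  have hv0a : ∀ x, 0 ≤ v0 x := fun x => by rw [hv0]; simp only; split_ifs <;> norm_num
  have hv0b : ∀ x, v0 x ≤ 1 := fun x => by rw [hv0]; simp only; split_ifs <;> norm_num
  have hsumv : ∀ g : (Fin n → Bool) → ℝ, Fintype.card (Fin n → Bool) * av (fun x => v0 x * g x)
      = ∑ x ∈ X2, g x := by
    intro g
    unfold av
    rw [mul_div_cancel₀ _ hXpos.ne']
    rw [hv0]
    simp only [ite_mul, one_mul, zero_mul]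
    rw [← sum_filter]
    congr 1; ext x; simp
  set μ : ℝ := av v0 with hμ
  have hμX : Fintype.card (Fin n → Bool) * μ = X2.card := by
    have h1 := hsumv (fun _ => 1)
    simp only [mul_one] at h1
    rw [hμ, h1]; simp
  have hμ0 : 0 < μ := by
    by_contra hcon
    have h1 : Fintype.card (Fin n → Bool) * μ ≤ 0 :=
      mul_nonpos_of_nonneg_of_nonpos hXpos.le (not_lt.mp hcon)
    linarith
  have hμ2 : 1 ≤ 2 ^ (t + 1) * μ := by
    have h1 : (Fintype.card (Fin n → Bool) : ℝ) * 1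
        ≤ Fintype.card (Fin n → Bool) * (2 ^ (t + 1) * μ) := by
      calc (Fintype.card (Fin n → Bool) : ℝ) * 1 ≤ 2 * 2 ^ b * X2.card := by
            rw [mul_one, ← hcardP]; exact hX2c
        _ ≤ 2 * 2 ^ t * X2.card := by gcongr
        _ = Fintype.card (Fin n → Bool) * (2 ^ (t + 1) * μ) := by rw [← hμX, pow_succ]; ring
    exact le_of_mul_le_mul_left h1 hXpos
  -- the weights
  have hρ : ∀ l : ℕ, 0 < l → l ≤ L → (0 : ℝ) < p.t' ∧ (0 : ℝ) ≤ (k : ℝ) * l / p.t' ∧
      (k : ℝ) * l / p.t' ≤ 1 := by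
    intro l hl hlL
    have h1 : k * l ≤ p.t' := (Nat.mul_le_mul_left k hlL).trans hkL
    have h2 : 0 < p.t' := lt_of_lt_of_le (Nat.mul_pos (by omega) hl) h1
    have h3 : (0 : ℝ) < p.t' := by exact_mod_cast h2
    refine ⟨h3, by positivity, ?_⟩
    rw [div_le_one h3]
    exact_mod_cast h1
  set bb : (Fin n → Bool) → ℝ := fun x => (1 / μ) * v0 x with hbb
  have hbb0 : ∀ x, 0 ≤ bb x := fun x => mul_nonneg (by positivity) (hv0a x)
  have hbb1 : ∀ x, bb x ≤ 2 ^ p.t' := by
    intro x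
    have h1 : 1 / μ ≤ 2 ^ (t + 1) := by rw [div_le_iff₀ hμ0]; exact hμ2
    have h2 : (2 : ℝ) ^ (t + 1) ≤ 2 ^ p.t' :=
      pow_le_pow_right₀ (by norm_num) (by have := p.htt; omega)
    calc bb x ≤ (1 / μ) * 1 := mul_le_mul_of_nonneg_left (hv0b x) (by positivity)
      _ ≤ 2 ^ p.t' := by rw [mul_one]; exact h1.trans h2
  have hbbav : av bb = 1 := by
    rw [hbb, av_mul_left, ← hμ]; field_simp
  have hWbb : ∀ l : ℕ, 0 < l → l ≤ L →
      ∑ S : Finset (Fin n), ((k : ℝ) * l / p.t') ^ S.card * fI bb S ^ 2 ≤ 4 ^ (k * l) := by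
    intro l hl hlL
    obtain ⟨h1, h2, h3⟩ := hρ l hl hlL
    refine (fI_weight_density h2 h3 hbb0 hbb1 hbbav).trans (le_of_eq ?_)
    rw [← Real.rpow_natCast 2 p.t', ← Real.rpow_mul (by norm_num),
      ← Real.rpow_natCast 4 (k * l), show (4 : ℝ) = 2 ^ (2 : ℝ) by norm_num,
      ← Real.rpow_mul (by norm_num)]
    congr 1
    push_cast; field_simp
  -- the events
  let A2 : (Fin M → Tup n k) → Prop := fun H => ∃ E : Finset (Fin M), E.Nonempty ∧ E.card ≤ L ∧
    K * (so im H E).card < (K - 1) * E.card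
  let A3 : (Fin M → Tup n k) → (Fin M → Bool) → Prop := fun H σ => ∃ j, ∃ v ∈ box (W j),
    av (fun x => v x * DL (ye im) (prs H σ) L x) < - (p.δ * NL (Fin M) L) - p.τ
  let 𝓔 : Finset (Finset (Fin M)) := univ.filter fun E => 0 < E.card ∧ E.card ≤ L
  let 𝓔i : Fin M → Finset (Finset (Fin M)) := fun i => univ.filter fun E => i ∉ E ∧ E.card = L
  let A4 : (Fin M → Tup n k) → (Fin M → Bool) → Prop := fun H σ => (∀ E ∈ 𝓔, ex im K H E) ∧
    1 / 2 < |∑ E ∈ 𝓔, co (ye im) (prs H σ) bb E|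
  let θ : ℝ := 1 / 2 ^ (3 * (3 * t) + 6)
  let A5 : Fin M → Cl n k → (Fin M → Tup n k) → (Fin M → Bool) → Prop := fun i c H σ =>
    (∀ E ∈ 𝓔i i, ex im K H E) ∧
    θ < |∑ E ∈ 𝓔i i, co (ye im) (prs H σ) (fun x => v0 x * fa c x) E|
  have hθ0 : 0 < θ := by positivity
  have hL1 : 1 ≤ L := by have := p.hL1; omega
  -- the probabilities
  have hp1 := chernoff5 (n := n) (k := k) (M := M) hη
  have hp2 : av (fun ω : Fin M → Cl n k => ind (A2 (fun i => (ω i).1))) ≤ 2 * κ := by
    rw [av_frm (by omega) (fun H _ => ind (A2 H))]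
    have h1 : ∀ H : Fin M → Tup n k, av (fun _ : Fin M → Bool => ind (A2 H)) = ind (A2 H) :=
      fun H => av_const _
    rw [av_congr h1]
    have hLm : (L : ℝ) ≤ p.lam * m := by
      have h1 : (k : ℝ) * L ≤ p.t' := by exact_mod_cast hkL
      have h2 := p.hlam
      have h3 : (k : ℝ) * L ≤ k * (p.lam * m) := by linarith
      exact le_of_mul_le_mul_left h3 hkR
    exact exp_prob5 (J := Fin M) (n := n) (k := k) hm hmn hk hTup hK hLm p.hlam1 p.hV0 p.hV
      (by rw [Fintype.card_fin]; exact p.hκ) hκ0.le hκ1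
  have hp3 : av (fun ω : Fin M → Cl n k =>
      ind (A3 (fun i => (ω i).1) (fun i => par (ω i).2))) ≤ 3 * κ := by
    rw [av_frm (by omega) (fun H σ => ind (A3 H σ))]
    have h1 := good5 (J := Fin M) (V := Fin r) (D := D) hm hmn hk hTup W hW
      (L := L) (f := p.f) (L1 := p.L1) p.hN hL p.hδ p.hτ hK hkL p.hlam p.hlam1 p.hU0 p.hU p.hV0
      p.hV (by rw [Fintype.card_fin]; exact p.hκ) hκ0.le hκ1 p.hG p.hW0 p.hW1 p.hs1 p.hs2
      (by rw [Fintype.card_fin]; exact p.hX) p.hX1 (by rw [Fintype.card_fin]; exact p.hY) p.hY1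
      p.hXY
    rw [Fintype.card_fin] at h1
    have h2 := p.hfail r (by
      have h3 : r * (D + 2) ≤ 2 * (r * (D + 1)) := by
        have : r * (D + 2) ≤ r * (2 * (D + 1)) := Nat.mul_le_mul_left _ (by omega)
        calc r * (D + 2) ≤ r * (2 * (D + 1)) := this
          _ = 2 * (r * (D + 1)) := by ring
      have h4 : r * (D + 1) + 1 ≤ 2 ^ t :=
        le_trans (Nat.le_mul_of_pos_left _ (by positivity)) hsize
      have h5 : 2 ^ t ≤ 2 ^ (3 * t) := Nat.pow_le_pow_right (by norm_num) (by omega)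
      omega)
    refine h1.trans ?_
    linarith
  have hp4 : av (fun ω : Fin M → Cl n k =>
      ind (A4 (fun i => (ω i).1) (fun i => par (ω i).2))) ≤ κ := by
    rw [av_frm (by omega) (fun H σ => ind (A4 H σ))]
    have h1 := second5 (J := Fin M) hm hmn hk hTup hK hkL p.hlam p.hU0 p.hU bb hWbb 𝓔
      (fun E hE => (mem_filter.mp hE).2) (θ := 1 / 2) (by norm_num)
    refine h1.trans ?_
    have h2 := p.hZ
    rw [div_le_iff₀ (by norm_num)]
    have h3 : (κ : ℝ) * (1 / 2) ^ 2 = κ / 4 := by ring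
    rw [h3]
    linarith
  have hp5 : ∀ i, av (fun ω : Fin M → Cl n k =>
      ind (A5 i (ω i) (fun i => (ω i).1) (fun i => par (ω i).2))) ≤ κ / M := by
    intro i
    refine clause5 (by omega) i (fun c H σ => ind (A5 i c H σ)) ?_ ?_
    · intro c H H' σ σ' hH hσ
      have hE : ∀ E ∈ 𝓔i i, ∀ j ∈ E, j ≠ i := fun E hE j hj h =>
        (mem_filter.mp hE).2.1 (h ▸ hj)
      have h1 : ∀ E ∈ 𝓔i i, (ex im K H E ↔ ex im K H' E) := fun E hE' =>
        ex_congr im fun j hj => hH j (hE E hE' j hj)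
      have h2 : ∑ E ∈ 𝓔i i, co (ye im) (prs H σ) (fun x => v0 x * fa c x) E
          = ∑ E ∈ 𝓔i i, co (ye im) (prs H' σ') (fun x => v0 x * fa c x) E :=
        sum_congr rfl fun E hE' => co_prs_congr _ (fun j hj => hH j (hE E hE' j hj))
          (fun j hj => hσ j (hE E hE' j hj))
      congr 1
      refine propext ⟨fun h => ⟨fun E hE' => (h1 E hE').mp (h.1 E hE'), ?_⟩,
        fun h => ⟨fun E hE' => (h1 E hE').mpr (h.1 E hE'), ?_⟩⟩
      · rw [← h2]; exact h.2
      · rw [h2]; exact h.2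
    · intro c
      have hfa0 : ∀ x, 0 ≤ v0 x * fa c x := fun x => mul_nonneg (hv0a x) (ind_nonneg _)
      have hfa1 : ∀ x, v0 x * fa c x ≤ 1 := fun x =>
        mul_le_one₀ (hv0b x) (ind_nonneg _) (ind_le_one _)
      have h1 := second5 (J := Fin M) hm hmn hk hTup hK hkL p.hlam p.hU0 p.hU
        (fun x => v0 x * fa c x) (fun l hl hlL => by
          obtain ⟨h1, h2, h3⟩ := hρ l hl hlL
          exact (fI_weight_le_one h2 h3 hfa0 hfa1).trans (one_le_pow₀ (by norm_num)))
        (𝓔i i) (fun E hE => by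
          have h3 := (mem_filter.mp hE).2.2
          omega) hθ0
      refine h1.trans ?_
      have h2 : ∑ E ∈ 𝓔i i, mbd k m p.lam p.U E.card ≤
          ∑ E ∈ univ.filter (fun E : Finset (Fin M) => E.card = p.L1 + p.f),
            mbd k m p.lam p.U E.card := by
        refine sum_le_sum_of_subset_of_nonneg ?_ ?_
        · intro E hE
          rw [mem_filter] at hE ⊢
          exact ⟨mem_univ _, hE.2.2⟩
        · intro E _ _
          have h4 := p.hU0
          have h5 := p.hlam0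
          unfold mbd
          split_ifs <;> positivity
      have h3 := p.hB
      have hMR : (0 : ℝ) < M := by exact_mod_cast hM
      rw [div_le_div_iff₀ (by positivity) hMR]
      have h4 : θ ^ 2 = 1 / (2 ^ (3 * (3 * t) + 6)) ^ 2 := by
        change (1 / (2 : ℝ) ^ (3 * (3 * t) + 6)) ^ 2 = _
        rw [div_pow, one_pow]
      rw [h4, mul_one_div, le_div_iff₀ (by positivity)]
      calc (∑ E ∈ 𝓔i i, mbd k m p.lam p.U E.card) * M * (2 ^ (3 * (3 * t) + 6)) ^ 2
          ≤ (∑ E ∈ univ.filter (fun E : Finset (Fin M) => E.card = p.L1 + p.f),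
            mbd k m p.lam p.U E.card) * M * (2 ^ (3 * (3 * t) + 6)) ^ 2 := by gcongr
        _ = M * (2 ^ (3 * (3 * t) + 6)) ^ 2 * (∑ E ∈ univ.filter
            (fun E : Finset (Fin M) => E.card = p.L1 + p.f), mbd k m p.lam p.U E.card) := by ring
        _ ≤ κ := h3
  -- the conclusion
  refine av_le_of_ind_sum (f := fun ω : Fin M → Cl n k =>
    ind (∃ x, (1 - (1 - η) / 2 ^ k) * M < (satCount (frm ω) x : ℝ))
    + ind (A2 (fun i => (ω i).1)) + ind (A3 (fun i => (ω i).1) (fun i => par (ω i).2))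
    + ind (A4 (fun i => (ω i).1) (fun i => par (ω i).2))
    + ∑ i, ind (A5 i (ω i) (fun i => (ω i).1) (fun i => par (ω i).2))) ?_ ?_
  · intro ω
    set H : Fin M → Tup n k := fun i => (ω i).1 with hH
    set σ : Fin M → Bool := fun i => par (ω i).2 with hσ
    have hn1 := ind_nonneg (∃ x, (1 - (1 - η) / 2 ^ k) * M < (satCount (frm ω) x : ℝ))
    have hn2 := ind_nonneg (A2 H)
    have hn3 := ind_nonneg (A3 H σ)
    have hn4 := ind_nonneg (A4 H σ)
    have hn5 : 0 ≤ ∑ i, ind (A5 i (ω i) H σ) := sum_nonneg fun i _ => ind_nonneg _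
    by_cases c1 : ∃ x, (1 - (1 - η) / 2 ^ k) * M < (satCount (frm ω) x : ℝ)
    · rw [ind_true c1] at hn1 ⊢
      refine (ind_le_one _).trans ?_
      linarith
    by_cases c2 : A2 H
    · rw [ind_true c2] at hn2 ⊢
      refine (ind_le_one _).trans ?_
      linarith
    by_cases c3 : A3 H σ
    · rw [ind_true c3] at hn3 ⊢
      refine (ind_le_one _).trans ?_
      linarith
    by_cases c4 : A4 H σ
    · rw [ind_true c4] at hn4 ⊢
      refine (ind_le_one _).trans ?_
      linarith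
    by_cases c5 : ∃ i, A5 i (ω i) H σ
    · obtain ⟨i, hi⟩ := c5
      have h5 := single_le_sum (f := fun i => ind (A5 i (ω i) H σ))
        (fun i _ => ind_nonneg _) (mem_univ i)
      rw [ind_true hi] at h5
      refine (ind_le_one _).trans ?_
      linarith
    -- a good formula
    refine le_trans (le_of_eq (ind_false ?_)) (by linarith)
    rw [not_not]
    push Not at c1 c5
    refine ⟨c1, ?_⟩
    have hexH : ∀ E : Finset (Fin M), 0 < E.card → E.card ≤ L → ex im K H E := by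
      intro E hE hEL
      by_contra hcon
      exact c2 ⟨E, card_pos.mp hE, hEL, not_le.mp hcon⟩
    -- the sums
    have hDLsum : ∀ g : (Fin n → Bool) → ℝ, ∑ x ∈ X2, DL (ye im) (prs H σ) L x * g x
        = Fintype.card (Fin n → Bool) * av (fun x => (v0 x * g x) * DL (ye im) (prs H σ) L x) := by
      intro g
      rw [← hsumv]
      congr 1
      exact av_congr fun x => by ring
    have hF1 : (X2.card : ℝ) / 2 ≤ ∑ x ∈ X2, DL (ye im) (prs H σ) L x := by
      have h1 := hDLsum (fun _ => 1)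
      simp only [mul_one] at h1
      rw [h1, ← hμX]
      have h2 : μ / 2 ≤ av (fun x => v0 x * DL (ye im) (prs H σ) L x) := by
        have h3 : ∀ x, v0 x * DL (ye im) (prs H σ) L x
            = μ * (bb x * DL (ye im) (prs H σ) L x) := by
          intro x
          rw [hbb]; simp only; field_simp
        rw [av_congr h3, av_mul_left, Z_eq]
        have h4 : univ.filter (fun E : Finset (Fin M) => E.card ≤ L) = insert ∅ 𝓔 := by
          ext E
          simp only [𝓔, mem_filter, mem_univ, true_and, mem_insert]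
          constructor
          · intro h
            rcases Finset.eq_empty_or_nonempty E with h0 | h0
            · exact Or.inl h0
            · exact Or.inr ⟨card_pos.mpr h0, h⟩
          · rintro (rfl | h)
            · simp
            · exact h.2
        rw [h4, sum_insert (by simp [𝓔]), co_empty, hbbav]
        have h5 : |∑ E ∈ 𝓔, co (ye im) (prs H σ) bb E| ≤ 1 / 2 := by
          by_contra hcon
          exact c4 ⟨fun E hE => hexH E (mem_filter.mp hE).2.1 (mem_filter.mp hE).2.2,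
            not_le.mp hcon⟩
        have h6 := (abs_le.mp h5).1
        have h7 : μ * (1 / 2) ≤ μ * (1 + ∑ E ∈ 𝓔, co (ye im) (prs H σ) bb E) :=
          mul_le_mul_of_nonneg_left (by linarith) hμ0.le
        linarith
      have h8 := mul_le_mul_of_nonneg_left h2 hXpos.le
      linarith
    have hF2 : ∀ i, |∑ x ∈ X2, DL (ye im) (prs H σ) L x * fa (ω i) x|
        ≤ Fintype.card (Fin n → Bool) * (1 / 2 ^ (3 * t + 3)) := by
      intro i
      rw [hDLsum, abs_mul, abs_of_pos hXpos]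
      refine mul_le_mul_of_nonneg_left ?_ hXpos.le
      rw [pair5 (ye im) (prs H σ) L i (fun x => v0 x * fa (ω i) x) (fun x => by
        have h1 := fa_sign (ω i) x
        change v0 x * fa (ω i) x * ye im ((ω i).1, par (ω i).2) x = _
        rw [mul_assoc, h1]; ring)]
      have h5 : |∑ E ∈ 𝓔i i, co (ye im) (prs H σ) (fun x => v0 x * fa (ω i) x) E| ≤ θ := by
        by_contra hcon
        refine c5 i ⟨fun E hE => ?_, not_le.mp hcon⟩
        have h3 := (mem_filter.mp hE).2.2
        exact hexH E (by omega) (by omega)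
      refine h5.trans ?_
      change 1 / (2 : ℝ) ^ (3 * (3 * t) + 6) ≤ 1 / 2 ^ (3 * t + 3)
      exact one_div_le_one_div_of_le (by positivity)
        (pow_le_pow_right₀ (by norm_num) (by omega))
    refine det6 (t := t) hM hb2 P y hy ω q X2 hX2 hX2c hX1c (DL (ye im) (prs H σ) L) hF1 hF2 ?_
    intro j a ha
    have hr : 1 ≤ r := Nat.succ_le_of_lt j.pos
    refine hreg (DL (ye im) (prs H σ) L) (1 / 2 ^ (2 * t + 3)) (1 / 2 ^ (3 * (3 * t) + 3))
      (by positivity) ?_ ?_ j a ha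
    · rw [hcardP]
      have h1 : (2 : ℝ) ^ b * (r * (D + 1) + 1) ≤ 2 ^ t := by exact_mod_cast hsize
      have hD1 : ((D : ℝ) + 1) ≤ 2 ^ t := by
        have h2 : D + 1 ≤ r * (D + 1) + 1 := by
          have := Nat.le_mul_of_pos_left (D + 1) hr
          omega
        have h3 : r * (D + 1) + 1 ≤ 2 ^ t :=
          le_trans (Nat.le_mul_of_pos_left _ (by positivity)) hsize
        exact_mod_cast h2.trans h3
      calc ((D : ℝ) + 1) * (2 * (r * (D + 1) + 1)) * 2 ^ b * (1 / 2 ^ (3 * (3 * t) + 3))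
          = (D + 1) * (2 * (2 ^ b * (r * (D + 1) + 1))) * (1 / 2 ^ (3 * (3 * t) + 3)) := by ring
        _ ≤ 2 ^ t * (2 * 2 ^ t) * (1 / 2 ^ (3 * (3 * t) + 3)) := by gcongr
        _ = 2 ^ (2 * t + 1) / 2 ^ (3 * (3 * t) + 3) := by
            rw [show 2 * t + 1 = t + t + 1 by ring, pow_succ, pow_add]; ring
        _ ≤ 1 / 2 ^ (2 * t + 3) := by
            rw [div_le_div_iff₀ (by positivity) (by positivity), one_mul, ← pow_add]
            exact pow_le_pow_right₀ (by norm_num) (by omega)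
    · intro j v hv
      by_contra hcon
      rw [not_le] at hcon
      refine c3 ⟨j, v, hv, lt_of_lt_of_le hcon ?_⟩
      have h1 := p.hτδ
      rw [← hL] at h1
      linarith
  · rw [av_add, av_add, av_add, av_add, av_sum]
    have h1 : ∑ i, av (fun ω : Fin M → Cl n k =>
        ind (A5 i (ω i) (fun i => (ω i).1) (fun i => par (ω i).2))) ≤ κ := by
      refine (sum_le_sum fun i _ => hp5 i).trans (le_of_eq ?_)
      rw [sum_const, card_univ, Fintype.card_fin, nsmul_eq_mul]
      have hMR : (M : ℝ) ≠ 0 := by exact_mod_cast hM.ne'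
      field_simp
    linarith [hp1.trans hch]

end Pool.Agent.TH661.LPY
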