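import Pool.Agent.TH661.LPX.Sel

/-!
The large class, the frames and the nonnegativity on the cones (helper969 for helper661; extracted
from the proof of `region_signs` in `LPX.Sel`).
-/

set_option autoImplicit false

namespace Pool.Agent.TH661.LPY

open Finset Pool.Agent.TH661.LPX

theorem region7 {X : Type*} [Fintype X] [DecidableEq X] (X1 : Finset X) (hX1ne : X1.Nonempty)
    {r D : ℕ} (s : Fin r → X → Fin (D + 1) → ℝ) {Λ : ℝ} (hΛpos : 0 < Λ) :
    ∃ X2 ⊆ X1, ((X1 \ X2).card : ℝ) * Λ ≤ (r * (D + 1)) * X1.card ∧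
      ∃ W : Fin r → Submodule ℝ (X → ℝ), (∀ j, Module.finrank ℝ (W j) ≤ D + 1) ∧
        ∀ (F : X → ℝ) (ε τ : ℝ), 0 < τ → Fintype.card X * ((D + 1) * Λ * τ) ≤ ε * X1.card →
          (∀ j, ∀ v ∈ box (W j), -τ ≤ av (fun x => v x * F x)) →
          ∀ (j : Fin r) (a : Fin (D + 1) → ℝ), (∀ x, 0 ≤ ∑ l, a l * s j x l) →
            0 ≤ ∑ x, ((if x ∈ X2 then F x else 0) + (if x ∈ X1 then ε else 0)) *
              ∑ l, a l * s j x l := by
  have hX1pos : (0 : ℝ) < X1.card := by exact_mod_cast card_pos.mpr hX1ne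
  have hXpos : (0 : ℝ) < Fintype.card X := by
    obtain ⟨x, _⟩ := hX1ne
    have : Nonempty X := ⟨x⟩
    exact_mod_cast Fintype.card_pos
  -- the frames
  choose b hb0 hbsum hbc using fun j => frame X1 hX1ne (s j)
  set X2 : Finset X := X1.filter fun x => ∀ j i, b j i x ≤ Λ with hX2
  have h21 : X2 ⊆ X1 := filter_subset _ _
  have hcard : ((X1 \ X2).card : ℝ) * Λ ≤ (r * (D + 1)) * X1.card := by
    have h1 : X1 \ X2 ⊆ (univ : Finset (Fin r × Fin (D + 1))).biUnion fun p =>
        X1.filter fun x => Λ < b p.1 p.2 x := by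
      intro x hx
      have hx1 : x ∈ X1 := (mem_sdiff.mp hx).1
      have hx2 : x ∉ X2 := (mem_sdiff.mp hx).2
      rw [mem_biUnion]
      have h2 : ¬ ∀ j i, b j i x ≤ Λ := fun h => hx2 (mem_filter.mpr ⟨hx1, h⟩)
      push Not at h2
      obtain ⟨j, i, hj⟩ := h2
      exact ⟨(j, i), mem_univ _, mem_filter.mpr ⟨hx1, hj⟩⟩
    have h3 : ∀ p : Fin r × Fin (D + 1),
        ((X1.filter fun x => Λ < b p.1 p.2 x).card : ℝ) * Λ ≤ X1.card := by
      intro p
      calc ((X1.filter fun x => Λ < b p.1 p.2 x).card : ℝ) * Λ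
          = ∑ x ∈ X1.filter (fun x => Λ < b p.1 p.2 x), Λ := by rw [sum_const, nsmul_eq_mul]
        _ ≤ ∑ x ∈ X1.filter (fun x => Λ < b p.1 p.2 x), b p.1 p.2 x :=
            sum_le_sum fun x hx => (mem_filter.mp hx).2.le
        _ ≤ ∑ x ∈ X1, b p.1 p.2 x :=
            sum_le_sum_of_subset_of_nonneg (filter_subset _ _) fun x _ _ => hb0 _ _ x
        _ ≤ X1.card := hbsum _ _
    have h5 : ((X1 \ X2).card : ℝ) * Λ ≤ (r * (D + 1)) * X1.card := by
      have h6 : ((X1 \ X2).card : ℝ) ≤
          ∑ p : Fin r × Fin (D + 1), ((X1.filter fun x => Λ < b p.1 p.2 x).card : ℝ) := by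
        rw [← Nat.cast_sum]
        exact_mod_cast (card_le_card h1).trans card_biUnion_le
      calc ((X1 \ X2).card : ℝ) * Λ
          ≤ (∑ p : Fin r × Fin (D + 1), ((X1.filter fun x => Λ < b p.1 p.2 x).card : ℝ)) * Λ :=
            mul_le_mul_of_nonneg_right h6 hΛpos.le
        _ = ∑ p : Fin r × Fin (D + 1),
            ((X1.filter fun x => Λ < b p.1 p.2 x).card : ℝ) * Λ := sum_mul _ _ _
        _ ≤ ∑ _p : Fin r × Fin (D + 1), (X1.card : ℝ) := sum_le_sum fun p _ => h3 p
        _ = (r * (D + 1)) * X1.card := by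
            rw [sum_const, card_univ, Fintype.card_prod, Fintype.card_fin, Fintype.card_fin,
              nsmul_eq_mul]
            push_cast; ring
    exact h5
  -- the spaces of test functions
  let T : Fin r → (Fin (D + 1) → ℝ) →ₗ[ℝ] (X → ℝ) := fun j =>
    { toFun := fun a x => if x ∈ X2 then ∑ l, a l * s j x l else 0
      map_add' := by
        intro a a'
        funext x
        simp only [Pi.add_apply]
        split_ifs
        · rw [← sum_add_distrib]; exact sum_congr rfl fun l _ => by ring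
        · ring
      map_smul' := by
        intro t a
        funext x
        simp only [Pi.smul_apply, smul_eq_mul, RingHom.id_apply]
        split_ifs
        · rw [mul_sum]; exact sum_congr rfl fun l _ => by ring
        · ring }
  have hT : ∀ j a x, T j a x = if x ∈ X2 then ∑ l, a l * s j x l else 0 := fun j a x => rfl
  refine ⟨X2, h21, hcard, fun j => LinearMap.range (T j), ?_, ?_⟩
  · intro j
    have h3 := LinearMap.finrank_range_le (T j)
    rw [Module.finrank_fin_fun] at h3
    exact h3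
  intro F ε τ hτ hτX hbox j a ha
  -- sums against the functional
  have hgam : ∀ f : X → ℝ,
      ∑ x, ((if x ∈ X2 then F x else 0) + (if x ∈ X1 then ε else 0)) * f x
      = Fintype.card X * av (fun x => (if x ∈ X2 then f x else 0) * F x)
        + ε * ∑ x ∈ X1, f x := by
    intro f
    have h1 : Fintype.card X * av (fun x => (if x ∈ X2 then f x else 0) * F x)
        = ∑ x, (if x ∈ X2 then f x else 0) * F x := by
      unfold av; field_simp
    have h2 : ε * ∑ x ∈ X1, f x = ∑ x, if x ∈ X1 then ε * f x else 0 := by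
      rw [mul_sum, ← sum_filter]
      congr 1; ext x; simp
    rw [h1, h2, ← sum_add_distrib]
    refine sum_congr rfl fun x _ => ?_
    split_ifs <;> ring
  obtain ⟨cc, hcc1, hcc2, hcc3⟩ := hbc j a fun x _ => ha x
  set Sa : ℝ := ∑ x ∈ X1, ∑ l, a l * s j x l with hSa
  rcases (sum_nonneg fun x (_ : x ∈ X1) => ha x).lt_or_eq with hpos | hzero
  · set Aa : ℝ := Sa / X1.card with hAa
    have hAa0 : 0 < Aa := div_pos hpos hX1pos
    have hSaA : Sa = Aa * X1.card := by rw [hAa]; field_simp
    have hbig : 0 < Aa * ((D + 1) * Λ) := by positivity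
    -- the function is bounded
    have hbd : ∀ x ∈ X2, ∑ l, a l * s j x l ≤ Aa * ((D + 1) * Λ) := by
      intro x hx
      rw [hcc3 x (h21 hx)]
      calc ∑ i, cc i * b j i x ≤ ∑ _i : Fin (D + 1), Aa * Λ := by
            refine sum_le_sum fun i _ => ?_
            have h2 : cc i ≤ Aa := by
              rw [hAa, le_div_iff₀ hX1pos]
              exact le_trans (mul_le_mul_of_nonneg_right (le_abs_self _) hX1pos.le) (hcc1 i)
            calc cc i * b j i x ≤ Aa * b j i x := mul_le_mul_of_nonneg_right h2 (hb0 _ _ _)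
              _ ≤ Aa * Λ := mul_le_mul_of_nonneg_left ((mem_filter.mp hx).2 _ _) hAa0.le
        _ = Aa * ((D + 1) * Λ) := by
            rw [sum_const, card_univ, Fintype.card_fin, nsmul_eq_mul]
            push_cast; ring
    have h2 := hbox j ((1 / (Aa * ((D + 1) * Λ))) • T j a)
      ⟨Submodule.smul_mem _ _ (LinearMap.mem_range_self _ _), fun x => by
        rw [Pi.smul_apply, smul_eq_mul, hT, one_div_mul_eq_div]
        split_ifs with hx
        · exact ⟨div_nonneg (ha x) hbig.le, div_le_one_of_le₀ (hbd x hx) hbig.le⟩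
        · rw [zero_div]; exact ⟨le_refl _, zero_le_one⟩⟩
    have h3 : av (fun x => ((1 / (Aa * ((D + 1) * Λ))) • T j a) x * F x)
        = (1 / (Aa * ((D + 1) * Λ))) *
          av (fun x => (if x ∈ X2 then ∑ l, a l * s j x l else 0) * F x) := by
      rw [← av_mul_left]
      refine av_congr fun x => ?_
      rw [Pi.smul_apply, smul_eq_mul, hT]; ring
    rw [h3, one_div_mul_eq_div, le_div_iff₀ hbig] at h2
    rw [hgam, ← hSa, hSaA]
    have h9 : Fintype.card X * (-τ * (Aa * ((D + 1) * Λ)))
        ≤ Fintype.card X *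
          av (fun x => (if x ∈ X2 then ∑ l, a l * s j x l else 0) * F x) :=
      mul_le_mul_of_nonneg_left h2 hXpos.le
    have h10 : Fintype.card X * (-τ * (Aa * ((D + 1) * Λ)))
        = - (Aa * (Fintype.card X * ((D + 1) * Λ * τ))) := by ring
    have h11 := mul_le_mul_of_nonneg_left hτX hAa0.le
    rw [h10] at h9
    calc (0 : ℝ) ≤ -(Aa * (Fintype.card X * ((D + 1) * Λ * τ)))
          + Aa * (ε * X1.card) := by linarith
      _ ≤ _ := by linarith
  · have h2 : ∀ x ∈ X1, ∑ l, a l * s j x l = 0 :=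
      (sum_eq_zero_iff_of_nonneg fun x _ => ha x).mp hzero.symm
    refine le_of_eq (sum_eq_zero fun x _ => ?_).symm
    by_cases hx : x ∈ X1
    · rw [h2 x hx, mul_zero]
    · have h3 : x ∉ X2 := fun h => hx (h21 h)
      rw [if_neg h3, if_neg hx, add_zero, zero_mul]

end Pool.Agent.TH661.LPY
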