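import Pool.Agent.TH661.LPY.Main6
import Pool.Agent.TH661.LPY.Det8
import Pool.Agent.TH661.LPY.Reg7

/-!
Random clauses and families of programs: the probability that the formula is bad.
-/

set_option autoImplicit false

namespace Pool.Agent.TH661.LPY

open Finset Pool.Agent.TH661.LPX

/-- The region of a possibly empty class. -/
theorem region8 {X : Type*} [Fintype X] [DecidableEq X] (X1 : Finset X)
    {r D : ℕ} (s : Fin r → X → Fin (D + 1) → ℝ) {Λ : ℝ} (hΛpos : 0 < Λ) :
    ∃ (X2 : Finset X) (W : Fin r → Submodule ℝ (X → ℝ)), X2 ⊆ X1 ∧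
      ((X1 \ X2).card : ℝ) * Λ ≤ (r * (D + 1)) * X1.card ∧
      (∀ j, Module.finrank ℝ (W j) ≤ D + 1) ∧
        ∀ (F : X → ℝ) (ε τ : ℝ), 0 < τ → X1.Nonempty →
          Fintype.card X * ((D + 1) * Λ * τ) ≤ ε * X1.card →
          (∀ j, ∀ v ∈ box (W j), -τ ≤ av (fun x => v x * F x)) →
          ∀ (j : Fin r) (a : Fin (D + 1) → ℝ), (∀ x, 0 ≤ ∑ l, a l * s j x l) →
            0 ≤ ∑ x, ((if x ∈ X2 then F x else 0) + (if x ∈ X1 then ε else 0)) *
              ∑ l, a l * s j x l := by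
  rcases X1.eq_empty_or_nonempty with h | h
  · refine ⟨∅, fun _ => ⊥, empty_subset _, ?_, fun j => ?_, fun F ε τ _ hne => ?_⟩
    · rw [h]; simp
    · simp
    · exact absurd h hne.ne_empty
  · obtain ⟨X2, h1, h2, W, h3, h4⟩ := region7 X1 h s hΛpos
    exact ⟨X2, W, h1, h2, h3, fun F ε τ hτ _ => h4 F ε τ hτ⟩

/-- The Fourier weight of a bounded function of average at most one. -/
theorem fI_weight_density' {V : Type*} [Fintype V] [DecidableEq V] {ρ : ℝ} (h0 : 0 ≤ ρ)
    (h1 : ρ ≤ 1) {g : (V → Bool) → ℝ}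
    (hg : ∀ x, 0 ≤ g x) {G : ℝ} (hG1 : 1 ≤ G) (hg1 : ∀ x, g x ≤ G) (hav : av g ≤ 1) :
    ∑ S : Finset V, ρ ^ S.card * fI g S ^ 2 ≤ G ^ (2 * ρ) := by
  refine (fI_abs_weight_le h0 h1 g).trans ?_
  have hG0 : 0 < G := by linarith
  have h2 : av (fun x => |g x| ^ (1 + ρ)) ≤ G ^ ρ := by
    have h3 : ∀ x, |g x| ^ (1 + ρ) ≤ G ^ ρ * g x := by
      intro x
      rw [abs_of_nonneg (hg x), Real.rpow_add_of_nonneg (hg x) (by norm_num) h0, Real.rpow_one,
        mul_comm]
      exact mul_le_mul_of_nonneg_right (Real.rpow_le_rpow (hg x) (hg1 x) h0) (hg x)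
    refine (av_mono h3).trans ?_
    rw [av_mul_left]
    exact mul_le_of_le_one_right (by positivity) hav
  calc (av fun x => |g x| ^ (1 + ρ)) ^ (2 / (1 + ρ)) ≤ (G ^ ρ) ^ (2 / (1 + ρ)) :=
        Real.rpow_le_rpow (av_nonneg fun x => Real.rpow_nonneg (abs_nonneg _) _) h2
          (by positivity)
    _ = G ^ (ρ * (2 / (1 + ρ))) := by rw [← Real.rpow_mul hG0.le]
    _ ≤ G ^ (2 * ρ) := by
        refine Real.rpow_le_rpow_of_exponent_le hG1 ?_
        rw [mul_div_assoc', div_le_iff₀ (by linarith)]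
        nlinarith

open Classical in
/-- The probability that a random formula is bad for one of the programs of a family. -/
theorem prob8 {n k m M Q b r D t K : ℕ} {κ η : ℝ} (hk : 3 ≤ k) (hM : 0 < M)
    (ht : 4 ≤ t) (hm : 0 < m) (hmn : 2 * (k * m) ≤ n) (hK : 1 ≤ K)
    (hTup : (n : ℝ) ^ k ≤ 2 * Fintype.card (Tup n k)) [Nonempty (Tup n k)]
    (hκ0 : 0 < κ) (hκ1 : κ ≤ 1 / 2) (hη : 0 ≤ η)
    (hch : 2 ^ n * Real.exp (-(η ^ 2 * M / 2 ^ (k + 1))) ≤ κ)
    (p : Par5 k m M D (3 * t) K κ) (hsize : Q * 2 ^ b * (r * (D + 1) + 1) ≤ 2 ^ t)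
    (P : Fin Q → ConicProgram b r (D + 1)) (y : ∀ i, (Fin n → Bool) → Fin (P i).d → ℝ)
    (hy : ∀ i x, (P i).Feasible (y i x)) :
    av (fun ω : Fin M → Cl n k => ind (¬ ((∀ x, (satCount (frm ω) x : ℝ)
      ≤ (1 - (1 - η) / 2 ^ k) * M) ∧
      ∀ i, ∃ z, (P i).Feasible z ∧ ∀ (w : ℕ → ℝ) (a : (Fin (P i).d → ℝ) × ℝ),
        (∀ x, aff a (y i x) = wsat (frm ω) w x) →
        |aff a z - ∑ j ∈ range M, w j| ≤ (∑ j ∈ range M, |w j|) / 4 ^ t))) ≤ 12 * κ := by
  have hkR : (0 : ℝ) < k := by exact_mod_cast (by omega : 0 < k)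
  have hmR : (0 : ℝ) < m := by exact_mod_cast hm
  have hMR : (0 : ℝ) < M := by exact_mod_cast hM
  have : Nonempty (Fin M) := ⟨⟨0, hM⟩⟩
  have hn2t : (0 : ℝ) < 2 ^ t := by positivity
  have h16 : (16 : ℝ) ≤ 2 ^ t := by
    calc (16 : ℝ) = 2 ^ 4 := by norm_num
      _ ≤ 2 ^ t := pow_le_pow_right₀ (by norm_num) ht
  -- sizes
  have hQb : Q * 2 ^ b ≤ 2 ^ t := le_trans (Nat.le_mul_of_pos_right _ (by positivity)) hsize
  have hQbR : (Q : ℝ) * 2 ^ b ≤ 2 ^ t := by exact_mod_cast hQb
  have hQR : (Q : ℝ) ≤ 2 ^ t := by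
    refine le_trans ?_ hQbR
    exact le_mul_of_one_le_right (Nat.cast_nonneg _) (one_le_pow₀ (by norm_num))
  have hb2 : ∀ _ : Fin Q, 2 ^ b ≤ 2 ^ t := fun i =>
    le_trans (Nat.le_mul_of_pos_left _ i.pos) hQb
  have hrD : ∀ _ : Fin Q, 2 ^ b * (r * (D + 1) + 1) ≤ 2 ^ t := fun i => by
    refine le_trans ?_ hsize
    rw [mul_assoc]
    exact Nat.le_mul_of_pos_left _ i.pos
  set L := p.L1 + p.f with hL
  have hkL := p.hkL
  have hXpos : (0 : ℝ) < Fintype.card (Fin n → Bool) := by exact_mod_cast Fintype.card_pos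
  have hcardP : (Fintype.card (Fin b → Bool) : ℝ) = 2 ^ b := by
    rw [Fintype.card_fun, Fintype.card_fin, Fintype.card_bool]; push_cast; ring
  -- the classes and regions
  let β : Fin Q → (Fin n → Bool) → (Fin b → Bool) :=
    fun i x j => decide (aff ((P i).bin j) (y i x) = 1)
  let X1 : Fin Q → (Fin b → Bool) → Finset (Fin n → Bool) := fun i q =>
    univ.filter fun x => β i x = q
  have hreg := fun (i : Fin Q) (q : Fin b → Bool) => region8 (X1 i q)
    (fun (j : Fin r) x l => aff ((P i).map j l) (y i x)) (Λ := 2 ^ (2 * t)) (by positivity)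
  choose X2 W h21 hcard hW hcone using hreg
  let big : Fin Q → (Fin b → Bool) → Prop := fun i q =>
    (Fintype.card (Fin n → Bool) : ℝ) ≤ 2 ^ (2 * t) * (X1 i q).card
  -- the indicators
  let u : Fin Q → (Fin b → Bool) → (Fin n → Bool) → ℝ := fun i q x =>
    if big i q ∧ x ∈ X2 i q then 1 else 0
  let v1 : Fin Q → (Fin b → Bool) → (Fin n → Bool) → ℝ := fun i q x =>
    if x ∈ X2 i q then 1 else 0
  have hv1a : ∀ i q x, 0 ≤ v1 i q x := fun i q x => by
    simp only [v1]; split_ifs <;> norm_num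
  have hv1b : ∀ i q x, v1 i q x ≤ 1 := fun i q x => by
    simp only [v1]; split_ifs <;> norm_num
  let vB : Fin Q → (Fin n → Bool) → ℝ := fun i x => 1 - ∑ q, u i q x
  have husum : ∀ i x, ∑ q, u i q x = u i (β i x) x := by
    intro i x
    refine sum_eq_single (β i x) (fun q _ hq => ?_) (fun h => absurd (mem_univ _) h)
    simp only [u]
    rw [if_neg]
    rintro ⟨-, hx⟩
    exact hq (mem_filter.mp (h21 i q hx)).2.symm
  have hvB0 : ∀ i x, 0 ≤ vB i x := by
    intro i x
    simp only [vB]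
    rw [husum]
    simp only [u]
    split_ifs <;> norm_num
  have hvB1 : ∀ i x, vB i x ≤ 1 := by
    intro i x
    simp only [vB]
    rw [husum]
    simp only [u]
    split_ifs <;> norm_num
  -- the measure of the bad points
  have hvBle : ∀ i x, vB i x ≤ ∑ q, ((if ¬ big i q ∧ x ∈ X1 i q then (1 : ℝ) else 0)
      + (if x ∈ X1 i q \ X2 i q then (1 : ℝ) else 0)) := by
    intro i x
    have hnn : ∀ q ∈ (univ : Finset (Fin b → Bool)), (0 : ℝ) ≤
        ((if ¬ big i q ∧ x ∈ X1 i q then (1 : ℝ) else 0)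
          + (if x ∈ X1 i q \ X2 i q then (1 : ℝ) else 0)) := by
      intro q _
      split_ifs <;> norm_num
    refine le_trans ?_ (single_le_sum hnn (mem_univ (β i x)))
    have hx1 : x ∈ X1 i (β i x) := mem_filter.mpr ⟨mem_univ _, rfl⟩
    simp only [vB]
    rw [husum]
    simp only [u]
    by_cases hb : big i (β i x)
    · by_cases hx : x ∈ X2 i (β i x)
      · rw [if_pos ⟨hb, hx⟩]
        split_ifs <;> norm_num
      · rw [if_neg (fun h => hx h.2), if_neg (fun h => h.1 hb),
          if_pos (mem_sdiff.mpr ⟨hx1, hx⟩)]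
        norm_num
    · rw [if_neg (fun h => hb h.1), if_pos ⟨hb, hx1⟩]
      split_ifs <;> norm_num
  have hμB : ∀ i, av (vB i) ≤ 2 / 2 ^ t := by
    intro i
    have hbR : (2 : ℝ) ^ b * (r * (D + 1) + 1) ≤ 2 ^ t := by exact_mod_cast hrD i
    refine (av_mono (hvBle i)).trans ?_
    unfold av
    rw [div_le_iff₀ hXpos, sum_comm]
    have h1 : ∀ q, ∑ x, ((if ¬ big i q ∧ x ∈ X1 i q then (1 : ℝ) else 0)
        + (if x ∈ X1 i q \ X2 i q then (1 : ℝ) else 0))
        ≤ Fintype.card (Fin n → Bool) / 2 ^ (2 * t)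
          + (r * (D + 1)) * (X1 i q).card / 2 ^ (2 * t) := by
      intro q
      rw [sum_add_distrib]
      refine add_le_add ?_ ?_
      · by_cases hb : big i q
        · refine le_trans (le_of_eq (sum_eq_zero fun x _ => ?_)) (by positivity)
          rw [if_neg (fun h => h.1 hb)]
        · have h2 : ∑ x, (if ¬ big i q ∧ x ∈ X1 i q then (1 : ℝ) else 0) = (X1 i q).card := by
            rw [← sum_filter, sum_const, nsmul_eq_mul, mul_one]
            congr 2
            ext x
            simp only [mem_filter, mem_univ, true_and]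
            exact ⟨fun h => h.2, fun h => ⟨hb, h⟩⟩
          rw [h2, le_div_iff₀ (by positivity), mul_comm]
          exact (not_le.mp hb).le
      · have h2 : ∑ x, (if x ∈ X1 i q \ X2 i q then (1 : ℝ) else 0)
            = ((X1 i q \ X2 i q).card : ℝ) := by
          rw [← sum_filter, sum_const, nsmul_eq_mul, mul_one]
          congr 2
          ext x
          simp
        rw [h2, le_div_iff₀ (by positivity)]
        exact hcard i q
    refine (sum_le_sum fun q _ => h1 q).trans ?_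
    rw [sum_add_distrib, sum_const, card_univ, nsmul_eq_mul, hcardP]
    have h3 : ∑ q, ((r : ℝ) * (D + 1)) * (X1 i q).card / 2 ^ (2 * t)
        = (r * (D + 1)) * Fintype.card (Fin n → Bool) / 2 ^ (2 * t) := by
      rw [← sum_div, ← mul_sum]
      congr 2
      rw [← Nat.cast_sum]
      congr 1
      rw [← card_univ (α := Fin n → Bool)]
      exact (card_eq_sum_card_fiberwise fun x _ => mem_univ (β i x)).symm
    rw [h3]
    have h4 : (2 : ℝ) ^ b ≤ 2 ^ t := by exact_mod_cast hb2 i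
    have h5 : (r : ℝ) * (D + 1) ≤ 2 ^ t := by
      have h6 : (1 : ℝ) ≤ 2 ^ b := one_le_pow₀ (by norm_num)
      have h7 : (0 : ℝ) ≤ r * (D + 1) + 1 := by positivity
      nlinarith
    have h8 : (2 : ℝ) ^ (2 * t) = 2 ^ t * 2 ^ t := by rw [two_mul, pow_add]
    rw [h8]
    have h9 : (2 : ℝ) ^ b * (Fintype.card (Fin n → Bool) / (2 ^ t * 2 ^ t))
        ≤ 2 ^ t * (Fintype.card (Fin n → Bool) / (2 ^ t * 2 ^ t)) :=
      mul_le_mul_of_nonneg_right h4 (by positivity)
    have h10 : (r : ℝ) * (D + 1) * Fintype.card (Fin n → Bool) / (2 ^ t * 2 ^ t)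
        ≤ 2 ^ t * Fintype.card (Fin n → Bool) / (2 ^ t * 2 ^ t) := by gcongr
    have h11 : (2 : ℝ) ^ t * (Fintype.card (Fin n → Bool) / (2 ^ t * 2 ^ t))
        = Fintype.card (Fin n → Bool) / 2 ^ t := by field_simp
    have h12 : (2 : ℝ) ^ t * Fintype.card (Fin n → Bool) / (2 ^ t * 2 ^ t)
        = Fintype.card (Fin n → Bool) / 2 ^ t := by field_simp
    have h13 : 2 / 2 ^ t * (Fintype.card (Fin n → Bool) : ℝ)
        = Fintype.card (Fin n → Bool) / 2 ^ t + Fintype.card (Fin n → Bool) / 2 ^ t := by ring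
    rw [h13]
    linarith
  -- the weights
  have hρ : ∀ l : ℕ, 0 < l → l ≤ L → (0 : ℝ) < p.t' ∧ (0 : ℝ) ≤ (k : ℝ) * l / p.t' ∧
      (k : ℝ) * l / p.t' ≤ 1 := by
    intro l hl hlL
    have h1 : k * l ≤ p.t' := (Nat.mul_le_mul_left k hlL).trans hkL
    have h2 : 0 < p.t' := lt_of_lt_of_le (Nat.mul_pos (by omega) hl) h1
    have h3 : (0 : ℝ) < p.t' := by exact_mod_cast h2
    refine ⟨h3, by positivity, ?_⟩
    rw [div_le_one h3]
    exact_mod_cast h1
  let bB : Fin Q → (Fin n → Bool) → ℝ := fun i x => (2 ^ t / 2) * vB i x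
  have hWbB : ∀ i, ∀ l : ℕ, 0 < l → l ≤ L →
      ∑ S : Finset (Fin n), ((k : ℝ) * l / p.t') ^ S.card * fI (bB i) S ^ 2 ≤ 4 ^ (k * l) := by
    intro i l hl hlL
    obtain ⟨h1, h2, h3⟩ := hρ l hl hlL
    refine (fI_weight_density' h2 h3 (G := 2 ^ p.t')
      (fun x => mul_nonneg (by positivity) (hvB0 i x)) (one_le_pow₀ (by norm_num)) ?_ ?_).trans
      (le_of_eq ?_)
    · intro x
      calc bB i x ≤ (2 ^ t / 2) * 1 := mul_le_mul_of_nonneg_left (hvB1 i x) (by positivity)
        _ ≤ 2 ^ t := by linarith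
        _ ≤ 2 ^ p.t' := pow_le_pow_right₀ (by norm_num) (by have := p.htt; omega)
    · change av (fun x => (2 ^ t / 2) * vB i x) ≤ 1
      rw [av_mul_left]
      calc (2 : ℝ) ^ t / 2 * av (vB i) ≤ 2 ^ t / 2 * (2 / 2 ^ t) :=
            mul_le_mul_of_nonneg_left (hμB i) (by positivity)
        _ = 1 := by field_simp
    · rw [← Real.rpow_natCast 2 p.t', ← Real.rpow_mul (by norm_num),
        ← Real.rpow_natCast 4 (k * l), show (4 : ℝ) = 2 ^ (2 : ℝ) by norm_num,
        ← Real.rpow_mul (by norm_num)]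
      congr 1
      push_cast; field_simp
  -- the events
  let A2 : (Fin M → Tup n k) → Prop := fun H => ∃ E : Finset (Fin M), E.Nonempty ∧ E.card ≤ L ∧
    K * (so im H E).card < (K - 1) * E.card
  let A3 : (Fin M → Tup n k) → (Fin M → Bool) → Prop := fun H σ =>
    ∃ o : Fin Q × (Fin b → Bool) × Fin r, ∃ v ∈ box (W o.1 o.2.1 o.2.2),
    av (fun x => v x * DL (ye im) (prs H σ) L x) < - (p.δ * NL (Fin M) L) - p.τ
  let 𝓔 : Finset (Finset (Fin M)) := univ.filter fun E => 0 < E.card ∧ E.card ≤ L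
  let 𝓔i : Fin M → Finset (Finset (Fin M)) := fun i => univ.filter fun E => i ∉ E ∧ E.card = L
  let A4 : Fin Q → (Fin M → Tup n k) → (Fin M → Bool) → Prop := fun i H σ =>
    (∀ E ∈ 𝓔, ex im K H E) ∧ 2 ^ t / 8 < |∑ E ∈ 𝓔, co (ye im) (prs H σ) (bB i) E|
  let A6 : (Fin M → Tup n k) → (Fin M → Bool) → Prop := fun H σ =>
    (∀ E ∈ 𝓔, ex im K H E) ∧ 1 / 4 < |∑ E ∈ 𝓔, co (ye im) (prs H σ) (fun _ => 1) E|
  let θ : ℝ := 1 / 2 ^ (8 * t + 5)
  let A5 : Fin Q → (Fin b → Bool) → Fin M → Cl n k → (Fin M → Tup n k) → (Fin M → Bool) → Prop :=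
    fun i q j c H σ => (∀ E ∈ 𝓔i j, ex im K H E) ∧
    θ < |∑ E ∈ 𝓔i j, co (ye im) (prs H σ) (fun x => v1 i q x * fa c x) E|
  have hθ0 : 0 < θ := by positivity
  have hL1 : 1 ≤ L := by have := p.hL1; omega
  -- the probabilities
  have hp1 := chernoff5 (n := n) (k := k) (M := M) hη
  have hp2 : av (fun ω : Fin M → Cl n k => ind (A2 (fun i => (ω i).1))) ≤ 2 * κ := by
    rw [av_frm (by omega) (fun H _ => ind (A2 H))]
    have h1 : ∀ H : Fin M → Tup n k, av (fun _ : Fin M → Bool => ind (A2 H)) = ind (A2 H) :=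
      fun H => av_const _
    rw [av_congr h1]
    have hLm : (L : ℝ) ≤ p.lam * m := by
      have h1 : (k : ℝ) * L ≤ p.t' := by exact_mod_cast hkL
      have h2 := p.hlam
      have h3 : (k : ℝ) * L ≤ k * (p.lam * m) := by linarith
      exact le_of_mul_le_mul_left h3 hkR
    exact exp_prob5 (J := Fin M) (n := n) (k := k) hm hmn hk hTup hK hLm p.hlam1 p.hV0 p.hV
      (by rw [Fintype.card_fin]; exact p.hκ) hκ0.le hκ1
  have hp3 : av (fun ω : Fin M → Cl n k =>
      ind (A3 (fun i => (ω i).1) (fun i => par (ω i).2))) ≤ 3 * κ := by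
    rw [av_frm (by omega) (fun H σ => ind (A3 H σ))]
    have h1 := good5 (J := Fin M) (V := Fin Q × (Fin b → Bool) × Fin r) (D := D) hm hmn hk hTup
      (fun o => W o.1 o.2.1 o.2.2) (fun o => hW o.1 o.2.1 o.2.2)
      (L := L) (f := p.f) (L1 := p.L1) p.hN hL p.hδ p.hτ hK hkL p.hlam p.hlam1 p.hU0 p.hU p.hV0
      p.hV (by rw [Fintype.card_fin]; exact p.hκ) hκ0.le hκ1 p.hG p.hW0 p.hW1 p.hs1 p.hs2
      (by rw [Fintype.card_fin]; exact p.hX) p.hX1 (by rw [Fintype.card_fin]; exact p.hY) p.hY1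
      p.hXY
    have hcV : Fintype.card (Fin Q × (Fin b → Bool) × Fin r) = Q * 2 ^ b * r := by
      rw [Fintype.card_prod, Fintype.card_prod, Fintype.card_fin, Fintype.card_fin,
        Fintype.card_fun, Fintype.card_fin, Fintype.card_bool, mul_assoc]
    rw [hcV] at h1
    have h2 := p.hfail (Q * 2 ^ b * r) (by
      have h3 : Q * 2 ^ b * r * (D + 2) ≤ 2 * (Q * 2 ^ b * (r * (D + 1) + 1)) := by
        calc Q * 2 ^ b * r * (D + 2) = Q * 2 ^ b * (r * (D + 2)) := by ring
          _ ≤ Q * 2 ^ b * (2 * (r * (D + 1) + 1)) := by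
              refine Nat.mul_le_mul_left _ ?_
              have : r * (D + 2) ≤ r * (2 * (D + 1)) := Nat.mul_le_mul_left _ (by omega)
              calc r * (D + 2) ≤ r * (2 * (D + 1)) := this
                _ = 2 * (r * (D + 1)) := by ring
                _ ≤ 2 * (r * (D + 1) + 1) := by omega
          _ = 2 * (Q * 2 ^ b * (r * (D + 1) + 1)) := by ring
      have h5 : 2 ^ t ≤ 2 ^ (3 * t) := Nat.pow_le_pow_right (by norm_num) (by omega)
      omega)
    refine h1.trans ?_
    linarith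
  have hp4 : ∀ i, av (fun ω : Fin M → Cl n k =>
      ind (A4 i (fun i => (ω i).1) (fun i => par (ω i).2))) ≤ κ / 2 ^ t := by
    intro i
    rw [av_frm (by omega) (fun H σ => ind (A4 i H σ))]
    have h1 := second5 (J := Fin M) hm hmn hk hTup hK hkL p.hlam p.hU0 p.hU (bB i) (hWbB i) 𝓔
      (fun E hE => (mem_filter.mp hE).2) (θ := 2 ^ t / 8) (by positivity)
    refine h1.trans ?_
    have h2 := p.hZ
    rw [div_le_iff₀ (by positivity)]
    have h3 : κ / 2 ^ t * (2 ^ t / 8) ^ 2 = κ / 4 * (2 ^ t / 16) := by field_simp; norm_num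
    have h4 : κ / 4 * 1 ≤ κ / 4 * (2 ^ t / 16) :=
      mul_le_mul_of_nonneg_left (by linarith) (by positivity)
    rw [h3]
    linarith
  have hp6 : av (fun ω : Fin M → Cl n k =>
      ind (A6 (fun i => (ω i).1) (fun i => par (ω i).2))) ≤ 4 * κ := by
    rw [av_frm (by omega) (fun H σ => ind (A6 H σ))]
    have h1 := second5 (J := Fin M) hm hmn hk hTup hK hkL p.hlam p.hU0 p.hU (fun _ => 1)
      (fun l hl hlL => by
        obtain ⟨h1, h2, h3⟩ := hρ l hl hlL
        exact (fI_weight_le_one h2 h3 (fun _ => zero_le_one) (fun _ => le_refl _)).trans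
          (one_le_pow₀ (by norm_num))) 𝓔
      (fun E hE => (mem_filter.mp hE).2) (θ := 1 / 4) (by norm_num)
    refine h1.trans ?_
    have h2 := p.hZ
    rw [div_le_iff₀ (by norm_num)]
    have h3 : (4 * κ : ℝ) * (1 / 4) ^ 2 = κ / 4 := by ring
    rw [h3]
    linarith
  have hp5 : ∀ i q j, av (fun ω : Fin M → Cl n k =>
      ind (A5 i q j (ω j) (fun i => (ω i).1) (fun i => par (ω i).2))) ≤ κ / (M * 2 ^ t) := by
    intro i q j
    refine clause5 (by omega) j (fun c H σ => ind (A5 i q j c H σ)) ?_ ?_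
    · intro c H H' σ σ' hH hσ
      have hE : ∀ E ∈ 𝓔i j, ∀ l ∈ E, l ≠ j := fun E hE l hl h =>
        (mem_filter.mp hE).2.1 (h ▸ hl)
      have h1 : ∀ E ∈ 𝓔i j, (ex im K H E ↔ ex im K H' E) := fun E hE' =>
        ex_congr im fun l hl => hH l (hE E hE' l hl)
      have h2 : ∑ E ∈ 𝓔i j, co (ye im) (prs H σ) (fun x => v1 i q x * fa c x) E
          = ∑ E ∈ 𝓔i j, co (ye im) (prs H' σ') (fun x => v1 i q x * fa c x) E :=
        sum_congr rfl fun E hE' => co_prs_congr _ (fun l hl => hH l (hE E hE' l hl))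
          (fun l hl => hσ l (hE E hE' l hl))
      congr 1
      refine propext ⟨fun h => ⟨fun E hE' => (h1 E hE').mp (h.1 E hE'), ?_⟩,
        fun h => ⟨fun E hE' => (h1 E hE').mpr (h.1 E hE'), ?_⟩⟩
      · rw [← h2]; exact h.2
      · rw [h2]; exact h.2
    · intro c
      have hfa0 : ∀ x, 0 ≤ v1 i q x * fa c x := fun x => mul_nonneg (hv1a i q x) (ind_nonneg _)
      have hfa1 : ∀ x, v1 i q x * fa c x ≤ 1 := fun x =>
        mul_le_one₀ (hv1b i q x) (ind_nonneg _) (ind_le_one _)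
      have h1 := second5 (J := Fin M) hm hmn hk hTup hK hkL p.hlam p.hU0 p.hU
        (fun x => v1 i q x * fa c x) (fun l hl hlL => by
          obtain ⟨h1, h2, h3⟩ := hρ l hl hlL
          exact (fI_weight_le_one h2 h3 hfa0 hfa1).trans (one_le_pow₀ (by norm_num)))
        (𝓔i j) (fun E hE => by
          have h3 := (mem_filter.mp hE).2.2
          omega) hθ0
      refine h1.trans ?_
      have h2 : ∑ E ∈ 𝓔i j, mbd k m p.lam p.U E.card ≤
          ∑ E ∈ univ.filter (fun E : Finset (Fin M) => E.card = p.L1 + p.f),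
            mbd k m p.lam p.U E.card := by
        refine sum_le_sum_of_subset_of_nonneg ?_ ?_
        · intro E hE
          rw [mem_filter] at hE ⊢
          exact ⟨mem_univ _, hE.2.2⟩
        · intro E _ _
          have h4 := p.hU0
          have h5 := p.hlam0
          unfold mbd
          split_ifs <;> positivity
      have h3 := p.hB
      have h0 : 0 ≤ ∑ E ∈ 𝓔i j, mbd k m p.lam p.U E.card := by
        refine sum_nonneg fun E _ => ?_
        have h4 := p.hU0
        have h5 := p.hlam0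
        unfold mbd
        split_ifs <;> positivity
      rw [div_le_div_iff₀ (by positivity) (by positivity)]
      have h4 : θ ^ 2 = 1 / (2 ^ (8 * t + 5)) ^ 2 := by
        change (1 / (2 : ℝ) ^ (8 * t + 5)) ^ 2 = _
        rw [div_pow, one_pow]
      rw [h4, mul_one_div, le_div_iff₀ (by positivity)]
      have h5 : (2 : ℝ) ^ t * (2 ^ (8 * t + 5)) ^ 2 ≤ (2 ^ (3 * (3 * t) + 6)) ^ 2 := by
        rw [← pow_mul, ← pow_mul, ← pow_add]
        exact pow_le_pow_right₀ (by norm_num) (by omega)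
      calc (∑ E ∈ 𝓔i j, mbd k m p.lam p.U E.card) * (M * 2 ^ t) * (2 ^ (8 * t + 5)) ^ 2
          = M * (2 ^ t * (2 ^ (8 * t + 5)) ^ 2) * (∑ E ∈ 𝓔i j, mbd k m p.lam p.U E.card) := by
            ring
        _ ≤ M * (2 ^ (3 * (3 * t) + 6)) ^ 2 * (∑ E ∈ univ.filter
            (fun E : Finset (Fin M) => E.card = p.L1 + p.f), mbd k m p.lam p.U E.card) := by
            gcongr
        _ ≤ κ := h3
  -- the conclusion
  refine av_le_of_ind_sum (f := fun ω : Fin M → Cl n k =>
    ind (∃ x, (1 - (1 - η) / 2 ^ k) * M < (satCount (frm ω) x : ℝ))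
    + ind (A2 (fun i => (ω i).1)) + ind (A3 (fun i => (ω i).1) (fun i => par (ω i).2))
    + ∑ i, ind (A4 i (fun i => (ω i).1) (fun i => par (ω i).2))
    + ind (A6 (fun i => (ω i).1) (fun i => par (ω i).2))
    + ∑ o : Fin Q × (Fin b → Bool) × Fin M,
      ind (A5 o.1 o.2.1 o.2.2 (ω o.2.2) (fun i => (ω i).1) (fun i => par (ω i).2))) ?_ ?_
  · intro ω
    set H : Fin M → Tup n k := fun i => (ω i).1 with hH
    set σ : Fin M → Bool := fun i => par (ω i).2 with hσ
    have hn1 := ind_nonneg (∃ x, (1 - (1 - η) / 2 ^ k) * M < (satCount (frm ω) x : ℝ))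
    have hn2 := ind_nonneg (A2 H)
    have hn3 := ind_nonneg (A3 H σ)
    have hn4 : 0 ≤ ∑ i, ind (A4 i H σ) := sum_nonneg fun i _ => ind_nonneg _
    have hn6 := ind_nonneg (A6 H σ)
    have hn5 : 0 ≤ ∑ o : Fin Q × (Fin b → Bool) × Fin M,
        ind (A5 o.1 o.2.1 o.2.2 (ω o.2.2) H σ) := sum_nonneg fun i _ => ind_nonneg _
    by_cases c1 : ∃ x, (1 - (1 - η) / 2 ^ k) * M < (satCount (frm ω) x : ℝ)
    · rw [ind_true c1] at hn1 ⊢
      refine (ind_le_one _).trans ?_
      linarith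
    by_cases c2 : A2 H
    · rw [ind_true c2] at hn2 ⊢
      refine (ind_le_one _).trans ?_
      linarith
    by_cases c3 : A3 H σ
    · rw [ind_true c3] at hn3 ⊢
      refine (ind_le_one _).trans ?_
      linarith
    by_cases c6 : A6 H σ
    · rw [ind_true c6] at hn6 ⊢
      refine (ind_le_one _).trans ?_
      linarith
    by_cases c4 : ∃ i, A4 i H σ
    · obtain ⟨i, hi⟩ := c4
      have h5 := single_le_sum (f := fun i => ind (A4 i H σ))
        (fun i _ => ind_nonneg _) (mem_univ i)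
      rw [ind_true hi] at h5
      refine (ind_le_one _).trans ?_
      linarith
    by_cases c5 : ∃ o : Fin Q × (Fin b → Bool) × Fin M, A5 o.1 o.2.1 o.2.2 (ω o.2.2) H σ
    · obtain ⟨o, ho⟩ := c5
      have h5 := single_le_sum (f := fun o : Fin Q × (Fin b → Bool) × Fin M =>
        ind (A5 o.1 o.2.1 o.2.2 (ω o.2.2) H σ)) (fun i _ => ind_nonneg _) (mem_univ o)
      rw [ind_true ho] at h5
      refine (ind_le_one _).trans ?_
      linarith
    -- a good formula
    refine le_trans (le_of_eq (ind_false ?_)) (by linarith)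
    rw [not_not]
    push Not at c1 c4 c5
    refine ⟨c1, fun i => ?_⟩
    have hexH : ∀ E : Finset (Fin M), 0 < E.card → E.card ≤ L → ex im K H E := by
      intro E hE hEL
      by_contra hcon
      exact c2 ⟨E, card_pos.mp hE, hEL, not_le.mp hcon⟩
    -- the sums
    have hsplit : ∀ g : (Fin n → Bool) → ℝ, av (fun x => g x * DL (ye im) (prs H σ) L x)
        = av g + ∑ E ∈ 𝓔, co (ye im) (prs H σ) g E := by
      intro g
      rw [Z_eq]
      have h4 : univ.filter (fun E : Finset (Fin M) => E.card ≤ L) = insert ∅ 𝓔 := by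
        ext E
        simp only [𝓔, mem_filter, mem_univ, true_and, mem_insert]
        constructor
        · intro h
          rcases Finset.eq_empty_or_nonempty E with h0 | h0
          · exact Or.inl h0
          · exact Or.inr ⟨card_pos.mpr h0, h⟩
        · rintro (rfl | h)
          · simp
          · exact h.2
      rw [h4, sum_insert (by simp [𝓔]), co_empty]
    have hall : 3 / 4 ≤ av (fun x => (1 : ℝ) * DL (ye im) (prs H σ) L x) := by
      rw [hsplit (fun _ => 1), av_const]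
      have h5 : |∑ E ∈ 𝓔, co (ye im) (prs H σ) (fun _ => 1) E| ≤ 1 / 4 := by
        by_contra hcon
        exact c6 ⟨fun E hE => hexH E (mem_filter.mp hE).2.1 (mem_filter.mp hE).2.2,
          not_le.mp hcon⟩
      have h6 := (abs_le.mp h5).1
      linarith
    have hbad : av (fun x => vB i x * DL (ye im) (prs H σ) L x) ≤ 1 / 2 := by
      have h3 : ∀ x, vB i x * DL (ye im) (prs H σ) L x
          = (2 / 2 ^ t) * (bB i x * DL (ye im) (prs H σ) L x) := by
        intro x
        simp only [bB]; field_simp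
      rw [av_congr h3, av_mul_left, hsplit]
      have h5 : |∑ E ∈ 𝓔, co (ye im) (prs H σ) (bB i) E| ≤ 2 ^ t / 8 := by
        by_contra hcon
        exact c4 i ⟨fun E hE => hexH E (mem_filter.mp hE).2.1 (mem_filter.mp hE).2.2,
          not_le.mp hcon⟩
      have h6 := (abs_le.mp h5).2
      have h7 : av (bB i) ≤ 1 := by
        change av (fun x => (2 ^ t / 2) * vB i x) ≤ 1
        rw [av_mul_left]
        calc (2 : ℝ) ^ t / 2 * av (vB i) ≤ 2 ^ t / 2 * (2 / 2 ^ t) :=
              mul_le_mul_of_nonneg_left (hμB i) (by positivity)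
          _ = 1 := by field_simp
      calc 2 / 2 ^ t * (av (bB i) + ∑ E ∈ 𝓔, co (ye im) (prs H σ) (bB i) E)
          ≤ 2 / 2 ^ t * (1 + 2 ^ t / 8) :=
            mul_le_mul_of_nonneg_left (by linarith) (by positivity)
        _ = 2 / 2 ^ t + 1 / 4 := by
            have h8 : 2 / (2 : ℝ) ^ t * (2 ^ t / 8) = 1 / 4 := by
              have h9 : (2 : ℝ) ^ t ≠ 0 := by positivity
              have h10 : 2 / (2 : ℝ) ^ t * (2 ^ t / 8) = (2 ^ t / 2 ^ t) * (1 / 4) := by ring
              rw [h10, div_self h9, one_mul]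
            rw [mul_add, mul_one, h8]
        _ ≤ 1 / 2 := by
            have h8 : 2 / (2 : ℝ) ^ t ≤ 1 / 8 := by
              rw [div_le_div_iff₀ (by positivity) (by norm_num)]; linarith
            linarith
    obtain ⟨q, hq⟩ : ∃ q, 1 / 4 / 2 ^ b ≤ av (fun x => u i q x * DL (ye im) (prs H σ) L x) := by
      by_contra hcon
      push Not at hcon
      have h1 : av (fun x => (1 : ℝ) * DL (ye im) (prs H σ) L x)
          = ∑ q, av (fun x => u i q x * DL (ye im) (prs H σ) L x)
            + av (fun x => vB i x * DL (ye im) (prs H σ) L x) := by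
        rw [← av_sum, ← av_add]
        refine av_congr fun x => ?_
        simp only [vB]
        rw [← sum_mul]; ring
      have h2 : ∑ q, av (fun x => u i q x * DL (ye im) (prs H σ) L x)
          < ∑ _q : Fin b → Bool, 1 / 4 / (2 : ℝ) ^ b :=
        sum_lt_sum_of_nonempty univ_nonempty fun q _ => hcon q
      rw [sum_const, card_univ, nsmul_eq_mul, hcardP] at h2
      have h3 : (2 : ℝ) ^ b * (1 / 4 / 2 ^ b) = 1 / 4 := by field_simp
      rw [h3] at h2
      linarith
    have hbig : big i q := by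
      by_contra hcon
      have h1 : ∀ x, u i q x * DL (ye im) (prs H σ) L x = 0 := by
        intro x
        simp only [u]
        rw [if_neg (fun h => hcon h.1), zero_mul]
      rw [av_congr h1, av_const] at hq
      have h2 : (0 : ℝ) < 1 / 4 / 2 ^ b := by positivity
      linarith
    have hX1ne : (X1 i q).Nonempty := by
      rw [← card_pos]
      by_contra hcon
      have h0 : (X1 i q).card = 0 := by omega
      have h1 : (Fintype.card (Fin n → Bool) : ℝ) ≤ 2 ^ (2 * t) * (X1 i q).card := hbig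
      rw [h0, Nat.cast_zero, mul_zero] at h1
      linarith
    have hDLsum : ∀ g : (Fin n → Bool) → ℝ, ∑ x ∈ X2 i q, DL (ye im) (prs H σ) L x * g x
        = Fintype.card (Fin n → Bool) *
          av (fun x => (v1 i q x * g x) * DL (ye im) (prs H σ) L x) := by
      intro g
      unfold av
      rw [mul_div_cancel₀ _ hXpos.ne']
      simp only [v1, ite_mul, one_mul, zero_mul]
      rw [← sum_filter]
      have h1 : univ.filter (fun x => x ∈ X2 i q) = X2 i q := by ext x; simp
      rw [h1]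
      exact sum_congr rfl fun x _ => mul_comm _ _
    have hF1 : (Fintype.card (Fin n → Bool) : ℝ) / 2 ^ (b + 2)
        ≤ ∑ x ∈ X2 i q, DL (ye im) (prs H σ) L x := by
      have h1 := hDLsum (fun _ => 1)
      simp only [mul_one] at h1
      rw [h1]
      have h2 : av (fun x => v1 i q x * DL (ye im) (prs H σ) L x)
          = av (fun x => u i q x * DL (ye im) (prs H σ) L x) := by
        refine av_congr fun x => ?_
        simp only [u, v1]
        by_cases hx : x ∈ X2 i q
        · rw [if_pos hx, if_pos ⟨hbig, hx⟩]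
        · rw [if_neg hx, if_neg (fun h => hx h.2)]
      rw [h2]
      calc (Fintype.card (Fin n → Bool) : ℝ) / 2 ^ (b + 2)
          = Fintype.card (Fin n → Bool) * (1 / 4 / 2 ^ b) := by
            rw [pow_add]; field_simp; norm_num
        _ ≤ _ := mul_le_mul_of_nonneg_left hq hXpos.le
    have hF2 : ∀ j, |∑ x ∈ X2 i q, DL (ye im) (prs H σ) L x * fa (ω j) x|
        ≤ Fintype.card (Fin n → Bool) * (1 / 2 ^ (3 * t + 3)) := by
      intro j
      rw [hDLsum, abs_mul, abs_of_pos hXpos]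
      refine mul_le_mul_of_nonneg_left ?_ hXpos.le
      rw [pair5 (ye im) (prs H σ) L j (fun x => v1 i q x * fa (ω j) x) (fun x => by
        have h1 := fa_sign (ω j) x
        change v1 i q x * fa (ω j) x * ye im ((ω j).1, par (ω j).2) x = _
        rw [mul_assoc, h1]; ring)]
      have h5 : |∑ E ∈ 𝓔i j, co (ye im) (prs H σ) (fun x => v1 i q x * fa (ω j) x) E| ≤ θ := by
        by_contra hcon
        refine c5 (i, q, j) ⟨fun E hE => ?_, not_le.mp hcon⟩
        have h3 := (mem_filter.mp hE).2.2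
        exact hexH E (by omega) (by omega)
      refine h5.trans ?_
      change 1 / (2 : ℝ) ^ (8 * t + 5) ≤ 1 / 2 ^ (3 * t + 3)
      exact one_div_le_one_div_of_le (by positivity)
        (pow_le_pow_right₀ (by norm_num) (by omega))
    refine det8 (t := t) hM (hb2 i) (P i) (y i) (hy i) ω q (X2 i q)
      (fun x hx => (mem_filter.mp (h21 i q hx)).2) (DL (ye im) (prs H σ) L) hF1 hF2 ?_
    intro j a ha
    have hr : 1 ≤ r := Nat.succ_le_of_lt j.pos
    have h1 := hcone i q (DL (ye im) (prs H σ) L) (1 / 2 ^ (3 * t + 3))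
      (1 / 2 ^ (3 * (3 * t) + 3)) (by positivity) hX1ne ?_ ?_ j a ha
    · refine h1.trans (le_of_eq (sum_congr rfl fun x _ => ?_))
      have h2 : (x ∈ X1 i q) = ((fun i_1 => decide (aff ((P i).bin i_1) (y i x) = 1)) = q) := by
        simp only [X1, β, mem_filter, mem_univ, true_and]
      simp only [h2]
    · have hD1 : ((D : ℝ) + 1) ≤ 2 ^ t := by
        have h2 : D + 1 ≤ r * (D + 1) + 1 := by
          have := Nat.le_mul_of_pos_left (D + 1) hr
          omega
        have h3 : r * (D + 1) + 1 ≤ 2 ^ t :=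
          le_trans (Nat.le_mul_of_pos_left _ (by positivity)) (hrD i)
        exact_mod_cast h2.trans h3
      have h2 : (Fintype.card (Fin n → Bool) : ℝ) ≤ 2 ^ (2 * t) * (X1 i q).card := hbig
      calc (Fintype.card (Fin n → Bool) : ℝ) * ((D + 1) * 2 ^ (2 * t) *
            (1 / 2 ^ (3 * (3 * t) + 3)))
          ≤ (2 ^ (2 * t) * (X1 i q).card) * (2 ^ t * 2 ^ (2 * t) *
            (1 / 2 ^ (3 * (3 * t) + 3))) := by gcongr
        _ = (2 ^ (2 * t + t + 2 * t) / 2 ^ (3 * (3 * t) + 3)) * (X1 i q).card := by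
            rw [pow_add, pow_add]; ring
        _ ≤ 1 / 2 ^ (3 * t + 3) * (X1 i q).card := by
            refine mul_le_mul_of_nonneg_right ?_ (Nat.cast_nonneg _)
            rw [div_le_div_iff₀ (by positivity) (by positivity), one_mul, ← pow_add]
            exact pow_le_pow_right₀ (by norm_num) (by omega)
    · intro j v hv
      by_contra hcon
      rw [not_le] at hcon
      refine c3 ⟨(i, q, j), v, hv, lt_of_lt_of_le hcon ?_⟩
      have h1 := p.hτδ
      rw [← hL] at h1
      linarith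
  · rw [av_add, av_add, av_add, av_add, av_add, av_sum, av_sum]
    have h1 : ∑ i, av (fun ω : Fin M → Cl n k =>
        ind (A4 i (fun i => (ω i).1) (fun i => par (ω i).2))) ≤ κ := by
      refine (sum_le_sum fun i _ => hp4 i).trans ?_
      rw [sum_const, card_univ, Fintype.card_fin, nsmul_eq_mul]
      calc (Q : ℝ) * (κ / 2 ^ t) ≤ 2 ^ t * (κ / 2 ^ t) :=
            mul_le_mul_of_nonneg_right hQR (by positivity)
        _ = κ := by field_simp
    have h2 : ∑ o : Fin Q × (Fin b → Bool) × Fin M, av (fun ω : Fin M → Cl n k =>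
        ind (A5 o.1 o.2.1 o.2.2 (ω o.2.2) (fun i => (ω i).1) (fun i => par (ω i).2))) ≤ κ := by
      refine (sum_le_sum fun o _ => hp5 o.1 o.2.1 o.2.2).trans ?_
      rw [sum_const, card_univ, Fintype.card_prod, Fintype.card_prod, Fintype.card_fin,
        Fintype.card_fin, nsmul_eq_mul, Fintype.card_fun, Fintype.card_fin, Fintype.card_bool]
      push_cast
      calc (Q : ℝ) * (2 ^ b * M) * (κ / (M * 2 ^ t)) = (Q * 2 ^ b) * (κ / 2 ^ t) := by
            field_simp
        _ ≤ 2 ^ t * (κ / 2 ^ t) := mul_le_mul_of_nonneg_right hQbR (by positivity)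
        _ = κ := by field_simp
    linarith [hp1.trans hch]

end Pool.Agent.TH661.LPY
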