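import Pool.Agent.TH661.LPY.Ch5

/-!
Random signs on a fixed hypergraph, with designs.
-/

set_option autoImplicit false

namespace Pool.Agent.TH661.LPY

open Finset Pool.Agent.TH661.LPX

section sgn

variable {J : Type*} [DecidableEq J] [Fintype J] {I A : Type*} [Fintype I] [DecidableEq I] (ed : A → Finset I)

/-- Random signs: the truncated density is almost nonnegative on a finite-dimensional family. -/
theorem signs_prob4 [Nonempty J] (H : J → A) {δ s1 s2 τ : ℝ} {q N L1 L f D : ℕ}
    (hN : 1 ≤ N) (hδ : 0 < δ) (hτ : 0 < τ) (hL : L = L1 + f) (hs1 : 0 < s1)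
    (W : Submodule ℝ ((I → Bool) → ℝ))
    (T : ((I → Bool) → ℝ) → (Finset I) → ℝ)
    (hT0 : ∀ g S, 0 ≤ T g S)
    (hT : ∀ g : (I → Bool) → ℝ, (∀ x, 0 ≤ g x) → (∀ x, g x ≤ 2 ^ f) →
      ∀ 𝓔 : Finset (Finset J), ∃ Q : (J → Bool) → ℝ, (∀ σ, 0 ≤ Q σ) ∧
        av (fun σ => Q σ ^ N) ≤ (∑ E ∈ 𝓔, (2 * (N : ℝ)) ^ E.card * T g (so ed H E)) ^ N ∧
        ∀ v ∈ box W, δ ≤ av (fun x => g x * v x) → ∀ σ : J → Bool,
            (∑ E ∈ 𝓔, fI (fun x => g x * v x) (so ed H E) * ∏ i ∈ E, sg (σ i)) ^ 2
              ≤ 4 * (D + 1) * Q σ * av (fun x => g x * v x) ^ 2)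
    (hex : ∀ E : Finset J, 0 < E.card → E.card ≤ L1 → ex ed q H E)
    (hbad : ¬ BadS ed q N L1 s1 T H f univ (fun _ => 1))
    {b : Fin (D + 1) → (I → Bool) → ℝ}
    (hb : ∀ v ∈ box W, ∃ c : Fin (D + 1) → ℝ, (∀ i, |c i| ≤ 1) ∧ v = ∑ i, c i • b i)
    (htail : ∀ i, ∑ E ∈ univ.filter (fun E : Finset J => L1 < E.card ∧ E.card ≤ L),
      (2 * (N : ℝ)) ^ E.card * fI (b i) (so ed H E) ^ 2 ≤ s2) :
    av (fun σ : J → Bool => ind (∃ v ∈ box W,
      av (fun x => v x * DL (ye ed) (prs H σ) L x) < - (δ * NL J L) - τ)) ≤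
      NL J f * (2 ^ f * (4 * (D + 1) * s1) ^ N
        + (D + 1) * (s2 * (D + 1) ^ 2 / τ ^ 2) ^ N) := by
  classical
  -- the conditioned densities
  let gg : Finset J → Finset J → (I → Bool) → ℝ := fun F P =>
    if F.card ≤ f then up (ye ed) (prs H (bs P)) F (fun _ => 1) else fun _ => 0
  have hgg0 : ∀ F P x, 0 ≤ gg F P x := by
    intro F P x
    simp only [gg]
    split_ifs
    · exact up_nonneg (abs_ye ed) _ F (fun _ => zero_le_one) x
    · exact le_refl _
  have hgg1 : ∀ F P x, gg F P x ≤ 2 ^ f := by
    intro F P x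
    simp only [gg]
    split_ifs with h
    · unfold up
      rw [one_mul]
      exact (prod_one_add_le (abs_ye ed) _ F x).trans (pow_le_pow_right₀ (by norm_num) h)
    · positivity
  set 𝓕 := univ.filter (fun F : Finset J => F.card ≤ f) with h𝓕
  set 𝓔 : Finset J → Finset (Finset J) := fun F =>
    ((Fᶜ).powerset.filter (fun E => E.card ≤ L1)).erase ∅ with h𝓔
  set 𝓣 : Finset J → Finset (Finset J) := fun F =>
    univ.filter (fun E : Finset J => E.card ≤ L ∧ L1 < (E \ F).card) with h𝓣
  choose Q hQ0 hQ1 hQ2 using fun F P => hT (gg F P) (hgg0 F P) (hgg1 F P) (𝓔 F)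
  have hD1 : (0 : ℝ) < D + 1 := by positivity
  -- the weights
  have hwt : ∀ F P, ∑ E ∈ 𝓔 F, (2 * (N : ℝ)) ^ E.card * T (gg F P) (so ed H E)
      = wt ed q N L1 (T (gg F P)) H (univ \ F) := by
    intro F P
    unfold wt
    have hset : (univ \ F).powerset.filter (fun E => 0 < E.card ∧ E.card ≤ L1) = 𝓔 F := by
      ext E
      rw [h𝓔]
      simp only [mem_filter, mem_erase, mem_powerset]
      rw [card_pos, nonempty_iff_ne_empty, compl_eq_univ_sdiff]
      tauto
    rw [hset]
    refine sum_congr rfl fun E hE => ?_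
    rw [h𝓔, mem_erase, mem_filter] at hE
    rw [ind_true (hex E (card_pos.mpr (nonempty_iff_ne_empty.mpr hE.1)) hE.2.2), one_mul]
  set BB : Finset J → Finset J → (J → Bool) → Prop := fun F P σ =>
    wt ed q N L1 (T (gg F P)) H (univ \ F) ≤ s1 ∧ 1 / (4 * (D + 1)) < Q F P σ with hBB
  have hunion : ∀ σ : J → Bool, ind (∃ v ∈ box W,
      av (fun x => v x * DL (ye ed) (prs H σ) L x) < - (δ * NL J L) - τ)
      ≤ ∑ F ∈ 𝓕, (∑ P ∈ F.powerset, ind (BB F P σ)
        + ∑ i, ind (τ / (D + 1) < |∑ E ∈ 𝓣 F, fI (b i) (so ed H E) * ∏ i ∈ E, sg (σ i)|)) := by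
    intro σ
    have hnn1 : ∀ F : Finset J, ∀ P : Finset J, 0 ≤ ind (BB F P σ) := fun _ _ => ind_nonneg _
    have hnn2 : ∀ F : Finset J, ∀ i : Fin (D + 1), 0 ≤ ind (τ / (D + 1) <
          |∑ E ∈ 𝓣 F, fI (b i) (so ed H E) * ∏ i ∈ E, sg (σ i)|) := fun _ _ => ind_nonneg _
    have hnn : ∀ F ∈ 𝓕, 0 ≤ (∑ P ∈ F.powerset, ind (BB F P σ)
        + ∑ i, ind (τ / (D + 1) < |∑ E ∈ 𝓣 F, fI (b i) (so ed H E) * ∏ i ∈ E, sg (σ i)|)) :=
      fun F _ => add_nonneg (sum_nonneg fun P _ => hnn1 F P) (sum_nonneg fun i _ => hnn2 F i)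
    by_cases hv : ∃ v ∈ box W, av (fun x => v x * DL (ye ed) (prs H σ) L x) < - (δ * NL J L) - τ
    · rw [ind_true hv]
      obtain ⟨F, -, hFc, hF⟩ := exists_of_not_badS ed q N L1 T H σ f univ _ hbad
      have hF𝓕 : F ∈ 𝓕 := mem_filter.mpr ⟨mem_univ _, hFc⟩
      refine le_trans ?_ (single_le_sum hnn hF𝓕)
      set P := F.filter fun i => σ i = true with hP
      have hPF : P ∈ F.powerset := mem_powerset.mpr (filter_subset _ _)
      have hggFP : gg F P = up (ye ed) (prs H σ) F fun _ => 1 := by
        simp only [gg, if_pos hFc]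
        rw [hP, up_bs']
      by_cases h1 : BB F P σ
      · have h2 : (1 : ℝ) ≤ ∑ P ∈ F.powerset, ind (BB F P σ) := by
          refine le_trans ?_ (single_le_sum (fun P _ => hnn1 F P) hPF)
          rw [ind_true h1]
        linarith [sum_nonneg fun (i : Fin (D + 1)) (_ : i ∈ univ) => hnn2 F i]
      · by_cases h2 : ∃ i, τ / (D + 1) <
            |∑ E ∈ 𝓣 F, fI (b i) (so ed H E) * ∏ i ∈ E, sg (σ i)|
        · obtain ⟨i, hi⟩ := h2
          have h3 : (1 : ℝ) ≤ ∑ i, ind (τ / (D + 1) <
              |∑ E ∈ 𝓣 F, fI (b i) (so ed H E) * ∏ i ∈ E, sg (σ i)|) := by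
            refine le_trans ?_ (single_le_sum (fun i _ => hnn2 F i) (mem_univ i))
            rw [ind_true hi]
          linarith [sum_nonneg fun (P : Finset J) (_ : P ∈ F.powerset) => hnn1 F P]
        · exfalso
          push Not at h2
          have hQle : Q F P σ ≤ 1 / (4 * (D + 1)) := by
            by_contra hcon
            exact h1 ⟨by rw [hggFP]; exact hF, not_le.mp hcon⟩
          obtain ⟨v, hvW, hvlt⟩ := hv
          -- the decomposition
          have hZ := Z_eq (y := (ye ed)) (prs H σ) L v
          have hsub : univ.filter (fun E : Finset J => (E \ F).card ≤ L1)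
              ⊆ univ.filter (fun E : Finset J => E.card ≤ L) := by
            intro E hE
            rw [mem_filter] at hE ⊢
            refine ⟨mem_univ _, ?_⟩
            have h1 : (E \ F).card + (E ∩ F).card = E.card := card_sdiff_add_card_inter E F
            have h2 : (E ∩ F).card ≤ F.card := card_le_card inter_subset_right
            omega
          have hdiff : univ.filter (fun E : Finset J => E.card ≤ L) \
              univ.filter (fun E : Finset J => (E \ F).card ≤ L1) = 𝓣 F := by
            ext E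
            simp only [h𝓣, mem_sdiff, mem_filter, mem_univ, true_and, not_le]
          rw [← Finset.sum_sdiff hsub, hdiff, ← main_eq] at hZ
          -- the tail
          have htailσ : -τ ≤ ∑ E ∈ 𝓣 F, co (ye ed) (prs H σ) v E := by
            obtain ⟨c, hc1, hc2⟩ := hb v hvW
            have h3 : ∑ E ∈ 𝓣 F, co (ye ed) (prs H σ) v E
                = ∑ i, c i * ∑ E ∈ 𝓣 F, fI (b i) (so ed H E) * ∏ i ∈ E, sg (σ i) := by
              simp_rw [mul_sum]
              rw [sum_comm]
              refine sum_congr rfl fun E _ => ?_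
              rw [co_prs]
              have h4 : fI v (so ed H E) = ∑ i, c i * fI (b i) (so ed H E) := by
                conv_lhs => rw [hc2]
                exact fI_sum univ c b (so ed H E)
              rw [h4, mul_sum]
              exact sum_congr rfl fun i _ => by ring
            have h5 : |∑ E ∈ 𝓣 F, co (ye ed) (prs H σ) v E| ≤ τ := by
              rw [h3]
              refine (abs_sum_le_sum_abs _ _).trans ?_
              calc ∑ i, |c i * ∑ E ∈ 𝓣 F, fI (b i) (so ed H E) * ∏ i ∈ E, sg (σ i)|
                  ≤ ∑ _i : Fin (D + 1), τ / (D + 1) := by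
                    refine sum_le_sum fun i _ => ?_
                    rw [abs_mul]
                    exact (mul_le_of_le_one_left (abs_nonneg _) (hc1 i)).trans (h2 i)
                _ = τ := by
                    rw [sum_const, card_univ, Fintype.card_fin, nsmul_eq_mul]
                    push_cast; field_simp
            exact (abs_le.mp h5).1
          -- the main part
          have hup : up (ye ed) (prs H σ) F v = fun x => gg F P x * v x := by
            rw [hggFP]
            funext x
            unfold up; ring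
          have hNL : 0 ≤ NL J L := Nat.cast_nonneg _
          have hgpos : ∀ x, 0 ≤ up (ye ed) (prs H σ) F v x :=
            up_nonneg (abs_ye ed) _ F fun x => (hvW.2 x).1
          have hmain : -(δ * NL J L) ≤ ∑ E ∈ (Fᶜ).powerset.filter (fun E => E.card ≤ L1),
              co (ye ed) (prs H σ) (up (ye ed) (prs H σ) F v) E := by
            by_cases hl : av (up (ye ed) (prs H σ) F v) < δ
            · have h3 : |∑ E ∈ (Fᶜ).powerset.filter (fun E => E.card ≤ L1),
                  co (ye ed) (prs H σ) (up (ye ed) (prs H σ) F v) E| ≤ δ * NL J L := by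
                calc |∑ E ∈ (Fᶜ).powerset.filter (fun E => E.card ≤ L1),
                      co (ye ed) (prs H σ) (up (ye ed) (prs H σ) F v) E|
                    ≤ ∑ E ∈ (Fᶜ).powerset.filter (fun E => E.card ≤ L1),
                      |co (ye ed) (prs H σ) (up (ye ed) (prs H σ) F v) E| := abs_sum_le_sum_abs _ _
                  _ ≤ ∑ E ∈ (Fᶜ).powerset.filter (fun E => E.card ≤ L1), δ :=
                      sum_le_sum fun E _ => (abs_co_le (abs_ye ed) _ hgpos E).trans hl.le
                  _ ≤ ∑ E ∈ univ.filter (fun E : Finset J => E.card ≤ L), δ := by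
                      refine sum_le_sum_of_subset_of_nonneg ?_ fun _ _ _ => hδ.le
                      intro E hE
                      rw [mem_filter] at hE ⊢
                      exact ⟨mem_univ _, by omega⟩
                  _ = δ * NL J L := by
                      rw [sum_const, nsmul_eq_mul, mul_comm]; rfl
              exact (abs_le.mp h3).1
            · rw [not_lt] at hl
              have hsplit : ∑ E ∈ (Fᶜ).powerset.filter (fun E => E.card ≤ L1),
                    co (ye ed) (prs H σ) (up (ye ed) (prs H σ) F v) E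
                  = av (up (ye ed) (prs H σ) F v) + ∑ E ∈ 𝓔 F,
                    co (ye ed) (prs H σ) (up (ye ed) (prs H σ) F v) E := by
                rw [← Finset.add_sum_erase _ _ (a := (∅ : Finset J)) (by simp), co_empty]
              have h3 : ∑ E ∈ 𝓔 F, co (ye ed) (prs H σ) (up (ye ed) (prs H σ) F v) E
                  = ∑ E ∈ 𝓔 F, fI (fun x => gg F P x * v x)
                    (so ed H E) * ∏ i ∈ E, sg (σ i) := by
                refine sum_congr rfl fun E _ => ?_
                rw [co_prs, hup, mul_comm]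
              have h4 := hQ2 F P v hvW (by rw [← hup]; exact hl) σ
              have hapos : 0 ≤ av (fun x => gg F P x * v x) := by
                rw [← hup]; exact hδ.le.trans hl
              have h5 : (∑ E ∈ 𝓔 F, fI (fun x => gg F P x * v x) (so ed H E) *
                  ∏ i ∈ E, sg (σ i)) ^ 2 ≤ av (fun x => gg F P x * v x) ^ 2 := by
                refine h4.trans (mul_le_of_le_one_left (sq_nonneg _) ?_)
                calc 4 * ((D : ℝ) + 1) * Q F P σ ≤ 4 * (D + 1) * (1 / (4 * (D + 1))) :=
                      mul_le_mul_of_nonneg_left hQle (by positivity)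
                  _ = 1 := by field_simp
              have h6 := abs_le_of_sq_le_sq h5 hapos
              have h7 : 0 ≤ δ * NL J L := mul_nonneg hδ.le hNL
              have h8 : av (up (ye ed) (prs H σ) F v) = av (fun x => gg F P x * v x) := by rw [hup]
              rw [hsplit, h3, h8]
              linarith [(abs_le.mp h6).1]
          linarith
    · rw [ind_false hv]
      exact sum_nonneg hnn
  refine (av_mono hunion).trans ?_
  rw [av_sum]
  have hF : ∀ F ∈ 𝓕, av (fun σ : J → Bool => (∑ P ∈ F.powerset, ind (BB F P σ)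
        + ∑ i, ind (τ / (D + 1) < |∑ E ∈ 𝓣 F, fI (b i) (so ed H E) * ∏ i ∈ E, sg (σ i)|)))
      ≤ 2 ^ f * (4 * (D + 1) * s1) ^ N
        + (D + 1) * (s2 * (D + 1) ^ 2 / τ ^ 2) ^ N := by
    intro F hF
    rw [h𝓕, mem_filter] at hF
    rw [av_add, av_sum, av_sum]
    refine add_le_add ?_ ?_
    · have h1 : ∀ P ∈ F.powerset, av (fun σ : J → Bool => ind (BB F P σ))
          ≤ (4 * (D + 1) * s1) ^ N := by
        intro P _
        by_cases hw : wt ed q N L1 (T (gg F P)) H (univ \ F) ≤ s1
        · have h3 : ∀ σ : J → Bool, ind (BB F P σ)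
              ≤ ind ((1 / (4 * ((D : ℝ) + 1))) ^ N < Q F P σ ^ N) := by
            intro σ
            refine ind_mono fun h => ?_
            exact pow_lt_pow_left₀ h.2 (by positivity) (by omega)
          refine (av_mono h3).trans ((av_ind_lt_le (fun σ => pow_nonneg (hQ0 F P σ) N)
            (by positivity)).trans ?_)
          rw [div_le_iff₀ (by positivity), ← mul_pow]
          have h4 : 4 * ((D : ℝ) + 1) * s1 * (1 / (4 * (D + 1))) = s1 := by field_simp
          rw [h4]
          refine (hQ1 F P).trans (pow_le_pow_left₀ ?_ ?_ N)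
          · exact sum_nonneg fun E _ => mul_nonneg (by positivity) (hT0 _ _)
          · rw [hwt]; exact hw
        · have h3 : ∀ σ : J → Bool, ind (BB F P σ) = 0 :=
            fun σ => ind_false fun h => hw h.1
          rw [av_congr h3, show av (fun _ : J → Bool => (0 : ℝ)) = 0 from av_const 0]
          positivity
      refine (sum_le_sum h1).trans ?_
      rw [sum_const, card_powerset, nsmul_eq_mul]
      push_cast
      refine mul_le_mul_of_nonneg_right (pow_le_pow_right₀ (by norm_num) hF.2) (by positivity)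
    · have h2 : ∀ i, av (fun σ : J → Bool => ind (τ / ((D : ℝ) + 1) <
          |∑ E ∈ 𝓣 F, fI (b i) (so ed H E) * ∏ i ∈ E, sg (σ i)|))
          ≤ (s2 * (D + 1) ^ 2 / τ ^ 2) ^ N := by
        intro i
        have h3 := poly_tail' (𝓣 F) (fun E => fI (b i) (so ed H E)) hN
          (s := τ / ((D : ℝ) + 1)) (W := s2) (by positivity) (by
            refine le_trans ?_ (htail i)
            have hsub : 𝓣 F ⊆ univ.filter (fun E : Finset J => L1 < E.card ∧ E.card ≤ L) := by
              intro E hE
              rw [h𝓣] at hE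
              simp only [mem_filter, mem_univ, true_and] at hE ⊢
              have : (E \ F).card ≤ E.card := card_le_card sdiff_subset
              exact ⟨by omega, hE.1⟩
            exact sum_le_sum_of_subset_of_nonneg hsub fun _ _ _ => by positivity)
        refine h3.trans (le_of_eq ?_)
        congr 1
        field_simp
      refine (sum_le_sum fun i _ => h2 i).trans (le_of_eq ?_)
      rw [sum_const, card_univ, Fintype.card_fin, nsmul_eq_mul]
      push_cast; ring
  refine (sum_le_sum hF).trans (le_of_eq ?_)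
  rw [sum_const, nsmul_eq_mul]
  rfl

end sgn

end Pool.Agent.TH661.LPY
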